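import Pool.Agent.Helper94.UG.Stm1

set_option autoImplicit false

namespace Pool.Agent.Helper94.UG.AVG

open Finset Filter Topology

/-- a coordinate of a sum of successive vectors -/
theorem base_sum {x : ℕ → V} {A B : ℕ → ℕ} (hx : Succ x A B) {C : ℝ} (hC : 0 ≤ C)
    (hb : ∀ l, Bd C (x l)) (n : ℕ) (α β : ℕ) (I : Finset ℕ) :
    ‖ev (.base n) (cut α β (∑ l ∈ I, x l))‖ ≤ C := by
  have e1 : ∀ l, ‖x l n‖ ≤ C := fun l => by
    have h := hb l (.base n) trivial n (n + 1)
    rw [ev_base, cut_apply, if_pos ⟨le_rfl, Nat.lt_succ_self n⟩] at h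
    exact h
  rw [ev_base, cut_apply]
  split_ifs with h
  · rw [Finset.sum_apply]
    by_cases h0 : ∃ l ∈ I, x l n ≠ 0
    · obtain ⟨l, hl, hln⟩ := h0
      rw [Finset.sum_eq_single_of_mem l hl]
      · exact e1 l
      · intro l' _ hll
        by_contra h2
        have h3 : A l ≤ n ∧ n < B l := by
          by_contra h4
          exact hln (hx.1 l n (by omega))
        have h5 : A l' ≤ n ∧ n < B l' := by
          by_contra h4
          exact h2 (hx.1 l' n (by omega))
        rcases lt_or_gt_of_ne hll with h6 | h6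
        · have := hx.2.2 _ _ h6
          omega
        · have := hx.2.2 _ _ h6
          omega
    · push Not at h0
      rw [Finset.sum_eq_zero h0, norm_zero]
      exact hC
  · rw [norm_zero]
    exact hC

theorem card_pos {q : ℕ} {I : Finset ℕ} (hI : nn q ≤ mm q * #I) : (0 : ℝ) < (#I : ℝ) := by
  have h1 := nn_pos q
  have h2 : 0 < #I := by
    rcases Nat.eq_zero_or_pos (#I) with h | h
    · rw [h, mul_zero] at hI; omega
    · exact h
  exact_mod_cast h2

theorem fac_le {q : ℕ} {I : Finset ℕ} (hI : nn q ≤ mm q * #I) :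
    (mm q : ℝ) / (#I : ℝ) ≤ (mm q : ℝ) ^ 2 / nn q := by
  have h0 := card_pos hI
  have h1 : (nn q : ℝ) ≤ mm q * (#I : ℝ) := by exact_mod_cast hI
  have hmq := mm_pos' q
  rw [div_le_div_iff₀ h0 (nn_pos' q)]
  calc (mm q : ℝ) * nn q ≤ mm q * (mm q * (#I : ℝ)) := mul_le_mul_of_nonneg_left h1 hmq.le
    _ = (mm q : ℝ) ^ 2 * (#I : ℝ) := by ring

theorem sq_div_le (q : ℕ) : (mm q : ℝ) ^ 2 / nn q ≤ 1 / 16 := by
  rw [div_le_div_iff₀ (nn_pos' q) (by norm_num), one_mul]
  have h1 := mm_le_nn q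
  have h2 := one_le_mm q
  have h3 : (16 : ℝ) ≤ (mm q : ℝ) ^ 2 := by nlinarith
  calc (mm q : ℝ) ^ 2 * 16 ≤ (mm q : ℝ) ^ 2 * (mm q : ℝ) ^ 2 :=
        mul_le_mul_of_nonneg_left h3 (by positivity)
    _ = (mm q : ℝ) ^ 4 := by ring
    _ ≤ nn q := h1

/-- averages are bounded -/
theorem bd (al : S_AVL) (ah : S_AVH) (C : ℝ) (J : ℕ → ℕ) (q : ℕ) (I : Finset ℕ)
    (hI : nn q ≤ mm q * #I) (t : Tr) : t.Wf → ∀ (u : ℕ → V) (A B : ℕ → ℕ), RIS C u A B J →
    ∀ α β : ℕ, ‖ev t (cut α β (((mm q : ℝ) / (#I : ℝ)) • ∑ l ∈ I, u l))‖ ≤ 4 * C := by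
  have hf := (fac_le hI).trans (sq_div_le q)
  have hk := card_pos hI
  have hmq := mm_pos' q
  induction t with
  | base n =>
    intro _ u A B h α β
    have hC : 0 ≤ C := by linarith [h.hC]
    rw [map_smul, map_smul, norm_smul, norm_div, Real.norm_natCast, Real.norm_natCast]
    have h1 := base_sum h.succ hC h.bd n α β I
    calc (mm q : ℝ) / (#I : ℝ) * ‖ev (.base n) (cut α β (∑ l ∈ I, u l))‖ ≤ 1 / 16 * C :=
          mul_le_mul hf h1 (norm_nonneg _) (by norm_num)
      _ ≤ 4 * C := by linarith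
  | node j d a b t _ =>
    intro hw u A B h α β
    have hC : 0 ≤ C := by linarith [h.hC]
    rcases lt_or_ge j q with hj | hj
    · refine (al C u A B J h q I hI _ hw j rfl hj α β).trans ?_
      rw [div_le_iff₀ (mm_pos' j)]
      have := one_le_mm j
      nlinarith
    · refine (ah C u A B J h q I hI _ hw j rfl α β).trans ?_
      have h2 : (mm q : ℝ) / mm j ≤ 1 := by
        rw [div_le_one (mm_pos' j)]
        exact_mod_cast mm_mono hj
      have h3 := sq_div_le q
      have h4 : 3 * C * ((mm q : ℝ) ^ 2 / nn q) ≤ 3 * C * (1 / 16) :=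
        mul_le_mul_of_nonneg_left h3 (by positivity)
      have h5 : C * ((mm q : ℝ) / mm j) ≤ C * 1 := mul_le_mul_of_nonneg_left h2 hC
      linarith
  | rs v t ih =>
    intro hw u A B h α β
    rw [ev_rs, Rs_cut, map_smul, map_sum]
    exact ih hw _ _ _ (h.Rs fun _ => v) _ _

end Pool.Agent.Helper94.UG.AVG

namespace Pool.Agent.Helper94.UG

theorem t_AVG (al : S_AVL) (ah : S_AVH) : S_AVG := by
  intro C u A B J h q I hI
  exact
    { bd := fun t hw α β => AVG.bd al ah C J q I hI t hw u A B h α β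
      low := fun t hw i hi hiq α β => al C u A B J h q I hI t hw i hi hiq α β
      high := fun t hw i hi α β => ah C u A B J h q I hI t hw i hi α β }

end Pool.Agent.Helper94.UG
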