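import Pool.Agent.Helper94.UG.Stm1

set_option autoImplicit false

namespace Pool.Agent.Helper94.UG.AVH

open Finset Filter Topology

/-- the length of an average is positive -/
theorem card_pos {q : ℕ} {I : Finset ℕ} (hI : nn q ≤ mm q * #I) : (0 : ℝ) < (#I : ℝ) := by
  have h1 := nn_pos q
  have h2 : 0 < #I := by
    rcases Nat.eq_zero_or_pos (#I) with h | h
    · rw [h, mul_zero] at hI; omega
    · exact h
  exact_mod_cast h2

/-- the factor of an average -/
theorem fac_le {q : ℕ} {I : Finset ℕ} (hI : nn q ≤ mm q * #I) :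
    (mm q : ℝ) / (#I : ℝ) ≤ (mm q : ℝ) ^ 2 / nn q := by
  have h0 := card_pos hI
  have h1 : (nn q : ℝ) ≤ mm q * (#I : ℝ) := by exact_mod_cast hI
  have hmq := mm_pos' q
  rw [div_le_div_iff₀ h0 (nn_pos' q)]
  calc (mm q : ℝ) * nn q ≤ mm q * (mm q * (#I : ℝ)) := mul_le_mul_of_nonneg_left h1 hmq.le
    _ = (mm q : ℝ) ^ 2 * (#I : ℝ) := by ring

end Pool.Agent.Helper94.UG.AVH

namespace Pool.Agent.Helper94.UG

open Finset Filter Topology

theorem t_AVH (nd : S_NODE) : S_AVH := by
  intro C u A B J h q I hI t hw i hi α β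
  have hC : 0 ≤ C := by linarith [h.hC]
  have hC1 := h.hC
  have hmq := mm_pos' q
  have hmi := mm_pos' i
  have hnq := nn_pos' q
  have hk := AVH.card_pos hI
  have hf := AVH.fac_le hI
  rw [map_smul, map_smul, norm_smul, norm_div, Real.norm_natCast, Real.norm_natCast]
  have h0 := nd C u A B J h t hw i hi α β I
  calc (mm q : ℝ) / (#I : ℝ) * ‖ev t (cut α β (∑ l ∈ I, u l))‖
      ≤ (mm q : ℝ) / (#I : ℝ) * (C + 2 + C / mm i * (#I : ℝ)) :=
        mul_le_mul_of_nonneg_left h0 (by positivity)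
    _ = (C + 2) * (mm q / (#I : ℝ)) + C * (mm q / mm i) := by field_simp
    _ ≤ _ := by
        have h1 : (C + 2) * ((mm q : ℝ) / (#I : ℝ)) ≤ 3 * C * ((mm q : ℝ) ^ 2 / nn q) :=
          mul_le_mul (by linarith) hf (by positivity) (by positivity)
        linarith

end Pool.Agent.Helper94.UG
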