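import Pool.Agent.Helper94.UG.Stm1

set_option autoImplicit false

namespace Pool.Agent.Helper94.UG.DBD

open Finset Filter Topology

/-- nodes of index larger than `p` -/
theorem gen_big (dg : S_DGEN) {C : ℝ} {p : ℕ} {X : ℕ → V} {q : ℕ → ℕ} {G : ℕ → Tr × ℕ × ℕ}
    (h : Dep C p X q G) {I : Finset ℕ} (hI : I ⊆ range (nn p)) (v : Finset ℕ) (t : Tr) (hw : t.Wf) (i : ℕ)
    (hi : t.wt = i + 1) (hip : p < i) (α β : ℕ) :
    ‖ev t (cut α β (∑ k ∈ I, Rs v (X k)))‖ ≤ 9 * C + 3 * C / (mm p) ^ 2 * (#I : ℝ) := by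
  have hC : 0 ≤ C := by linarith [h.hC]
  have h1 := dg C p X q G h I hI v t hw i hi (by omega) α β (4 * C) (fun _ _ _ => le_rfl)
    (by positivity)
  refine h1.trans ?_
  have h2 : (mm p : ℝ) ^ 2 ≤ mm i := by
    have : mm (p + 1) ≤ mm i := mm_mono hip
    rw [mm_succ] at this
    exact_mod_cast this
  have h3 : 3 * C / mm i ≤ 3 * C / (mm p) ^ 2 :=
    div_le_div_of_nonneg_left (by positivity) (by have := mm_pos' p; positivity) h2
  have h4 : 3 * C / nn p ≤ 3 * C := div_le_self (by positivity) (by exact_mod_cast nn_pos p)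
  have h5 : 2 * C / mm (i - 1) ≤ 2 * C := div_le_self (by positivity) (by linarith [one_le_mm (i - 1)])
  have h6 : (#I : ℝ) * (3 * C / mm i) ≤ (#I : ℝ) * (3 * C / (mm p) ^ 2) :=
    mul_le_mul_of_nonneg_left h3 (Nat.cast_nonneg _)
  linarith [mul_comm (#I : ℝ) (3 * C / (mm p : ℝ) ^ 2)]

end Pool.Agent.Helper94.UG.DBD

namespace Pool.Agent.Helper94.UG

open Finset Filter Topology

theorem t_DBD (rec : S_REC) (dg : S_DGEN) (ds : S_DSP) : S_DBD := by
  classical
  intro C p X q G h
  have hC : 0 ≤ C := by linarith [h.hC]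
  have hmp := mm_pos' p
  set x : ℕ → V := fun k => if k < nn p then X k else 0 with hxdef
  have hx : Succ x (fun k => (G k).2.1) (fun k => (G k).2.2) := by
    refine ⟨fun k => ?_, h.le, h.suc⟩
    simp only [x]
    split_ifs
    · exact h.lev k
    · intro _ _; rfl
  have hsumx : ∀ (v : Finset ℕ) (I : Finset ℕ),
      ∑ k ∈ I, Rs v (x k) = ∑ k ∈ I ∩ range (nn p), Rs v (X k) := by
    intro v I
    rw [← Finset.filter_mem_eq_inter, Finset.sum_filter]
    refine Finset.sum_congr rfl fun k _ => ?_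
    simp only [x, Finset.mem_range]
    split_ifs
    · rfl
    · rw [map_zero]
  have hbd : ∀ k, Bd (4 * C) (x k) := by
    intro k
    simp only [x]
    split_ifs
    · exact (h.av k).bd
    · exact Bd.zero (by positivity)
  intro t hw α β
  have hid : ∀ k, x k = Rs (range (G (nn p)).2.1) (x k) := by
    intro k
    funext n
    rw [Rs_apply]
    split_ifs with h1
    · rfl
    · simp only [x]
      split_ifs with h2
      · refine h.lev k n (Or.inr ?_)
        rw [Finset.mem_range, not_lt] at h1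
        exact (h.suc k (nn p) h2).trans h1
      · rfl
  have h0 := rec (fun y => ∃ v : Finset ℕ, ∀ k, y k = Rs v (x k)) (4 * C) (31 * C)
    (3 * C / (mm p : ℝ) ^ 2) p (by positivity) (by positivity) (by positivity) ?_ ?_ ?_ ?_ (rr p)
    t hw x ⟨_, hid⟩ α β (range (nn p))
  · have hs : ∑ l ∈ range (nn p), x l = ∑ k ∈ range (nn p), X k := by
      refine Finset.sum_congr rfl fun k hk => ?_
      simp only [x]
      rw [if_pos (Finset.mem_range.1 hk)]
    rw [hs, Finset.card_range, two_pow_rr'] at h0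
    refine h0.trans ?_
    have hg := growth p
    have hD : (0 : ℝ) ≤ DD p := Nat.cast_nonneg _
    set P : ℝ := (2 * (DD p : ℝ) + 2) ^ rr p with hPdef
    have hP1 : 1 ≤ P := one_le_pow₀ (by linarith)
    have h4 := one_le_mm p
    have e1 : (31 * C + 4 * C) * P ≤ C * (nn p / (mm p : ℝ) ^ 2) := by
      rw [mul_div_assoc', le_div_iff₀ (by positivity)]
      have e2 : (mm p : ℝ) ^ 4 * 5 * P ≤ nn p := by
        refine le_trans ?_ hg
        refine mul_le_mul_of_nonneg_right ?_ (by linarith)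
        refine mul_le_mul_of_nonneg_left ?_ (by positivity)
        linarith
      have e3 : (16 : ℝ) ≤ (mm p : ℝ) ^ 2 := by nlinarith
      have e4 : (31 * C + 4 * C) * P * (mm p : ℝ) ^ 2 ≤ C * ((mm p : ℝ) ^ 4 * 5 * P) := by
        have e5 : (35 : ℝ) ≤ 5 * (mm p : ℝ) ^ 2 := by linarith
        have e6 : 0 ≤ C * P * (mm p : ℝ) ^ 2 := by positivity
        nlinarith
      exact e4.trans (mul_le_mul_of_nonneg_left e2 hC)
    have e2 : (3 * C / (mm p : ℝ) ^ 2 + 4 * C / (mm p : ℝ) ^ 2) * nn p =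
        7 * C * (nn p / (mm p : ℝ) ^ 2) := by
      ring
    rw [e2]
    linarith
  · -- closed under restrictions
    rintro y ⟨v, hy⟩ w
    refine ⟨w ∩ v, fun k => ?_⟩
    show Rs w (y k) = _
    rw [hy k, Rs_Rs]
  · -- successive
    rintro y ⟨v, hy⟩
    have : y = fun k => Rs v (x k) := funext hy
    rw [this]
    exact ⟨_, _, hx.Rs fun _ => v⟩
  · -- bounded
    rintro y ⟨v, hy⟩ l
    rw [hy l]
    exact (hbd l).Rs v
  · -- nodes
    rintro y ⟨v, hy⟩ j d a b t hw hj α β I
    · have h1 : ∑ l ∈ I, y l = ∑ k ∈ I ∩ range (nn p), Rs v (X k) := by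
        rw [← hsumx v I]
        exact Finset.sum_congr rfl fun k _ => hy k
      rw [h1]
      have hcard : (#(I ∩ range (nn p)) : ℝ) ≤ #I := by
        exact_mod_cast Finset.card_le_card Finset.inter_subset_left
      have hnn : 0 ≤ 3 * C / (mm p : ℝ) ^ 2 := by positivity
      rcases eq_or_lt_of_le hj with h2 | h2
      · subst h2
        have h3 := ds C p X q G h (I ∩ range (nn p)) Finset.inter_subset_right v d a b t hw α β
        have h4 : (0 : ℝ) ≤ #I := Nat.cast_nonneg _
        have h5 := mul_nonneg hnn h4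
        linarith
      · have h3 := DBD.gen_big dg h (I := I ∩ range (nn p)) Finset.inter_subset_right v _ hw j rfl h2
          α β
        have h4 := mul_le_mul_of_nonneg_left hcard hnn
        linarith

end Pool.Agent.Helper94.UG
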