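import Pool.Agent.Helper94.UG.Stm1

/-! Project GM: the general estimate for (translates of) dependent sequences. -/

set_option autoImplicit false

namespace Pool.Agent.Helper94.UG

open Finset Filter Topology

noncomputable section

namespace DGEN

theorem q_lt {C : ℝ} {p : ℕ} {X : ℕ → V} {q : ℕ → ℕ} {G : ℕ → Tr × ℕ × ℕ} (h : Dep C p X q G) (k : ℕ) :
    q k < q (k + 1) := by
  rw [h.qs k]
  refine lt_of_le_of_lt ?_ (wsum_lt_sig _)
  unfold wsum
  have h1 : (G k).1.wt ≤ ((List.ofFn fun i : Fin (k + 1) => G i).map fun s => s.1.wt).sum := by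
    apply List.single_le_sum (fun _ _ => Nat.zero_le _)
    rw [List.mem_map]
    exact ⟨G k, by rw [List.mem_ofFn]; exact ⟨⟨k, by omega⟩, rfl⟩, rfl⟩
  rw [h.wt k] at h1
  omega

theorem q_mono {C : ℝ} {p : ℕ} {X : ℕ → V} {q : ℕ → ℕ} {G : ℕ → Tr × ℕ × ℕ} (h : Dep C p X q G) :
    StrictMono q := strictMono_nat_of_lt_succ (q_lt h)

theorem thr_le {C : ℝ} {p : ℕ} {X : ℕ → V} {q : ℕ → ℕ} {G : ℕ → Tr × ℕ × ℕ} (h : Dep C p X q G) (k : ℕ) :
    thr p ≤ q k :=
  h.q0'.trans ((q_mono h).monotone (Nat.zero_le k))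

theorem sum_mm_le (i : ℕ) (hi : 1 ≤ i) : ∑ q ∈ range i, (mm q : ℝ) ≤ 2 * mm (i - 1) := by
  induction i with
  | zero => omega
  | succ i ih =>
    rw [Finset.sum_range_succ, Nat.add_sub_cancel]
    rcases Nat.eq_zero_or_pos i with h | h
    · subst h
      have := mm_pos' 0
      simp only [Finset.range_zero, Finset.sum_empty]
      linarith
    · have h1 := ih h
      obtain ⟨i, rfl⟩ : ∃ i', i = i' + 1 := ⟨i - 1, by omega⟩
      rw [Nat.add_sub_cancel] at h1
      have h2 : (mm (i + 1) : ℝ) = (mm i : ℝ) ^ 2 := by exact_mod_cast mm_succ i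
      have h3 := one_le_mm i
      nlinarith

/-- the quantity `(mm q)^2 / nn q` is small for `thr p ≤ q` -/
theorem mm_sq_div_nn_le {p q : ℕ} (h : thr p ≤ q) : (mm q : ℝ) ^ 2 / nn q ≤ 1 / (nn p : ℝ) ^ 2 := by
  have h0 := nn_pos' p
  have h1 := nn_pos' q
  have h2 := mm_le_nn q
  have h3 := mm_pos' q
  have h5 : (2 * (nn p : ℝ) ^ 2 + p + 2) ≤ q := by
    unfold thr at h
    exact_mod_cast h
  have h6 : (0 : ℝ) ≤ p := Nat.cast_nonneg _
  have h7 := lt_mm' q
  have h8 : (nn p : ℝ) ^ 2 ≤ mm q := by nlinarith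
  have h9 : (1 : ℝ) ≤ mm q := by linarith [one_le_mm q]
  have h10 : (nn p : ℝ) ^ 2 ≤ (mm q : ℝ) ^ 2 := h8.trans (le_self_pow₀ h9 (by norm_num))
  rw [div_le_div_iff₀ h1 (by positivity), one_mul]
  calc (mm q : ℝ) ^ 2 * (nn p : ℝ) ^ 2 ≤ (mm q : ℝ) ^ 2 * (mm q : ℝ) ^ 2 :=
        mul_le_mul_of_nonneg_left h10 (by positivity)
    _ = (mm q : ℝ) ^ 4 := by ring
    _ ≤ nn q := h2

end DGEN

/-- the general estimate for (translates of) dependent sequences -/
theorem t_DGEN : S_DGEN := by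
  classical
  intro C p X q G h I hI v t hw i hi hi1 α β E hE hE0
  have hC : 0 ≤ C := by linarith [h.hC]
  rw [map_sum, map_sum]
  refine (norm_sum_le _ _).trans ?_
  have h1 : ∀ k ∈ I, ‖ev t (cut α β (Rs v (X k)))‖ ≤
      (if q k = i then E else 0) + 3 * C / mm i + 3 * C * (1 / (nn p : ℝ) ^ 2) +
        C / mm i * (if q k < i then (mm (q k) : ℝ) else 0) := by
    intro k hk
    have hav := (h.av k).Rs v
    have hp1 : (0 : ℝ) ≤ 3 * C / mm i := by positivity
    have hp2 : (0 : ℝ) ≤ 3 * C * (1 / (nn p : ℝ) ^ 2) := by positivity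
    rcases lt_trichotomy (q k) i with h2 | h2 | h2
    · rw [if_neg (by omega), if_pos h2]
      refine (hav.high t hw i hi α β).trans ?_
      have h4 : 3 * C * ((mm (q k) : ℝ) ^ 2 / nn (q k)) ≤ 3 * C * (1 / (nn p : ℝ) ^ 2) :=
        mul_le_mul_of_nonneg_left (DGEN.mm_sq_div_nn_le (DGEN.thr_le h k)) (by positivity)
      have h5 : C * ((mm (q k) : ℝ) / mm i) = C / mm i * mm (q k) := by ring
      rw [h5]
      linarith
    · rw [if_pos h2, if_neg (by omega)]
      have := hav.bd t hw α β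
      have := hE k hk h2
      simp only [mul_zero, add_zero]
      linarith
    · rw [if_neg (by omega), if_neg (by omega)]
      have := hav.low t hw i hi h2 α β
      simp only [mul_zero, add_zero, zero_add]
      linarith
  refine (Finset.sum_le_sum h1).trans ?_
  rw [Finset.sum_add_distrib, Finset.sum_add_distrib, Finset.sum_add_distrib, Finset.sum_const,
    Finset.sum_const, nsmul_eq_mul, nsmul_eq_mul, ← Finset.mul_sum]
  have e1 : ∑ k ∈ I, (if q k = i then E else 0) ≤ E := by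
    rw [← Finset.sum_filter, Finset.sum_const, nsmul_eq_mul]
    have h5 : (I.filter fun k => q k = i).card ≤ 1 := by
      rw [Finset.card_le_one]
      intro l hl l' hl'
      have h6 := (Finset.mem_filter.1 hl).2
      have h7 := (Finset.mem_filter.1 hl').2
      exact (DGEN.q_mono h).injective (h6.trans h7.symm)
    have h9 : ((I.filter fun k => q k = i).card : ℝ) ≤ 1 := by exact_mod_cast h5
    calc ((I.filter fun k => q k = i).card : ℝ) * E ≤ 1 * E :=
          mul_le_mul_of_nonneg_right h9 hE0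
      _ = E := one_mul E
  have e2 : (#I : ℝ) * (3 * C * (1 / (nn p : ℝ) ^ 2)) ≤ 3 * C / nn p := by
    have h2 : (#I : ℝ) ≤ nn p := by
      have := Finset.card_le_card hI
      rw [Finset.card_range] at this
      exact_mod_cast this
    have h3 := nn_pos' p
    calc (#I : ℝ) * (3 * C * (1 / (nn p : ℝ) ^ 2)) ≤ nn p * (3 * C * (1 / (nn p : ℝ) ^ 2)) :=
          mul_le_mul_of_nonneg_right h2 (by positivity)
      _ = 3 * C / nn p := by field_simp
  have e3 : C / mm i * ∑ k ∈ I, (if q k < i then (mm (q k) : ℝ) else 0) ≤ 2 * C / mm (i - 1) := by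
    have h2 : ∑ k ∈ I, (if q k < i then (mm (q k) : ℝ) else 0) ≤ 2 * mm (i - 1) := by
      refine le_trans ?_ (DGEN.sum_mm_le i hi1)
      rw [← Finset.sum_filter, ← Finset.sum_image (f := fun n => (mm n : ℝ)) (g := q)
        (fun x _ y _ hxy => (DGEN.q_mono h).injective hxy)]
      refine Finset.sum_le_sum_of_subset_of_nonneg ?_ (fun _ _ _ => Nat.cast_nonneg _)
      intro n hn
      obtain ⟨k, hk, rfl⟩ := Finset.mem_image.1 hn
      exact Finset.mem_range.2 (Finset.mem_filter.1 hk).2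
    obtain ⟨i, rfl⟩ : ∃ i', i = i' + 1 := ⟨i - 1, by omega⟩
    rw [Nat.add_sub_cancel] at h2 ⊢
    have h3 : (mm (i + 1) : ℝ) = (mm i : ℝ) ^ 2 := by exact_mod_cast mm_succ i
    have h4 := mm_pos' i
    rw [h3]
    calc C / (mm i : ℝ) ^ 2 * ∑ k ∈ I, (if q k < i + 1 then (mm (q k) : ℝ) else 0)
        ≤ C / (mm i : ℝ) ^ 2 * (2 * mm i) := mul_le_mul_of_nonneg_left h2 (by positivity)
      _ = 2 * C / mm i := by field_simp
  linarith

end

end Pool.Agent.Helper94.UG
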