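import Pool.Agent.Helper94.UG.Stm1

set_option autoImplicit false

/-!
Port of the library module: the basis vectors form rapidly increasing sequences.
-/

namespace Pool.Agent.Helper94.UG.ERIS

open Finset Filter Topology

theorem onLv_e (n : ℕ) : OnLv n (n + 1) (e n) := by
  intro k hk
  unfold e
  rw [if_neg]
  omega

theorem sum_e (n : ℕ) : ∑ k ∈ Ico n (n + 1), ‖e n k‖ = 1 := by
  rw [Nat.Ico_succ_singleton, Finset.sum_singleton]
  unfold e
  simp

theorem half_pow (i l : ℕ) (h : l + 1 ≤ i) : (1 : ℝ) / mm i ≤ (1 / 2) ^ l := by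
  have h1 : 2 ^ l ≤ mm i := by
    unfold mm
    apply Nat.pow_le_pow_right (by norm_num)
    have h2 : i + 1 < 2 ^ (i + 1) := Nat.lt_two_pow_self
    omega
  have h2 : (2 : ℝ) ^ l ≤ mm i := by exact_mod_cast h1
  rw [one_div_pow]
  exact one_div_le_one_div_of_le (by positivity) h2

theorem weight (els : S_ELS) (n : ℕ) (t : Tr) (ht : t.Wf) (i : ℕ) (hi : t.wt = i + 1) (α β : ℕ) :
    ‖ev t (cut α β (e n))‖ ≤ 1 / mm i := by
  have h := (els n (n + 1) (e n) (onLv_e n) t ht α β).2 i hi
  rw [sum_e, mul_one] at h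
  rw [one_div]
  exact h

end Pool.Agent.Helper94.UG.ERIS

namespace Pool.Agent.Helper94.UG

open Finset Filter Topology

theorem t_ERIS (els : S_ELS) : S_ERIS := by
  intro k hk
  refine
    { hC := le_rfl
      succ := ⟨fun l => ERIS.onLv_e (k l), fun l => Nat.le_succ _, fun l l' h => hk h⟩
      tend := hk.tendsto_atTop
      bd := ?_
      mono := strictMono_id
      low := ?_
      high := ?_ }
  · intro l t ht a b
    have h := (els (k l) (k l + 1) (e (k l)) (ERIS.onLv_e (k l)) t ht a b).1
    rw [ERIS.sum_e] at h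
    exact h
  · intro l t ht i hi _ α β
    exact ERIS.weight els (k l) t ht i hi α β
  · intro l t ht i hi hil α β
    exact (ERIS.weight els (k l) t ht i hi α β).trans (ERIS.half_pow i l hil)

end Pool.Agent.Helper94.UG
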