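import Pool.Agent.Helper94.UG.Stm1

set_option autoImplicit false

/-!
Port of the library module: averages of successive vectors are good for small weights (job GM-L1).
-/

namespace Pool.Agent.Helper94.UG.L1

open Finset Filter Topology

/-- sums of vectors bounded by `2` -/
theorem sum_le {x : ℕ → V} (hb : ∀ l, Bd 2 (x l)) (I : Finset ℕ) (t : Tr) (ht : t.Wf) (α β : ℕ) :
    ‖ev t (cut α β (∑ l ∈ I, x l))‖ ≤ 2 * (#I : ℝ) := by
  rw [map_sum, map_sum]
  refine (norm_sum_le _ _).trans ?_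
  refine (Finset.sum_le_sum fun l _ => hb l t ht α β).trans ?_
  rw [Finset.sum_const, nsmul_eq_mul, mul_comm]

/-- the estimate for nodes -/
theorem node_est (spl : S_SPL) {x : ℕ → V} {A B : ℕ → ℕ} (hs : Succ x A B) (hb : ∀ l, Bd 2 (x l))
    (I : Finset ℕ) (j d : ℕ)  (a b : Fin d → ℕ) (t : Fin d → Tr)
    (hw : (Tr.node j d a b t).Wf) (hj : 2 * nn j * mm j ≤ #I) (α β : ℕ) :
    ‖ev (.node j d a b t) (cut α β (∑ l ∈ I, x l))‖ ≤ 3 / mm j * (#I : ℝ) := by
  obtain ⟨J, K, -, hJd, -, hK, heq⟩ := spl x A B hs j d a b t hw I α β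
  have hw' := hw
  obtain ⟨hd, hwt, -, -, -⟩ := hw'
  have hm := mm_pos' j
  rw [heq]
  have h1 : ‖∑ l ∈ J, ev (.node j d a b t) (cut α β (x l))‖ ≤ 2 * (nn j : ℝ) := by
    refine (norm_sum_le _ _).trans ?_
    refine (Finset.sum_le_sum fun l _ => hb l _ hw α β).trans ?_
    rw [Finset.sum_const, nsmul_eq_mul, mul_comm]
    have h2 : (#J : ℝ) ≤ nn j := by exact_mod_cast hJd.trans hd
    linarith
  have h2 : ‖(mm j : ℝ)⁻¹ *
      ∑ i, ev (t i) (cut (max (a i) α) (min (b i) β) (∑ l ∈ K i, x l))‖ ≤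
      2 / mm j * (#I : ℝ) := by
    rw [norm_mul, norm_inv, Real.norm_natCast]
    have h3 : ‖∑ i, ev (t i) (cut (max (a i) α) (min (b i) β) (∑ l ∈ K i, x l))‖ ≤
        2 * (#I : ℝ) := by
      refine (norm_sum_le _ _).trans ?_
      have h4 : ∀ i ∈ (univ : Finset (Fin d)),
          ‖ev (t i) (cut (max (a i) α) (min (b i) β) (∑ l ∈ K i, x l))‖ ≤
            2 * (#(K i) : ℝ) := by
        intro i _
        exact sum_le hb _ _ (hwt i) _ _
      refine (Finset.sum_le_sum h4).trans ?_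
      rw [← Finset.mul_sum]
      have h5 : (∑ i, (#(K i) : ℝ)) ≤ #I := by exact_mod_cast hK
      linarith
    calc (mm j : ℝ)⁻¹ * ‖∑ i,
          ev (t i) (cut (max (a i) α) (min (b i) β) (∑ l ∈ K i, x l))‖
        ≤ (mm j : ℝ)⁻¹ * (2 * (#I : ℝ)) := mul_le_mul_of_nonneg_left h3 (by positivity)
      _ = 2 / mm j * (#I : ℝ) := by ring
  have h3 : 2 * (nn j : ℝ) ≤ 1 / mm j * (#I : ℝ) := by
    rw [one_div, inv_mul_eq_div, le_div_iff₀ hm]
    exact_mod_cast hj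
  calc ‖∑ l ∈ J, ev (.node j d a b t) (cut α β (x l)) + (mm j : ℝ)⁻¹ *
      ∑ i, ev (t i) (cut (max (a i) α) (min (b i) β) (∑ l ∈ K i, x l))‖
      ≤ 2 * (nn j : ℝ) + 2 / mm j * (#I : ℝ) := (norm_add_le _ _).trans (add_le_add h1 h2)
    _ ≤ 1 / mm j * (#I : ℝ) + 2 / mm j * (#I : ℝ) := by linarith
    _ = 3 / mm j * (#I : ℝ) := by ring

/-- the estimate for all trees -/
theorem tree_est (spl : S_SPL) (I : Finset ℕ) (t : Tr) : t.Wf → ∀ (x : ℕ → V) (A B : ℕ → ℕ),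
    Succ x A B → (∀ l, Bd 2 (x l)) → ∀ i, t.wt = i + 1 → 2 * nn i * mm i ≤ #I → ∀ α β : ℕ,
    ‖ev t (cut α β (∑ l ∈ I, x l))‖ ≤ 3 / mm i * (#I : ℝ) := by
  induction t with
  | base n =>
    intro _ x A B _ _ i hi
    exact absurd hi (by simp [Tr.wt])
  | node j d a b t _ =>
    intro hw x A B hs hb i hi hI α β
    have hji : j = i := by
      simpa [Tr.wt] using hi
    subst hji
    exact node_est spl hs hb I j d a b t hw hI α β
  | rs v t ih =>
    intro hw x A B hs hb i hi hI α β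
    rw [ev_rs, Rs_cut, map_sum]
    exact ih hw _ _ _ (hs.Rs fun _ => v) (fun l => (hb l).Rs v) i hi hI _ _

end Pool.Agent.Helper94.UG.L1

namespace Pool.Agent.Helper94.UG

open Finset Filter Topology

theorem t_L1 (spl : S_SPL) : S_L1 := by
  intro x A B hs hb I hI t ht i hi hn α β
  have hI' : (0 : ℝ) < #I := by exact_mod_cast hI
  rw [map_smul, map_smul, norm_smul, norm_inv, Real.norm_natCast]
  have h := L1.tree_est spl I t ht x A B hs hb i hi hn α β
  calc (#I : ℝ)⁻¹ * ‖ev t (cut α β (∑ l ∈ I, x l))‖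
      ≤ (#I : ℝ)⁻¹ * (3 / mm i * (#I : ℝ)) := mul_le_mul_of_nonneg_left h (by positivity)
    _ = 3 / mm i := by field_simp

end Pool.Agent.Helper94.UG
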