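import Pool.Agent.Helper94.UG.Stm1

set_option autoImplicit false

namespace Pool.Agent.Helper94.UG.REC

open Finset Filter Topology

/-- a coordinate of a sum of successive vectors -/
theorem base_sum {x : ℕ → V} {A B : ℕ → ℕ} (hx : Succ x A B) {C : ℝ} (hC : 0 ≤ C)
    (hb : ∀ l, Bd C (x l)) (n : ℕ) (α β : ℕ) (I : Finset ℕ) :
    ‖ev (.base n) (cut α β (∑ l ∈ I, x l))‖ ≤ C := by
  have e1 : ∀ l, ‖x l n‖ ≤ C := fun l => by
    have h := hb l (.base n) trivial n (n + 1)
    rw [ev_base, cut_apply, if_pos ⟨le_rfl, Nat.lt_succ_self n⟩] at h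
    exact h
  rw [ev_base, cut_apply]
  split_ifs with h
  · rw [Finset.sum_apply]
    by_cases h0 : ∃ l ∈ I, x l n ≠ 0
    · obtain ⟨l, hl, hln⟩ := h0
      rw [Finset.sum_eq_single_of_mem l hl]
      · exact e1 l
      · intro l' _ hll
        by_contra h2
        have h3 : A l ≤ n ∧ n < B l := by
          by_contra h4
          exact hln (hx.1 l n (by omega))
        have h5 : A l' ≤ n ∧ n < B l' := by
          by_contra h4
          exact h2 (hx.1 l' n (by omega))
        rcases lt_or_gt_of_ne hll with h6 | h6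
        · have := hx.2.2 _ _ h6
          omega
        · have := hx.2.2 _ _ h6
          omega
    · push Not at h0
      rw [Finset.sum_eq_zero h0, norm_zero]
      exact hC
  · rw [norm_zero]
    exact hC

end Pool.Agent.Helper94.UG.REC

namespace Pool.Agent.Helper94.UG

open Finset Filter Topology

theorem t_REC (st : S_STEP) : S_REC := by
  intro K C A₀ B₀ q hC hA hB hK hS hbd hP r
  induction r with
  | zero =>
    intro t hw x hx α β I
    rw [map_sum, map_sum]
    refine (norm_sum_le _ _).trans ?_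
    calc ∑ l ∈ I, ‖ev t (cut α β (x l))‖ ≤ ∑ l ∈ I, C :=
          Finset.sum_le_sum fun l _ => hbd x hx l t hw α β
      _ = #I * C := by rw [Finset.sum_const, nsmul_eq_mul]
      _ ≤ _ := by
        have h1 : (0 : ℝ) ≤ #I := Nat.cast_nonneg _
        rw [pow_zero, pow_zero, div_one, mul_one]
        nlinarith [mul_nonneg hB h1]
  | succ r ih =>
    have hD : (0 : ℝ) ≤ DD q := Nat.cast_nonneg _
    have hP1 : (1 : ℝ) ≤ (2 * DD q + 2) ^ r := one_le_pow₀ (by linarith)
    have hP2 : (1 : ℝ) ≤ (2 * DD q + 2) ^ (r + 1) := one_le_pow₀ (by linarith)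
    have hb' : 0 ≤ B₀ + C / 2 ^ (r + 1) := by positivity
    have hAC : 0 ≤ A₀ + C := by positivity
    intro t
    induction t with
    | base n =>
      intro hw x hx α β I
      have hI : (0 : ℝ) ≤ #I := Nat.cast_nonneg _
      obtain ⟨A, B, hAB⟩ := hS x hx
      refine (REC.base_sum hAB hC (hbd x hx) n α β I).trans ?_
      have h1 : C ≤ (A₀ + C) * (2 * DD q + 2) ^ (r + 1) := by
        calc C ≤ (A₀ + C) * 1 := by linarith
          _ ≤ _ := mul_le_mul_of_nonneg_left hP2 hAC
      linarith [mul_nonneg hb' hI]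
    | node j d a b t _ =>
      intro hw x hx α β I
      have hI : (0 : ℝ) ≤ #I := Nat.cast_nonneg _
      rcases le_or_gt q j with hj | hj
      · refine (hP x hx j d a b t hw hj α β I).trans ?_
        have h1 : A₀ ≤ (A₀ + C) * (2 * DD q + 2) ^ (r + 1) := by
          calc A₀ ≤ (A₀ + C) * 1 := by linarith
            _ ≤ _ := mul_le_mul_of_nonneg_left hP2 hAC
        have h2 : B₀ * (#I : ℝ) ≤ (B₀ + C / 2 ^ (r + 1)) * (#I : ℝ) :=
          mul_le_mul_of_nonneg_right (by have : 0 ≤ C / 2 ^ (r + 1) := by positivity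
                                         linarith) hI
        linarith
      · obtain ⟨A, B, hAB⟩ := hS x hx
        have h0 := st x A B hAB C ((A₀ + C) * (2 * DD q + 2) ^ r) (B₀ + C / 2 ^ r) hC
          (by positivity) (by positivity) (hbd x hx) q
          (fun t ht α β I => ih t ht x hx α β I) j d a b t hw hj α β I
        refine h0.trans ?_
        have hm := inv_mm_le j
        have hm0 : (0 : ℝ) ≤ (mm j : ℝ)⁻¹ := by positivity
        set P : ℝ := (2 * DD q + 2) ^ r with hPdef
        have hz : 0 ≤ (DD q : ℝ) * ((A₀ + C) * P) + (B₀ + C / 2 ^ r) * #I := by positivity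
        have h3 : (mm j : ℝ)⁻¹ * ((DD q : ℝ) * ((A₀ + C) * P) + (B₀ + C / 2 ^ r) * #I) ≤
            1 / 4 * ((DD q : ℝ) * ((A₀ + C) * P) + (B₀ + C / 2 ^ r) * #I) :=
          mul_le_mul_of_nonneg_right hm hz
        have h4 : (DD q : ℝ) * C ≤ (DD q : ℝ) * ((A₀ + C) * P) := by
          refine mul_le_mul_of_nonneg_left ?_ hD
          calc C ≤ (A₀ + C) * 1 := by linarith
            _ ≤ _ := mul_le_mul_of_nonneg_left hP1 hAC
        have h5 : (A₀ + C) * (2 * DD q + 2) ^ (r + 1) =
            2 * ((DD q : ℝ) * ((A₀ + C) * P)) + 2 * ((A₀ + C) * P) := by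
          rw [pow_succ]; ring
        have h6 : (B₀ + C / 2 ^ r) * (#I : ℝ) ≤ 2 * ((B₀ + C / 2 ^ (r + 1)) * #I) := by
          rw [pow_succ]
          have : C / (2 ^ r * 2) * 2 = C / 2 ^ r := by field_simp
          nlinarith [mul_nonneg hB hI]
        have h7 : 0 ≤ (A₀ + C) * P := by positivity
        have h8 : 0 ≤ (DD q : ℝ) * ((A₀ + C) * P) := by positivity
        have h9 : 0 ≤ (B₀ + C / 2 ^ (r + 1)) * (#I : ℝ) := by positivity
        rw [h5]
        linarith
    | rs v t iht =>
      intro hw x hx α β I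
      rw [ev_rs, Rs_cut, map_sum]
      exact iht hw (fun l => Rs v (x l)) (hK x hx v) _ _ _

end Pool.Agent.Helper94.UG
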