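import Pool.Agent.Helper94.UG.Base

set_option autoImplicit false

/-!
Statements of the lemmas on the level of functions on `ℕ` (first part), after the library modules
`Q73.GM`.
-/

namespace Pool.Agent.Helper94.UG

open Finset Filter Topology

noncomputable section

/-- evaluation is bounded by the sum of the coordinates; a tree of weight `i + 1` gains the
factor `1 / mm i`. -/
def S_ELS : Prop := ∀ (A B : ℕ) (x : V), OnLv A B x → ∀ t : Tr, t.Wf → ∀ a b : ℕ,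
  ‖ev t (cut a b x)‖ ≤ ∑ k ∈ Ico A B, ‖x k‖ ∧
    ∀ i, t.wt = i + 1 → ‖ev t (cut a b x)‖ ≤ (mm i : ℝ)⁻¹ * ∑ k ∈ Ico A B, ‖x k‖

/-- the splitting lemma -/
def S_SPL : Prop := ∀ (x : ℕ → V) (A B : ℕ → ℕ), Succ x A B →
  ∀ (j d : ℕ) (a b : Fin d → ℕ) (t : Fin d → Tr),
  (Tr.node j d a b t).Wf → ∀ (I : Finset ℕ) (α β : ℕ),
    ∃ (J : Finset ℕ) (K : Fin d → Finset ℕ), J ⊆ I ∧ J.card ≤ d ∧ (∀ i, K i ⊆ I) ∧
      (∑ i, (K i).card ≤ I.card) ∧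
      ev (.node j d a b t) (cut α β (∑ l ∈ I, x l)) =
        (∑ l ∈ J, ev (.node j d a b t) (cut α β (x l))) +
        (mm j : ℝ)⁻¹ *
          ∑ i, ev (t i) (cut (max (a i) α) (min (b i) β) (∑ l ∈ K i, x l))

/-- one step of the recursion -/
def S_STEP : Prop := ∀ (x : ℕ → V) (A B : ℕ → ℕ), Succ x A B → ∀ C a b : ℝ, 0 ≤ C → 0 ≤ a → 0 ≤ b →
  (∀ l, Bd C (x l)) → ∀ q : ℕ,
  (∀ t : Tr, t.Wf → ∀ (α β : ℕ) (I : Finset ℕ),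
    ‖ev t (cut α β (∑ l ∈ I, x l))‖ ≤ a + b * (#I : ℝ)) →
  ∀ (j d : ℕ) (a' b' : Fin d → ℕ) (t : Fin d → Tr),
  (Tr.node j d a' b' t).Wf → j < q → ∀ (α β : ℕ) (I : Finset ℕ),
    ‖ev (.node j d a' b' t) (cut α β (∑ l ∈ I, x l))‖ ≤
      DD q * C + (mm j : ℝ)⁻¹ * (DD q * a + b * #I)

/-- the recursive estimate, for a class `K` of sequences which is closed under restrictions -/
def S_REC : Prop := ∀ (K : (ℕ → V) → Prop) (C A₀ B₀ : ℝ) (q : ℕ), 0 ≤ C → 0 ≤ A₀ → 0 ≤ B₀ →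
  (∀ x, K x → ∀ S : Finset ℕ, K (fun l => Rs S (x l))) →
  (∀ x, K x → ∃ A B : ℕ → ℕ, Succ x A B) →
  (∀ x, K x → ∀ l, Bd C (x l)) →
  (∀ x, K x → ∀ (j d : ℕ) (a b : Fin d → ℕ) (t : Fin d → Tr),
    (Tr.node j d a b t).Wf → q ≤ j → ∀ (α β : ℕ) (I : Finset ℕ),
    ‖ev (.node j d a b t) (cut α β (∑ l ∈ I, x l))‖ ≤ A₀ + B₀ * (#I : ℝ)) →
  ∀ (r : ℕ) (t : Tr), t.Wf → ∀ x, K x → ∀ (α β : ℕ) (I : Finset ℕ),
    ‖ev t (cut α β (∑ l ∈ I, x l))‖ ≤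
      (A₀ + C) * (2 * DD q + 2) ^ r + (B₀ + C / 2 ^ r) * (#I : ℝ)

/-- trees with weights on sums of a rapidly increasing sequence -/
def S_NODE : Prop := ∀ (C : ℝ) (u : ℕ → V) (A B J : ℕ → ℕ), RIS C u A B J →
  ∀ t : Tr, t.Wf → ∀ i, t.wt = i + 1 → ∀ (α β : ℕ) (I : Finset ℕ),
    ‖ev t (cut α β (∑ l ∈ I, u l))‖ ≤ C + 2 + C / mm i * (#I : ℝ)

/-- averages of a rapidly increasing sequence, small weights -/
def S_AVL : Prop := ∀ (C : ℝ) (u : ℕ → V) (A B J : ℕ → ℕ), RIS C u A B J →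
  ∀ (q : ℕ) (I : Finset ℕ), nn q ≤ mm q * #I →
  ∀ t : Tr, t.Wf → ∀ i, t.wt = i + 1 → i < q → ∀ α β : ℕ,
    ‖ev t (cut α β (((mm q : ℝ) / (#I : ℝ)) • ∑ l ∈ I, u l))‖ ≤ 3 * C / mm i

/-- averages of a rapidly increasing sequence, all weights -/
def S_AVH : Prop := ∀ (C : ℝ) (u : ℕ → V) (A B J : ℕ → ℕ), RIS C u A B J →
  ∀ (q : ℕ) (I : Finset ℕ), nn q ≤ mm q * #I →
  ∀ t : Tr, t.Wf → ∀ i, t.wt = i + 1 → ∀ α β : ℕ,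
    ‖ev t (cut α β (((mm q : ℝ) / (#I : ℝ)) • ∑ l ∈ I, u l))‖ ≤
      3 * C * ((mm q : ℝ) ^ 2 / nn q) + C * (mm q / mm i)

/-- averages of rapidly increasing sequences satisfy `Av` -/
def S_AVG : Prop := ∀ (C : ℝ) (u : ℕ → V) (A B J : ℕ → ℕ), RIS C u A B J →
  ∀ (q : ℕ) (I : Finset ℕ), nn q ≤ mm q * #I →
    Av C q (((mm q : ℝ) / (#I : ℝ)) • ∑ l ∈ I, u l)

/-- the general estimate for dependent sequences -/
def S_DGEN : Prop := ∀ (C : ℝ) (p : ℕ) (X : ℕ → V) (q : ℕ → ℕ) (G : ℕ → Tr × ℕ × ℕ),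
  Dep C p X q G → ∀ I : Finset ℕ, I ⊆ range (nn p) → ∀ (S : Finset ℕ) (t : Tr), t.Wf →
  ∀ i : ℕ, t.wt = i + 1 → 1 ≤ i → ∀ (α β : ℕ) (E : ℝ), (∀ k ∈ I, q k = i → 4 * C ≤ E) → 0 ≤ E →
    ‖ev t (cut α β (∑ k ∈ I, Rs S (X k)))‖ ≤
      E + (#I : ℝ) * (3 * C / mm i) + 3 * C / nn p + 2 * C / mm (i - 1)

/-- special nodes on dependent sequences -/
def S_DSP : Prop := ∀ (C : ℝ) (p : ℕ) (X : ℕ → V) (q : ℕ → ℕ) (G : ℕ → Tr × ℕ × ℕ),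
  Dep C p X q G → ∀ I : Finset ℕ, I ⊆ range (nn p) → ∀ (S : Finset ℕ) (d : ℕ)
  (a b : Fin d → ℕ) (t : Fin d → Tr), (Tr.node p d a b t).Wf → ∀ α β : ℕ,
    ‖ev (.node p d a b t) (cut α β (∑ k ∈ I, Rs S (X k)))‖ ≤ 31 * C

/-- the main estimate for dependent sequences -/
def S_DBD : Prop := ∀ (C : ℝ) (p : ℕ) (X : ℕ → V) (q : ℕ → ℕ) (G : ℕ → Tr × ℕ × ℕ),
  Dep C p X q G → Bd (8 * C * (nn p / (mm p : ℝ) ^ 2)) (∑ k ∈ range (nn p), X k)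

/-- averages of successive vectors are good for small weights -/
def S_L1 : Prop := ∀ (x : ℕ → V) (A B : ℕ → ℕ), Succ x A B → (∀ l, Bd 2 (x l)) →
  ∀ I : Finset ℕ, 0 < #I → ∀ t : Tr, t.Wf → ∀ i, t.wt = i + 1 → 2 * nn i * mm i ≤ #I →
  ∀ α β : ℕ, ‖ev t (cut α β (((#I : ℝ))⁻¹ • ∑ l ∈ I, x l))‖ ≤ 3 / mm i

/-- the basis vectors form rapidly increasing sequences with constant `1` -/
def S_ERIS : Prop := ∀ k : ℕ → ℕ, StrictMono k →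
  RIS 1 (fun l => e (k l)) k (fun l => k l + 1) (fun l => l)

end

end Pool.Agent.Helper94.UG
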