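import Pool.Agent.Helper94.UG.Sp
import Pool.Agent.Helper94.UG.Stm1

set_option autoImplicit false

/-!
Rapidly increasing sequences are weakly null, after the library modules `Q73.GM.WN`, `Q73.GM.LO`.
-/

namespace Pool.Agent.Helper94.UG

open Finset Filter Topology

noncomputable section

/-- a sign -/
def sg (x : ℝ) : ℝ := if 0 ≤ x then 1 else -1

theorem sg_mul (x : ℝ) : sg x * x = |x| := by
  unfold sg
  split_ifs with h
  · rw [one_mul, abs_of_nonneg h]
  · rw [abs_of_neg (not_le.1 h)]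
    ring

theorem abs_sg (x : ℝ) : |sg x| ≤ 1 := by
  unfold sg
  split_ifs <;> simp

/-- the norm of averages of rapidly increasing sequences -/
theorem norm_avg_le (avg : S_AVG) {C : ℝ} {z : ℕ → GG} (h : Ris C z) (q : ℕ) :
    ‖((mm q : ℝ) / nn q) • ∑ l ∈ range (nn q), z l‖ ≤ 4 * C := by
  obtain ⟨A, B, J, h⟩ := h
  have hcard : nn q ≤ mm q * #(range (nn q)) := by
    rw [card_range]
    exact Nat.le_mul_of_pos_left _ (mm_pos q)
  have hbd := (avg C _ A B J h q (range (nn q)) hcard).bd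
  refine GG.norm_le (hbd.of_le ?_)
  rw [card_range, map_smul, map_sum]
  intro n
  rw [Pi.abs_apply, Pi.smul_apply, Pi.smul_apply, Finset.sum_apply, Finset.sum_apply, smul_eq_mul,
    smul_eq_mul, abs_mul, abs_of_nonneg (by positivity)]
  exact mul_le_mul_of_nonneg_left (abs_sum_le_sum_abs _ _) (by positivity)

/-- rapidly increasing sequences are weakly null, for functionals on an isometric subspace -/
theorem t_WN (avg : S_AVG) {F : Type} [NormedAddCommGroup F] [NormedSpace ℝ F] (j : F →ₗᵢ[ℝ] GG)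
    (C : ℝ) (z : ℕ → F) (h : Ris C (fun l => j (z l))) (φ : F →L[ℝ] ℝ) :
    Tendsto (fun l => φ (z l)) atTop (𝓝 0) := by
  by_contra hcon
  rw [Metric.tendsto_atTop] at hcon
  push Not at hcon
  obtain ⟨ε, hε, hfr⟩ := hcon
  have hfr' : ∃ᶠ l in atTop, ε ≤ |φ (z l)| := by
    rw [frequently_atTop]
    intro N
    obtain ⟨n, hn, hd⟩ := hfr N
    exact ⟨n, hn, by rwa [dist_zero_right, Real.norm_eq_abs] at hd⟩
  obtain ⟨ψ, hψ, hψε⟩ := extraction_of_frequently_atTop hfr'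
  have h1 : Ris C (fun l => sg (φ (z (ψ l))) • j (z (ψ l))) :=
    (h.sub hψ).phase fun l => abs_sg _
  obtain ⟨q, hq⟩ := exists_nat_gt (‖φ‖ * (4 * C) / ε)
  have hn := nn_pos' q
  have hm := mm_pos' q
  have h2 : ‖((mm q : ℝ) / nn q) • ∑ l ∈ range (nn q), sg (φ (z (ψ l))) • z (ψ l)‖ ≤ 4 * C := by
    rw [← j.norm_map, map_smul, map_sum]
    simp only [map_smul]
    exact norm_avg_le avg h1 q
  have h3 := (φ.le_opNorm (((mm q : ℝ) / nn q) • ∑ l ∈ range (nn q),
    sg (φ (z (ψ l))) • z (ψ l))).trans (mul_le_mul_of_nonneg_left h2 (norm_nonneg _))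
  rw [map_smul, map_sum] at h3
  have h4 : ∑ l ∈ range (nn q), φ (sg (φ (z (ψ l))) • z (ψ l)) =
      ∑ l ∈ range (nn q), |φ (z (ψ l))| := by
    refine Finset.sum_congr rfl fun l _ => ?_
    rw [map_smul, smul_eq_mul, sg_mul]
  have h5 : (nn q : ℝ) * ε ≤ ∑ l ∈ range (nn q), |φ (z (ψ l))| := by
    calc (nn q : ℝ) * ε = ∑ l ∈ range (nn q), ε := by rw [sum_const, card_range, nsmul_eq_mul]
      _ ≤ _ := Finset.sum_le_sum fun l _ => hψε l
  rw [h4, smul_eq_mul, Real.norm_of_nonneg (mul_nonneg (by positivity)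
    (le_trans (by positivity) h5))] at h3
  have h6 : (mm q : ℝ) * ε ≤ ‖φ‖ * (4 * C) := by
    refine le_trans ?_ h3
    calc (mm q : ℝ) * ε = mm q / nn q * (nn q * ε) := by field_simp
      _ ≤ _ := mul_le_mul_of_nonneg_left h5 (by positivity)
  rw [div_lt_iff₀ hε] at hq
  have h7 := lt_mm' q
  nlinarith

theorem norm_Rx_le_sum (els : S_ELS) (N : ℕ) (w : GG) :
    ‖Rx 0 N w‖ ≤ ∑ n ∈ Ico 0 N, ‖cx w n‖ := by
  refine GG.norm_le ?_
  intro t ht a b
  rw [cx_Rx, abs_cut]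
  refine (els 0 N _ (OnLv_cut 0 N |cx w|) t ht a b).1.trans ?_
  refine Finset.sum_le_sum fun k hk => ?_
  rw [cut_apply]
  split_ifs
  · rw [Pi.abs_apply, Real.norm_eq_abs, abs_abs, Real.norm_eq_abs]
  · rw [norm_zero]
    exact norm_nonneg _

/-- the first coordinates of the images tend to zero -/
theorem t_LO (els : S_ELS) (avg : S_AVG) {F : Type} [NormedAddCommGroup F] [NormedSpace ℝ F]
    (j : F →ₗᵢ[ℝ] GG) (C : ℝ) (z : ℕ → F) (hz : Ris C (fun l => j (z l))) (T : F →L[ℝ] GG)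
    (N : ℕ) : Tendsto (fun l => Rx 0 N (T (z l))) atTop (𝓝 0) := by
  have h1 : ∀ n, Tendsto (fun l => ‖cx (T (z l)) n‖) atTop (𝓝 0) := by
    intro n
    have e1 := (t_WN avg j C z hz ((coordL n).comp T)).norm
    rw [norm_zero] at e1
    exact e1
  rw [tendsto_zero_iff_norm_tendsto_zero]
  have h2 : Tendsto (fun l => ∑ n ∈ Ico 0 N, ‖cx (T (z l)) n‖) atTop (𝓝 0) := by
    have := tendsto_finsetSum (Ico 0 N) fun n _ => h1 n
    rwa [Finset.sum_const_zero] at this
  exact squeeze_zero (fun _ => norm_nonneg _) (fun l => norm_Rx_le_sum els N _) h2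

end

end Pool.Agent.Helper94.UG
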