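import Pool.Agent.Helper94.UG.TAIL
import Pool.Agent.Helper94.UG.WN

set_option autoImplicit false

/-!
Selection of a joint rapidly increasing sequence, after the library module `Q73.GM.SEL`.
-/

namespace Pool.Agent.Helper94.UG

open Finset Filter Topology

noncomputable section

/-- `[w s, w (s+1))` is a window for `y s` and `T (y s)` -/
structure Win (ρ : ℝ) (T : GG →L[ℝ] GG) (y : ℕ → GG) (A B w : ℕ → ℕ) : Prop where
  mono : StrictMono w
  loA : ∀ s, w s ≤ A s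
  hiB : ∀ s, B s ≤ w (s + 1)
  lo : ∀ s, ‖Rx 0 (w s) (T (y s))‖ ≤ ρ * (1 / 4) ^ s
  hi : ∀ s' s, s' < s → ‖T (y s') - Rx 0 (w s) (T (y s'))‖ ≤ ρ * (1 / 4) ^ s

namespace SEL

/-- the states of the recursion: the window, the lower bound for the weight, the previous vectors -/
def st (lf : ℕ → ℕ → ℕ → ℕ) (wf : ℕ → List GG → ℕ → ℕ → ℕ) (z : ℕ → ℕ → GG)
    (BB JJ : ℕ → ℕ → ℕ) : ℕ → ℕ × ℕ × List GG
  | 0 => (0, 0, [])
  | s + 1 =>
    (wf s (z (st lf wf z BB JJ s).1 (lf s (st lf wf z BB JJ s).1 (st lf wf z BB JJ s).2.1) ::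
        (st lf wf z BB JJ s).2.2)
      (BB (st lf wf z BB JJ s).1
        (lf s (st lf wf z BB JJ s).1 (st lf wf z BB JJ s).2.1)) (st lf wf z BB JJ s).1,
     JJ (st lf wf z BB JJ s).1 (lf s (st lf wf z BB JJ s).1 (st lf wf z BB JJ s).2.1 + 1),
     z (st lf wf z BB JJ s).1 (lf s (st lf wf z BB JJ s).1 (st lf wf z BB JJ s).2.1) ::
        (st lf wf z BB JJ s).2.2)

theorem eventually_list (P : GG → ℕ → Prop) (h : ∀ x, ∀ᶠ N in atTop, P x N) (L : List GG) :
    ∀ᶠ N in atTop, ∀ x ∈ L, P x N := by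
  induction L with
  | nil => simp
  | cons a L ih =>
    filter_upwards [h a, ih] with N h1 h2 x hx
    rcases List.mem_cons.1 hx with rfl | hx
    · exact h1
    · exact h2 x hx

end SEL

open SEL in
/-- selection of a joint rapidly increasing sequence. -/
theorem t_SEL (els : S_ELS) (avg : S_AVG) (ρ : ℝ) (T : GG →L[ℝ] GG) (C : ℝ) (z : ℕ → ℕ → GG)
    (Q : ℕ → ℕ → Prop) (hρ : 0 < ρ) (hz : ∀ N, Ris C (z N)) (hQ : ∀ N, ∃ᶠ l in atTop, Q N l) :
    ∃ w φ A B J : ℕ → ℕ, RIS C (fun s => |cx (z (w s) (φ s))|) A B J ∧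
      Win ρ T (fun s => z (w s) (φ s)) A B w ∧ ∀ s, Q (w s) (φ s) := by
  choose AA BB JJ hR using fun N => hz N
  have hl : ∀ s N j : ℕ, ∃ l, s ≤ l ∧ Q N l ∧ N ≤ AA N l ∧ j ≤ JJ N l ∧
      ‖Rx 0 N (T (z N l))‖ ≤ ρ * (1 / 4) ^ s := by
    intro s N j
    have h1 : ∀ᶠ l in atTop, s ≤ l := eventually_ge_atTop s
    have h2 : ∀ᶠ l in atTop, N ≤ AA N l :=
      (hR N).tend.eventually (eventually_ge_atTop _)
    have h3 : ∀ᶠ l in atTop, j ≤ JJ N l :=
      (hR N).mono.tendsto_atTop.eventually (eventually_ge_atTop _)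
    have h4 : ∀ᶠ l in atTop, ‖Rx 0 N (T (z N l))‖ ≤ ρ * (1 / 4) ^ s := by
      have h5 := (Metric.tendsto_nhds.1 (t_LO els avg LinearIsometry.id C (z N) (hz N) T N))
        (ρ * (1 / 4) ^ s) (by positivity)
      filter_upwards [h5] with l h6
      rw [dist_zero_right] at h6
      exact h6.le
    obtain ⟨l, h5, h6, h7, h8, h9⟩ := ((hQ N).and_eventually (h1.and (h2.and (h3.and h4)))).exists
    exact ⟨l, h6, h5, h7, h8, h9⟩
  choose lf hlf using hl
  have hW : ∀ (s : ℕ) (L : List GG) (a N : ℕ), ∃ w', N < w' ∧ a ≤ w' ∧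
      ∀ x ∈ L, ‖T x - Rx 0 w' (T x)‖ ≤ ρ * (1 / 4) ^ (s + 1) := by
    intro s L a N
    have h1 : ∀ᶠ w' in atTop, ∀ x ∈ L, ‖T x - Rx 0 w' (T x)‖ ≤ ρ * (1 / 4) ^ (s + 1) := by
      apply eventually_list (fun x w' => ‖T x - Rx 0 w' (T x)‖ ≤ ρ * (1 / 4) ^ (s + 1))
      intro x
      exact tail_small (T x) (by positivity)
    obtain ⟨w', h2, h3, h4⟩ :=
      (h1.and ((eventually_gt_atTop N).and (eventually_ge_atTop a))).exists
    exact ⟨w', h3, h4, h2⟩
  choose wf hwf using hW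
  let S : ℕ → ℕ × ℕ × List GG := st lf wf z BB JJ
  let w : ℕ → ℕ := fun s => (S s).1
  let φ : ℕ → ℕ := fun s => lf s (S s).1 (S s).2.1
  have hL : ∀ s, (S (s + 1)).2.2 = z (w s) (φ s) :: (S s).2.2 := fun _ => rfl
  have hj : ∀ s, (S (s + 1)).2.1 = JJ (w s) (φ s + 1) := fun _ => rfl
  have hw : ∀ s, w (s + 1) = wf s (S (s + 1)).2.2 (BB (w s) (φ s)) (w s) :=
    fun _ => rfl
  have hφ : ∀ s, s ≤ φ s ∧ Q (w s) (φ s) ∧ w s ≤ AA (w s) (φ s) ∧
      (S s).2.1 ≤ JJ (w s) (φ s) ∧ ‖Rx 0 (w s) (T (z (w s) (φ s)))‖ ≤ ρ * (1 / 4) ^ s :=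
    fun s => hlf s (S s).1 (S s).2.1
  have hw' : ∀ s, w s < w (s + 1) ∧ BB (w s) (φ s) ≤ w (s + 1) ∧
      ∀ x ∈ (S (s + 1)).2.2, ‖T x - Rx 0 (w (s + 1)) (T x)‖ ≤ ρ * (1 / 4) ^ (s + 1) := by
    intro s
    rw [hw s]
    exact hwf s (S (s + 1)).2.2 (BB (w s) (φ s)) (w s)
  have hwm : StrictMono w := strictMono_nat_of_lt_succ fun s => (hw' s).1
  have hmem : ∀ s s', s' < s → z (w s') (φ s') ∈ (S s).2.2 := by
    intro s
    induction s with
    | zero => intro s' h; omega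
    | succ s ih =>
      intro s' h
      rw [hL]
      rcases Nat.lt_succ_iff_lt_or_eq.1 h with h1 | rfl
      · exact List.mem_cons_of_mem _ (ih s' h1)
      · exact List.mem_cons_self
  have hBw : ∀ s, BB (w s) (φ s) ≤ w (s + 1) := fun s => (hw' s).2.1
  have hwA : ∀ s, w s ≤ AA (w s) (φ s) := fun s => (hφ s).2.2.1
  refine ⟨w, φ, fun s => AA (w s) (φ s), fun s => BB (w s) (φ s), fun s => JJ (w s) (φ s),
    ?_, ?_, fun s => (hφ s).2.1⟩
  · refine
      { hC := (hR 0).hC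
        succ := ⟨fun s => (hR (w s)).succ.1 (φ s), fun s => (hR (w s)).succ.2.1 (φ s), ?_⟩
        tend := ?_
        bd := fun s => (hR (w s)).bd (φ s)
        mono := ?_
        low := fun s t ht i hi hil α β => (hR (w s)).low (φ s) t ht i hi hil α β
        high := ?_ }
    · intro s s' h
      exact (hBw s).trans ((hwm.monotone (show s + 1 ≤ s' from h)).trans (hwA s'))
    · exact tendsto_atTop_mono (fun s => (hwm.id_le s).trans (hwA s)) tendsto_id
    · refine strictMono_nat_of_lt_succ fun s => ?_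
      have h1 := (hR (w s)).mono (Nat.lt_succ_self (φ s))
      have h2 := (hφ (s + 1)).2.2.2.1
      rw [hj] at h2
      exact lt_of_lt_of_le h1 h2
    · intro s t ht i hi hil α β
      have h2 := (hφ (s + 1)).2.2.2.1
      rw [hj] at h2
      refine ((hR (w s)).high (φ s) t ht i hi (h2.trans hil) α β).trans ?_
      exact pow_le_pow_of_le_one (by norm_num) (by norm_num) (hφ s).1
  · refine
      { mono := hwm
        loA := hwA
        hiB := hBw
        lo := fun s => (hφ s).2.2.2.2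
        hi := ?_ }
    intro s' s h
    obtain ⟨s, rfl⟩ : ∃ n, s = n + 1 := ⟨s - 1, by omega⟩
    exact (hw' s).2.2 _ (hmem (s + 1) s' h)

end

end Pool.Agent.Helper94.UG
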