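import Pool.Agent.Helper94.UG.Stm1

set_option autoImplicit false

/-!
The splitting lemma (port of the library module).
-/

namespace Pool.Agent.Helper94.UG

open Finset Filter Topology

noncomputable section

namespace SPL

/-- a cut with an empty common window is zero -/
theorem cut_zero_of_disj {A B : ℕ} {x : V} (hx : OnLv A B x) {a b α β : ℕ}
    (h : ¬ (max a A < min b B)) : cut (max a α) (min b β) x = 0 := by
  funext n
  rw [cut_apply]
  split_ifs with h6
  · refine hx n ?_
    by_contra h7
    push Not at h7
    apply h
    have h8 : a ≤ n := (le_max_left _ _).trans h6.1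
    have h9 : n < b := h6.2.trans_le (min_le_left _ _)
    exact (max_le h8 h7.1).trans_lt (lt_min h9 h7.2)
  · rfl

theorem splitting {x : ℕ → V} {A B : ℕ → ℕ} (hx : Succ x A B) {j d : ℕ} 
    {a b : Fin d → ℕ} {t : Fin d → Tr} (hw : (Tr.node j d a b t).Wf) (I : Finset ℕ) (α β : ℕ) :
    ∃ (J : Finset ℕ) (K : Fin d → Finset ℕ), J ⊆ I ∧ J.card ≤ d ∧ (∀ i, K i ⊆ I) ∧
      (∑ i, (K i).card ≤ I.card) ∧
      ev (.node j d a b t) (cut α β (∑ l ∈ I, x l)) =
        (∑ l ∈ J, ev (.node j d a b t) (cut α β (x l))) +
        (mm j : ℝ)⁻¹ *
          ∑ i, ev (t i) (cut (max (a i) α) (min (b i) β) (∑ l ∈ K i, x l)) := by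
  classical
  obtain ⟨hd, hwt, hab, hsucc, -⟩ := hw
  obtain ⟨hx1, hx2, hx3⟩ := hx
  -- the children met by the `l`-th vector
  let H : ℕ → Finset (Fin d) :=
    fun l => Finset.univ.filter fun i => max (a i) (A l) < min (b i) (B l)
  let J : Finset ℕ := I.filter fun l => 2 ≤ (H l).card
  let K : Fin d → Finset ℕ := fun i => I.filter fun l => (H l).card < 2 ∧ i ∈ H l
  refine ⟨J, K, Finset.filter_subset _ _, ?_, fun i => Finset.filter_subset _ _, ?_, ?_⟩
  · -- the number of split vectors
    have hne : ∀ l ∈ J, (H l).Nonempty := by
      intro l hl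
      have := (Finset.mem_filter.1 hl).2
      exact Finset.card_pos.1 (by omega)
    have hcard : J.card ≤ (Finset.range d).card := by
      refine Finset.card_le_card_of_injOn
        (fun l => if h : (H l).Nonempty then (((H l).min' h : Fin d) : ℕ) else 0) ?_ ?_
      · intro l hl
        have h1 := hne l hl
        simp only [dif_pos h1, Finset.coe_range, Set.mem_Iio]
        exact Fin.is_lt _
      · have key : ∀ l ∈ J, ∀ l' ∈ J, l < l' → ∀ (h : (H l).Nonempty) (h' : (H l').Nonempty),
            (H l).min' h ≠ (H l').min' h' := by
          intro l hl l' hl' hll' h h' heq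
          have h2 := (Finset.mem_filter.1 hl).2
          obtain ⟨i₁, hi₁, i₂, hi₂, hne12⟩ := Finset.one_lt_card.1 (by omega : 1 < (H l).card)
          -- an element of `H l` larger than the minimum
          obtain ⟨i', hi', hlt⟩ : ∃ i' ∈ H l, (H l).min' h < i' := by
            by_cases h3 : (H l).min' h < i₁
            · exact ⟨i₁, hi₁, h3⟩
            · refine ⟨i₂, hi₂, lt_of_le_of_ne (Finset.min'_le _ _ hi₂) ?_⟩
              intro h4
              apply hne12
              have h5 := Finset.min'_le _ _ hi₁
              rw [← h4]
              exact le_antisymm (not_lt.1 h3) h5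
          have h5 := (Finset.mem_filter.1 hi').2
          have h6 := (Finset.mem_filter.1 ((H l').min'_mem h')).2
          rw [← heq] at h6
          have h7 := hsucc _ _ hlt
          have h8 := hx3 l l' hll'
          have h9 : a i' < B l := (le_max_left _ _).trans_lt (h5.trans_le (min_le_right _ _))
          have h10 : A l' < b ((H l).min' h) :=
            (le_max_right _ _).trans_lt (h6.trans_le (min_le_left _ _))
          omega
        intro l hl l' hl' heq
        have h1 := hne l hl
        have h1' := hne l' hl'
        simp only [dif_pos h1, dif_pos h1'] at heq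
        have heq' := Fin.ext heq
        rcases lt_trichotomy l l' with h | h | h
        · exact absurd heq' (key l hl l' hl' h h1 h1')
        · exact h
        · exact absurd heq'.symm (key l' hl' l hl h h1' h1)
    simpa using hcard
  · -- the groups are disjoint
    rw [← Finset.card_biUnion]
    · exact Finset.card_le_card (Finset.biUnion_subset.2 fun i _ => Finset.filter_subset _ _)
    · intro i _ i' _ hii'
      rw [Function.onFun, Finset.disjoint_left]
      intro l hl hl'
      have h1 := (Finset.mem_filter.1 hl).2
      have h2 := (Finset.mem_filter.1 hl').2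
      have : 1 < (H l).card := Finset.one_lt_card.2 ⟨i, h1.2, i', h2.2, hii'⟩
      omega
  · -- the formula
    have hsplit : I = J ∪ I.filter (fun l => (H l).card < 2) := by
      ext l
      simp only [J, Finset.mem_union, Finset.mem_filter]
      constructor
      · intro h
        rcases lt_or_ge (H l).card 2 with h1 | h1
        · exact Or.inr ⟨h, h1⟩
        · exact Or.inl ⟨h, h1⟩
      · rintro (h | h) <;> exact h.1
    have hdisj : Disjoint J (I.filter (fun l => (H l).card < 2)) := by
      rw [Finset.disjoint_left]
      intro l hl hl'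
      have h1 := (Finset.mem_filter.1 hl).2
      have h2 := (Finset.mem_filter.1 hl').2
      omega
    rw [map_sum, map_sum, hsplit, Finset.sum_union hdisj]
    congr 1
    -- the vectors which are not split
    have h1 : ∀ l, ev (.node j d a b t) (cut α β (x l)) =
        (mm j : ℝ)⁻¹ * ∑ i, ev (t i) (cut (max (a i) α) (min (b i) β) (x l)) := by
      intro l
      rw [ev_node]
      simp only [cut_cut]
    simp only [h1]
    rw [← Finset.mul_sum, Finset.sum_comm]
    congr 1
    refine Finset.sum_congr rfl fun i _ => ?_
    rw [map_sum, map_sum]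
    symm
    have hsub : K i ⊆ I.filter (fun l => (H l).card < 2) := by
      intro l hl
      have := Finset.mem_filter.1 hl
      exact Finset.mem_filter.2 ⟨this.1, this.2.1⟩
    refine Finset.sum_subset hsub fun l hl hl' => ?_
    have h2 := Finset.mem_filter.1 hl
    have h3 : i ∉ H l := by
      intro h4
      exact hl' (Finset.mem_filter.2 ⟨h2.1, h2.2, h4⟩)
    have h4 : cut (max (a i) α) (min (b i) β) (x l) = 0 :=
      cut_zero_of_disj (hx1 l)
        fun h6 => h3 (Finset.mem_filter.2 ⟨Finset.mem_univ _, h6⟩)
    rw [h4, map_zero]

end SPL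

/-- the splitting lemma -/
theorem t_SPL : S_SPL := by
  intro x A B hx j d a b t hw I α β
  exact SPL.splitting hx hw I α β

end

end Pool.Agent.Helper94.UG
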