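import Pool.Agent.Helper94.UG.Stm1

set_option autoImplicit false

/-!
One step of the recursion (port of the library module).
-/

namespace Pool.Agent.Helper94.UG

open Finset

/-- one step of the recursion -/
theorem t_STEP (spl : S_SPL) : S_STEP := by
  intro x A B hx C a b hC ha hb hbd q hrec j d a' b' t hw hj α β I
  obtain ⟨J, K, hJ, hJd, hK, hKI, heq⟩ := spl x A B hx j d a' b' t hw I α β
  have hdD : (d : ℝ) ≤ DD q := by
    have h1 : d ≤ nn j := hw.1
    exact_mod_cast h1.trans (nn_le_DD hj)
  rw [heq]
  refine (norm_add_le _ _).trans ?_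
  refine add_le_add ?_ ?_
  · refine (norm_sum_le _ _).trans ?_
    calc ∑ l ∈ J, ‖ev (.node j d a' b' t) (cut α β (x l))‖ ≤ ∑ l ∈ J, C :=
          Finset.sum_le_sum fun l _ => hbd l _ hw α β
      _ = #J * C := by rw [Finset.sum_const, nsmul_eq_mul]
      _ ≤ DD q * C := by
          refine mul_le_mul_of_nonneg_right ?_ hC
          have : (#J : ℝ) ≤ d := by exact_mod_cast hJd
          exact this.trans hdD
  · rw [norm_mul, norm_inv, Real.norm_natCast]
    refine mul_le_mul_of_nonneg_left ?_ (by positivity)
    refine (norm_sum_le _ _).trans ?_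
    calc ∑ i, ‖ev (t i) (cut (max (a' i) α) (min (b' i) β) (∑ l ∈ K i, x l))‖
        ≤ ∑ i, (a + b * (#(K i) : ℝ)) := by
          refine Finset.sum_le_sum fun i _ => ?_
          exact hrec (t i) (hw.2.1 i) (max (a' i) α) (min (b' i) β) (K i)
      _ = d * a + b * ∑ i, (#(K i) : ℝ) := by
          rw [Finset.sum_add_distrib, Finset.sum_const, card_univ, Fintype.card_fin, nsmul_eq_mul,
            Finset.mul_sum]
      _ ≤ DD q * a + b * #I := by
          refine add_le_add (mul_le_mul_of_nonneg_right hdD ha) (mul_le_mul_of_nonneg_left ?_ hb)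
          exact_mod_cast hKI

end Pool.Agent.Helper94.UG
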