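import Pool.Agent.Helper94.UG.ELS
import Pool.Agent.Helper94.UG.SPL
import Pool.Agent.Helper94.UG.STEP
import Pool.Agent.Helper94.UG.REC
import Pool.Agent.Helper94.UG.NODE
import Pool.Agent.Helper94.UG.AVL
import Pool.Agent.Helper94.UG.AVH
import Pool.Agent.Helper94.UG.AVG
import Pool.Agent.Helper94.UG.L1
import Pool.Agent.Helper94.UG.ERIS
import Pool.Agent.Helper94.UG.DGEN
import Pool.Agent.Helper94.UG.DSP
import Pool.Agent.Helper94.UG.DBD
import Pool.Agent.Helper94.UG.SEL
import Pool.Agent.Helper94.UG.RISB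

set_option autoImplicit false

/-! The estimates of the first part, unconditionally. -/

namespace Pool.Agent.Helper94.UG

theorem hELS : S_ELS := t_ELS
theorem hSPL : S_SPL := t_SPL
theorem hSTEP : S_STEP := t_STEP hSPL
theorem hREC : S_REC := t_REC hSTEP
theorem hNODE : S_NODE := t_NODE
theorem hAVL : S_AVL := t_AVL hSTEP hREC hNODE
theorem hAVH : S_AVH := t_AVH hNODE
theorem hAVG : S_AVG := t_AVG hAVL hAVH
theorem hL1 : S_L1 := t_L1 hSPL
theorem hERIS : S_ERIS := t_ERIS hELS
theorem hDGEN : S_DGEN := t_DGEN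
theorem hDSP : S_DSP := t_DSP hDGEN
theorem hDBD : S_DBD := t_DBD hREC hDGEN hDSP

end Pool.Agent.Helper94.UG
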