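import Pool.Agent.Helper94.UG.Crit

set_option autoImplicit false

/-!
Tools for block sequences: rapidly increasing blocks with bounded coefficients, combinations of small
vectors, gliding humps, disjointness from windows.
-/

namespace Pool.Agent.Helper94.UG

open Finset Filter Topology

noncomputable section

/-- rapidly increasing sequences in block subspaces, with bounded coefficients -/
theorem risb (x : ℕ → GG) (a : ℕ → ℕ) (hx : ∀ n, ‖x n‖ = 1) (ha : StrictMono a)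
    (hs : ∀ n, OnLv (a n) (a (n + 1)) (cx (x n))) :
    ∃ (z : ℕ → GG) (N M : ℕ → ℕ) (c : ℕ → ℕ → ℝ), Ris 3 z ∧ (∀ l, ‖z l‖ = 1) ∧
      (∀ l, M l ≤ N (l + 1)) ∧ (∀ l, l ≤ N l) ∧ (∀ l, N l < M l) ∧
      (∀ l, z l = ∑ n ∈ Ico (N l) (M l), c l n • x n) ∧
      ∀ l, ∀ n ∈ Ico (N l) (M l), |c l n| ≤ 1 := by
  obtain ⟨z, N, M, c, h1, h2, h3, h4⟩ := t_RISB hELS hL1 x a hx ha hs
  refine ⟨z, N, M, c, h1, h2, h3, fun l => (h4 l).1, fun l => ?_, fun l => (h4 l).2.2,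
    fun l n hn => ?_⟩
  · rcases lt_or_eq_of_le (h4 l).2.1 with h5 | h5
    · exact h5
    · exfalso
      have h6 := h2 l
      rw [(h4 l).2.2, h5, Finset.Ico_self, Finset.sum_empty, norm_zero] at h6
      exact zero_ne_one h6
  · rw [mem_Ico] at hn
    have h5 := ELL.Rx_sum ha.monotone hs (c l) (p := N l) (p1 := n) (q1 := n + 1) (q := M l) hn.1
      (Nat.succ_le_of_lt hn.2)
    rw [← (h4 l).2.2, Nat.Ico_succ_singleton, Finset.sum_singleton] at h5
    have h6 := norm_Rx_le (a n) (a (n + 1)) (z l)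
    rw [h5, norm_smul, hx, mul_one, h2, Real.norm_eq_abs] at h6
    exact h6

/-- combinations of small vectors are small -/
theorem comb_small {F : Type} [NormedAddCommGroup F] [NormedSpace ℝ F] (y : ℕ → F) (K : ℝ)
    (hK : 0 ≤ K) (hy : ∀ n, ‖y n‖ ≤ K * (1 / 4) ^ n) (N M : ℕ → ℕ) (c : ℕ → ℕ → ℝ)
    (hN : ∀ l, l ≤ N l) (hc : ∀ l, ∀ n ∈ Ico (N l) (M l), |c l n| ≤ 1) :
    Tendsto (fun l => ∑ n ∈ Ico (N l) (M l), c l n • y n) atTop (𝓝 0) := by
  have h1 : ∀ l, ‖∑ n ∈ Ico (N l) (M l), c l n • y n‖ ≤ 2 * K * (1 / 2) ^ l := by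
    intro l
    refine (norm_sum_le _ _).trans ?_
    have h2 : ∀ n ∈ Ico (N l) (M l), ‖c l n • y n‖ ≤ K * (1 / 2) ^ l * (1 / 2) ^ n := by
      intro n hn
      rw [norm_smul, Real.norm_eq_abs]
      have h3 := hc l n hn
      rw [mem_Ico] at hn
      have h4 : l ≤ n := (hN l).trans hn.1
      calc |c l n| * ‖y n‖ ≤ 1 * (K * (1 / 4) ^ n) :=
            mul_le_mul h3 (hy n) (norm_nonneg _) zero_le_one
        _ = K * ((1 / 2) ^ n * (1 / 2) ^ n) := by rw [← mul_pow]; norm_num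
        _ ≤ K * ((1 / 2) ^ l * (1 / 2) ^ n) := by
            refine mul_le_mul_of_nonneg_left (mul_le_mul_of_nonneg_right ?_ (by positivity)) hK
            exact pow_le_pow_of_le_one (by norm_num) (by norm_num) h4
        _ = K * (1 / 2) ^ l * (1 / 2) ^ n := by ring
    refine (Finset.sum_le_sum h2).trans ?_
    rw [← Finset.mul_sum]
    have h3 := sum_half_le (Ico (N l) (M l))
    calc K * (1 / 2) ^ l * ∑ n ∈ Ico (N l) (M l), (1 / 2) ^ n ≤ K * (1 / 2) ^ l * 2 :=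
          mul_le_mul_of_nonneg_left h3 (by positivity)
      _ = 2 * K * (1 / 2) ^ l := by ring
  refine squeeze_zero_norm h1 ?_
  have h2 := (tendsto_pow_atTop_nhds_zero_of_lt_one (r := (1 / 2 : ℝ)) (by norm_num)
    (by norm_num)).const_mul (2 * K)
  rwa [mul_zero] at h2

/-- supports of combinations -/
theorem onLv_comb {κ : Kp} (x : ℕ → SS κ) (a : ℕ → ℕ) (ha : Monotone a)
    (hs : ∀ n, OnLv (a n) (a (n + 1)) (cx (x n))) (c : ℕ → ℝ) (N M : ℕ) :
    OnLv (a N) (a M) (cx (∑ n ∈ Ico N M, c n • x n)) := by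
  rw [map_sum]
  refine RISB.onLv_sum _ _ _ _ fun n hn => ?_
  obtain ⟨h1, h2⟩ := Finset.mem_Ico.1 hn
  intro k hk
  have h3 := ((hs n).mono (ha h1) (ha (Nat.succ_le_of_lt h2))) k hk
  rw [map_smul]
  show c n • cx (x n) k = 0
  rw [h3, smul_zero]

theorem onLv_smul {κ : Kp} {A B : ℕ} {x : SS κ} (h : OnLv A B (cx x)) (c : ℝ) :
    OnLv A B (cx (c • x)) := by
  intro n hn
  rw [map_smul, Pi.smul_apply, h n hn, smul_zero]

/-- windows along a subsequence -/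
theorem onLv_sub {x : V} {a φ : ℕ → ℕ} (ha : StrictMono a) (hφ : StrictMono φ) {l : ℕ}
    (h : OnLv (a (φ l)) (a (φ l + 1)) x) : OnLv (a (φ l)) (a (φ (l + 1))) x :=
  h.mono le_rfl (ha.monotone (hφ (Nat.lt_succ_self l)))

/-- disjointness of coordinates from windows -/
theorem coord_disj {κ : Kp} (x : ℕ → SS κ) (A B : ℕ → ℕ) (h : ∀ l, OnLv (A l) (B l) (cx (x l)))
    (hAB : ∀ l, A l ≤ B l) (hBA : ∀ l, B l ≤ A (l + 1)) (k m n : ℕ) (hmn : m ≠ n) :
    cx (x m) k = 0 ∨ cx (x n) k = 0 := by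
  have hA : Monotone A := monotone_nat_of_le_succ fun l => (hAB l).trans (hBA l)
  by_contra hcon
  push Not at hcon
  have h1 : A m ≤ k ∧ k < B m := by
    by_contra h2
    exact hcon.1 (h m k (by omega))
  have h2 : A n ≤ k ∧ k < B n := by
    by_contra h2
    exact hcon.2 (h n k (by omega))
  rcases lt_or_gt_of_ne hmn with h3 | h3
  · have h4 := (hBA m).trans (hA (show m + 1 ≤ n from h3))
    omega
  · have h4 := (hBA n).trans (hA (show n + 1 ≤ m from h3))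
    omega

/-- a gliding hump -/
theorem glide (u : ℕ → GG) (hu : ∀ N, Tendsto (fun l => Rx 0 N (u l)) atTop (𝓝 0))
    (P : ℕ → ℕ → Prop) (hP : ∀ n, ∀ᶠ k in atTop, P n k) (ε : ℕ → ℝ) (hε : ∀ n, 0 < ε n) :
    ∃ φ γ : ℕ → ℕ, StrictMono φ ∧ StrictMono γ ∧
      (∀ l, ‖u (φ l) - Rx (γ l) (γ (l + 1)) (u (φ l))‖ ≤ ε l) ∧ ∀ l, P l (φ l) := by
  have h1 : ∀ l N k0 : ℕ, ∃ k M : ℕ, k0 ≤ k ∧ N < M ∧ P l k ∧ ‖Rx 0 N (u k)‖ ≤ ε l / 2 ∧
      ‖u k - Rx 0 M (u k)‖ ≤ ε l / 2 := by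
    intro l N k0
    have h2 : ∀ᶠ k in atTop, ‖Rx 0 N (u k)‖ ≤ ε l / 2 := by
      have h3 := (Metric.tendsto_nhds.1 (hu N)) (ε l / 2) (by have := hε l; positivity)
      filter_upwards [h3] with k hk
      rw [dist_zero_right] at hk
      exact hk.le
    obtain ⟨k, hk1, hk2, hk3⟩ := ((hP l).and (h2.and (eventually_ge_atTop k0))).exists
    obtain ⟨M, hM1, hM2⟩ := ((tail_small (u k) (ε := ε l / 2) (by have := hε l; positivity)).and
      (eventually_gt_atTop N)).exists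
    exact ⟨k, M, hk3, hM2, hk1, hk2, hM1⟩
  choose kf Mf hk0 hNM hPk hlo hhi using h1
  obtain ⟨st, hst0, hst⟩ : ∃ st : ℕ → ℕ × ℕ, st 0 = (0, 0) ∧
      ∀ l, st (l + 1) = (Mf l (st l).1 (st l).2, kf l (st l).1 (st l).2 + 1) :=
    ⟨fun l => Nat.rec (0, 0) (fun l s => (Mf l s.1 s.2, kf l s.1 s.2 + 1)) l, rfl, fun _ => rfl⟩
  refine ⟨fun l => kf l (st l).1 (st l).2, fun l => (st l).1, ?_, ?_, ?_, fun l => hPk _ _ _⟩
  · refine strictMono_nat_of_lt_succ fun l => ?_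
    have h2 := hk0 (l + 1) (st (l + 1)).1 (st (l + 1)).2
    have h3 : (st (l + 1)).2 = kf l (st l).1 (st l).2 + 1 := by rw [hst]
    omega
  · refine strictMono_nat_of_lt_succ fun l => ?_
    have h3 : (st (l + 1)).1 = Mf l (st l).1 (st l).2 := by rw [hst]
    rw [h3]
    exact hNM _ _ _
  · intro l
    have h3 : (st (l + 1)).1 = Mf l (st l).1 (st l).2 := by rw [hst]
    show ‖u (kf l (st l).1 (st l).2) - Rx (st l).1 (st (l + 1)).1 (u (kf l (st l).1 (st l).2))‖ ≤ ε l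
    rw [h3]
    have h4 := hlo l (st l).1 (st l).2
    have h5 := hhi l (st l).1 (st l).2
    have h6 := hNM l (st l).1 (st l).2
    obtain ⟨v, hv⟩ : ∃ v, v = u (kf l (st l).1 (st l).2) := ⟨_, rfl⟩
    rw [← hv] at h4 h5 ⊢
    obtain ⟨M, hM⟩ : ∃ M, M = Mf l (st l).1 (st l).2 := ⟨_, rfl⟩
    rw [← hM] at h5 h6 ⊢
    have h7 : v - Rx (st l).1 M v = Rx 0 (st l).1 v + (v - Rx 0 M v) := by
      apply cx_injective
      rw [map_sub, map_add, map_sub, cx_Rx, cx_Rx, cx_Rx]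
      funext n
      rw [Pi.sub_apply, Pi.add_apply, Pi.sub_apply, cut_apply, cut_apply, cut_apply]
      by_cases h8 : n < (st l).1
      · rw [if_neg (by omega), if_pos ⟨Nat.zero_le _, h8⟩, if_pos ⟨Nat.zero_le _, h8.trans h6⟩]
        ring
      · by_cases h9 : n < M
        · rw [if_pos ⟨not_lt.1 h8, h9⟩, if_neg (by omega), if_pos ⟨Nat.zero_le _, h9⟩]
          ring
        · rw [if_neg (by omega), if_neg (by omega), if_neg (by omega)]
          ring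
    rw [h7]
    exact (norm_add_le _ _).trans (by linarith)

/-- normalisation -/
theorem norm_normalize {F : Type} [NormedAddCommGroup F] [NormedSpace ℝ F] {x : F} (h : 0 < ‖x‖) :
    ‖(‖x‖⁻¹ : ℝ) • x‖ = 1 := by
  rw [norm_smul, norm_inv, norm_norm, inv_mul_cancel₀ h.ne']

end

end Pool.Agent.Helper94.UG
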