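import Pool.Agent.Helper94.UG.All1

set_option autoImplicit false

/-!
The contradiction with special functionals, after the library module `TH313.HI.Op1`.
-/

namespace Pool.Agent.Helper94.UG

open Finset Filter Topology

noncomputable section

/-- the data for the contradiction with special functionals -/
structure CD (T : GG →L[ℝ] GG) (C δ : ℝ) (y : ℕ → GG) (A B J w : ℕ → ℕ) (f : ℕ → Tr) : Prop where
  ris : RIS C (fun s => |cx (y s)|) A B J
  win : Win 1 T y A B w
  wf : ∀ s, (f s).Wf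
  zero : ∀ (s : ℕ) (S : Finset ℕ), ev (f s) (cut (w s) (w (s + 1)) (Rs S |cx (y s)|)) = 0
  large : ∀ s, δ ≤ ev (f s) (cut (w s) (w (s + 1)) (cx (T (y s))))

namespace Contra

variable (w : ℕ → ℕ) (f : ℕ → Tr)

/-- the `k`-th functional with its window -/
def mk (q i : ℕ) : Tr × ℕ × ℕ :=
  (Tr.node q (nn q) (fun s : Fin (nn q) => w (i + s))
    (fun s => w (i + s + 1)) (fun s => f (i + s)), w i, w (i + nn q))

/-- the next weight -/
def qq (q₀ : ℕ) (L : List (Tr × ℕ × ℕ)) : ℕ := if L = [] then q₀ else sig L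

/-- the states of the recursion -/
def St (q₀ i₀ : ℕ) : ℕ → List (Tr × ℕ × ℕ) × ℕ
  | 0 => ([], i₀)
  | k + 1 => ((St q₀ i₀ k).1 ++ [mk w f (qq q₀ (St q₀ i₀ k).1) (St q₀ i₀ k).2],
      (St q₀ i₀ k).2 + nn (qq q₀ (St q₀ i₀ k).1))

/-- the weights -/
def qk (q₀ i₀ k : ℕ) : ℕ := qq q₀ (St w f q₀ i₀ k).1

/-- the first indices -/
def ik (q₀ i₀ k : ℕ) : ℕ := (St w f q₀ i₀ k).2

/-- the functionals -/
def Gk (q₀ i₀ k : ℕ) : Tr × ℕ × ℕ := mk w f (qk w f q₀ i₀ k) (ik w f q₀ i₀ k)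

theorem St_eq (q₀ i₀ k : ℕ) :
    (St w f q₀ i₀ k).1 = List.ofFn (fun i : Fin k => Gk w f q₀ i₀ i) := by
  induction k with
  | zero => simp [St]
  | succ k ih =>
    rw [List.ofFn_succ', List.concat_eq_append]
    rw [St]
    simp only [Fin.val_castSucc, Fin.val_last]
    rw [← ih]
    rfl

theorem qk_succ (q₀ i₀ k : ℕ) : qk w f q₀ i₀ (k + 1) =
    sig (List.ofFn fun i : Fin (k + 1) => Gk w f q₀ i₀ i) := by
  unfold qk qq
  rw [St_eq, if_neg]
  intro h
  have := congrArg List.length h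
  simp at this

theorem qk_zero (q₀ i₀ : ℕ) : qk w f q₀ i₀ 0 = q₀ := by
  unfold qk qq
  rw [St_eq, if_pos]
  simp

theorem ik_zero (q₀ i₀ : ℕ) : ik w f q₀ i₀ 0 = i₀ := rfl

theorem ik_succ (q₀ i₀ k : ℕ) :
    ik w f q₀ i₀ (k + 1) = ik w f q₀ i₀ k + nn (qk w f q₀ i₀ k) := rfl

theorem qk_even (q₀ i₀ k : ℕ) (h : q₀ % 4 = 2) : qk w f q₀ i₀ k % 2 = 0 := by
  cases k with
  | zero => rw [qk_zero]; omega
  | succ k =>
    rw [qk_succ]
    have := sig_mod (List.ofFn fun i : Fin (k + 1) => Gk w f q₀ i₀ i)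
    omega

theorem ik_strictMono (q₀ i₀ : ℕ) : StrictMono (ik w f q₀ i₀) :=
  strictMono_nat_of_lt_succ fun k => by
    rw [ik_succ]; have := nn_pos (qk w f q₀ i₀ k); omega

theorem wt_Gk (q₀ i₀ k : ℕ) : (Gk w f q₀ i₀ k).1.wt = qk w f q₀ i₀ k + 1 := rfl

theorem qk_strictMono (q₀ i₀ : ℕ) : StrictMono (qk w f q₀ i₀) := by
  refine strictMono_nat_of_lt_succ fun k => ?_
  rw [qk_succ]
  refine lt_of_lt_of_le ?_ (wsum_lt_sig _).le
  have h1 : (Gk w f q₀ i₀ k).1.wt ≤ wsum (List.ofFn fun i : Fin (k + 1) => Gk w f q₀ i₀ i) := by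
    unfold wsum
    apply List.single_le_sum
    · intro x _
      exact Nat.zero_le x
    · apply List.mem_map.2
      refine ⟨Gk w f q₀ i₀ k, ?_, rfl⟩
      rw [List.mem_ofFn]
      exact ⟨Fin.last k, by simp⟩
  rw [wt_Gk] at h1
  omega

variable {w f}

theorem mk_wf (hw : StrictMono w) (ht : ∀ i, (f i).Wf) {q : ℕ}
    (hq : q % 2 = 0) (i : ℕ) : (mk w f q i).1.Wf := by
  refine ⟨le_rfl, fun s => ht _, fun s => (hw (Nat.lt_succ_self _)).le,
    fun s s' hs => ?_, fun h => by omega⟩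
  have h1 : i + (s : ℕ) + 1 ≤ i + s' := by have : (s : ℕ) < s' := hs; omega
  exact hw.monotone h1

/-- evaluation of the functionals -/
theorem ev_mk (hw : StrictMono w) (q i : ℕ) (x : V) :
    ev (mk w f q i).1 (cut (mk w f q i).2.1 (mk w f q i).2.2 x) =
      (mm q : ℝ)⁻¹ * ∑ s ∈ Ico i (i + nn q), ev (f s) (cut (w s) (w (s + 1)) x) := by
  unfold mk
  rw [ev_node, Finset.sum_Ico_eq_sum_range, Nat.add_sub_cancel_left,
    ← Fin.sum_univ_eq_sum_range
      (fun s => ev (f (i + s)) (cut (w (i + s)) (w (i + s + 1)) x))]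
  congr 1
  refine Finset.sum_congr rfl fun s _ => ?_
  rw [cut_cut]
  have h1 : w i ≤ w (i + s) := hw.monotone (Nat.le_add_right i s)
  have h2 : w (i + s + 1) ≤ w (i + nn q) := hw.monotone (by have := s.2; omega)
  simp only
  rw [max_eq_left h1, min_eq_left h2]

end Contra

theorem mm_div_nn_le (q : ℕ) : (mm q : ℝ) / nn q ≤ 1 := by
  rw [div_le_one (nn_pos' q)]
  have h1 := mm_le_nn q
  have h2 : (mm q : ℝ) ≤ (mm q : ℝ) ^ 4 := le_self_pow₀ (by linarith [one_le_mm q]) (by norm_num)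
  linarith

/-- functionals are bounded by the norm -/
theorem abs_ev_le_norm (u : GG) (t : Tr) (ht : t.Wf) (a b : ℕ) :
    |ev t (cut a b (cx u))| ≤ ‖u‖ := (GG.bd u).of_abs t ht a b

open Contra in
theorem contra {T : GG →L[ℝ] GG} {C δ : ℝ} {y : ℕ → GG} {A B J w : ℕ → ℕ} {f : ℕ → Tr}
    (h : CD T C δ y A B J w f) (hδ : 0 < δ) : False := by
  classical
  have hC1 := h.ris.hC
  have hC : 0 ≤ C := by linarith
  have hw := h.win.mono
  -- the functionals
  obtain ⟨φ, hφ⟩ : ∃ φ : ℕ → V → ℝ, φ = fun i x => ev (f i) (cut (w i) (w (i + 1)) x) := ⟨_, rfl⟩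
  have hφ' : ∀ i x, φ i x = ev (f i) (cut (w i) (w (i + 1)) x) := fun i x => by rw [hφ]
  have hφsum : ∀ (i : ℕ) {ι : Type} (I : Finset ι) (g : ι → V),
      φ i (∑ j ∈ I, g j) = ∑ j ∈ I, φ i (g j) := by
    intro i ι I g
    rw [hφ', map_sum, map_sum]
    simp only [hφ']
  have hφsmul : ∀ (i : ℕ) (c : ℝ) (x : V), φ i (c • x) = c * φ i x := by
    intro i c x
    rw [hφ', map_smul, map_smul, smul_eq_mul, hφ']
  have hφn : ∀ (i : ℕ) (u : GG), |φ i (cx u)| ≤ ‖u‖ := fun i u => by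
    rw [hφ']
    exact abs_ev_le_norm u (f i) (h.wf i) _ _
  have hoff : ∀ i i', i ≠ i' → |φ i (cx (T (y i')))| ≤ (1 / 2) ^ i * (1 / 2) ^ i' := by
    intro i i' hne
    rcases lt_or_gt_of_ne hne with h1 | h1
    · -- `i < i'`
      have h2 : φ i (cx (T (y i'))) = φ i (cx (Rx 0 (w i') (T (y i')))) := by
        rw [hφ', hφ', cx_Rx, cut_cut, max_eq_left (Nat.zero_le _),
          min_eq_left (hw.monotone (show i + 1 ≤ i' from h1))]
      rw [h2]
      refine (hφn i _).trans ((h.win.lo i').trans ?_)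
      rw [one_mul]
      calc ((1 : ℝ) / 4) ^ i' = (1 / 2) ^ i' * (1 / 2) ^ i' := by
            rw [← mul_pow]; norm_num
        _ ≤ (1 / 2) ^ i * (1 / 2) ^ i' := by
            refine mul_le_mul_of_nonneg_right ?_ (by positivity)
            exact pow_le_pow_of_le_one (by norm_num) (by norm_num) h1.le
    · have h2 : φ i (cx (T (y i'))) = φ i (cx (T (y i') - Rx 0 (w i) (T (y i')))) := by
        rw [hφ', hφ', map_sub, cx_Rx]
        congr 1
        funext n
        rw [cut_apply, cut_apply, Pi.sub_apply, cut_apply]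
        split_ifs with h3 h4
        · omega
        · rw [sub_zero]
        · rfl
      rw [h2]
      refine (hφn i _).trans ((h.win.hi i' i h1).trans ?_)
      rw [one_mul]
      calc ((1 : ℝ) / 4) ^ i = (1 / 2) ^ i * (1 / 2) ^ i := by
            rw [← mul_pow]; norm_num
        _ ≤ (1 / 2) ^ i * (1 / 2) ^ i' := by
            refine mul_le_mul_of_nonneg_left ?_ (by positivity)
            exact pow_le_pow_of_le_one (by norm_num) (by norm_num) h1.le
  have hdiag : ∀ i, δ ≤ φ i (cx (T (y i))) := fun i => by rw [hφ']; exact h.large i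
  -- the special weight
  obtain ⟨N, hN⟩ := exists_nat_gt (8 / δ + 16 * C * ‖T‖ / δ)
  let p : ℕ := 2 * N + 1
  have hp : p % 2 = 1 := by show (2 * N + 1) % 2 = 1; omega
  have hNp : N ≤ p := by show N ≤ 2 * N + 1; omega
  have hpN : (N : ℝ) < mm p := lt_of_le_of_lt (by exact_mod_cast hNp) (lt_mm' p)
  have hnp := nn_pos' p
  have hmp := mm_pos' p
  let q₀ : ℕ := 4 * thr p + 2
  let q : ℕ → ℕ := qk w f q₀ 0
  let ii : ℕ → ℕ := ik w f q₀ 0
  let G : ℕ → Tr × ℕ × ℕ := Gk w f q₀ 0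
  have hq0 : q₀ % 4 = 2 := by show (4 * thr p + 2) % 4 = 2; omega
  have hqe : ∀ k, q k % 2 = 0 := fun k => qk_even w f q₀ 0 k hq0
  have hqm : StrictMono q := qk_strictMono w f q₀ 0
  have hqq : ∀ k, q₀ ≤ q k := fun k => by
    have h1 := hqm.monotone (Nat.zero_le k)
    have h2 : q 0 = q₀ := qk_zero w f q₀ 0
    rwa [h2] at h1
  have hii : StrictMono ii := ik_strictMono w f q₀ 0
  have hiis : ∀ k, ii (k + 1) = ii k + nn (q k) := fun k => ik_succ w f q₀ 0 k
  have hG : ∀ k, G k = mk w f (q k) (ii k) := fun _ => rfl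
  have hG1 : ∀ k, (G k).2.1 = w (ii k) := fun _ => rfl
  have hG2 : ∀ k, (G k).2.2 = w (ii (k + 1)) := fun k => by rw [hiis]; rfl
  have hwf : ∀ k, (G k).1.Wf := fun k => mk_wf hw h.wf (hqe k) (ii k)
  let x : ℕ → GG := fun k => ((mm (q k) : ℝ) / nn (q k)) • ∑ i ∈ Ico (ii k) (ii (k + 1)), y i
  let Xa : ℕ → V := fun k => ((mm (q k) : ℝ) / nn (q k)) • ∑ i ∈ Ico (ii k) (ii (k + 1)), |cx (y i)|
  have hcard : ∀ k, #(Ico (ii k) (ii (k + 1))) = nn (q k) := fun k => by
    rw [Nat.card_Ico, hiis]; omega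
  have hxX : ∀ k, |cx (x k)| ≤ Xa k := by
    intro k
    show |cx (((mm (q k) : ℝ) / nn (q k)) • ∑ i ∈ Ico (ii k) (ii (k + 1)), y i)| ≤
      ((mm (q k) : ℝ) / nn (q k)) • ∑ i ∈ Ico (ii k) (ii (k + 1)), |cx (y i)|
    rw [map_smul, map_sum]
    intro n
    rw [Pi.abs_apply, Pi.smul_apply, Pi.smul_apply, Finset.sum_apply, Finset.sum_apply, smul_eq_mul,
      smul_eq_mul, abs_mul, abs_of_nonneg (by positivity)]
    exact mul_le_mul_of_nonneg_left (abs_sum_le_sum_abs _ _) (by positivity)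
  -- values of the functionals on the averages
  have hevG : ∀ k z, ev (G k).1 (cut (G k).2.1 (G k).2.2 z) =
      (mm (q k) : ℝ)⁻¹ * ∑ i ∈ Ico (ii k) (ii (k + 1)), φ i z := by
    intro k z
    rw [hG, ev_mk hw, hiis]
    congr 1
    refine Finset.sum_congr rfl fun i _ => ?_
    rw [hφ']
  have hsupp : ∀ i, OnLv (w i) (w (i + 1)) |cx (y i)| := fun i =>
    (h.ris.succ.1 i).mono (h.win.loA i) (h.win.hiB i)
  have hφz : ∀ (S : Finset ℕ) i i', φ i (Rs S |cx (y i')|) = 0 := by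
    intro S i i'
    rw [hφ']
    by_cases hii' : i = i'
    · subst hii'
      exact h.zero i S
    · have h2 : cut (w i) (w (i + 1)) (Rs S |cx (y i')|) = 0 := by
        apply ((hsupp i').Rs S).cut_zero
        rcases lt_or_gt_of_ne hii' with h5 | h5
        · left
          exact hw.monotone (show i + 1 ≤ i' from h5)
        · right
          exact hw.monotone (show i' + 1 ≤ i from h5)
      rw [h2, map_zero]
  have hlevx : ∀ k, OnLv (w (ii k)) (w (ii (k + 1))) (Xa k) := by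
    intro k n hn
    show ((mm (q k) : ℝ) / nn (q k)) • (∑ i ∈ Ico (ii k) (ii (k + 1)), |cx (y i)|) n = 0
    rw [Finset.sum_apply, Finset.sum_eq_zero, smul_zero]
    intro i hi
    rw [mem_Ico] at hi
    exact ((hsupp i).mono (hw.monotone hi.1) (hw.monotone (show i + 1 ≤ ii (k + 1) from hi.2))) n hn
  -- the dependent sequence
  have hdep : Dep C p Xa q G := by
    refine ⟨hC1, hp, ?_, ?_, ?_, hwf, fun _ => rfl, ?_, ?_, fun k => qk_succ w f q₀ 0 k, ?_, ?_⟩
    · intro k
      rw [hG1, hG2]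
      exact hlevx k
    · intro k
      rw [hG1, hG2]
      exact (hw (hii (Nat.lt_succ_self k))).le
    · intro k k' hk
      rw [hG1, hG2]
      exact hw.monotone (hii.monotone (show k + 1 ≤ k' from hk))
    · show qk w f q₀ 0 0 % 4 = 2
      rw [qk_zero]
      exact hq0
    · show thr p ≤ qk w f q₀ 0 0
      rw [qk_zero]
      show thr p ≤ 4 * thr p + 2
      omega
    · intro k
      have h2 := hAVG C _ A B J h.ris (q k) (Ico (ii k) (ii (k + 1))) (by
        rw [hcard]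
        exact Nat.le_mul_of_pos_left _ (mm_pos _))
      rw [hcard] at h2
      exact h2
    · intro S k
      rw [hevG]
      have h2 : ∀ i ∈ Ico (ii k) (ii (k + 1)), φ i (Rs S (Xa k)) = 0 := by
        intro i _
        show φ i (Rs S (((mm (q k) : ℝ) / nn (q k)) • ∑ i ∈ Ico (ii k) (ii (k + 1)), |cx (y i)|)) = 0
        rw [map_smul, map_sum, hφsmul, hφsum, Finset.sum_eq_zero, mul_zero]
        intro i' _
        exact hφz S i i'
      rw [Finset.sum_eq_zero h2, mul_zero, norm_zero]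
      positivity
  have hbound := hDBD C p Xa q G hdep
  -- the norm of the image
  let X : GG := ∑ k ∈ range (nn p), x k
  have hX : ‖X‖ ≤ 8 * C * (nn p / (mm p : ℝ) ^ 2) := by
    apply GG.norm_le
    refine hbound.of_le ?_
    show |cx (∑ k ∈ range (nn p), x k)| ≤ ∑ k ∈ range (nn p), Xa k
    rw [map_sum]
    intro n
    rw [Pi.abs_apply, Finset.sum_apply, Finset.sum_apply]
    refine (abs_sum_le_sum_abs _ _).trans (Finset.sum_le_sum fun k _ => ?_)
    exact hxX k n
  have hTX : ‖T X‖ ≤ ‖T‖ * (8 * C * (nn p / (mm p : ℝ) ^ 2)) :=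
    (T.le_opNorm X).trans (mul_le_mul_of_nonneg_left hX (norm_nonneg _))
  -- the special functional
  let H : Tr := Tr.node p (nn p) (fun i => (G i).2.1) (fun i => (G i).2.2) (fun i => (G i).1)
  have hHwf : H.Wf := by
    refine ⟨le_rfl, fun i => hwf i, fun i => hdep.le i, fun i i' hi => hdep.suc _ _ hi,
      fun _ i => ?_⟩
    split_ifs with hi0
    · refine ⟨q 0, hdep.q0, hdep.q0', ?_⟩
      show (G (i : ℕ)).1.wt = q 0 + 1
      rw [hi0]
      rfl
    · obtain ⟨i', hi'⟩ : ∃ i', (i : ℕ) = i' + 1 := ⟨i - 1, by omega⟩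
      have h1 : hist (fun i : Fin (nn p) => (G i).2.1) (fun i : Fin (nn p) => (G i).2.2)
          (fun i : Fin (nn p) => (G i).1) i = List.ofFn fun s : Fin (i' + 1) => G s := by
        unfold hist
        have hil := i.2
        apply List.ext_getElem
        · rw [List.length_take, List.length_ofFn, List.length_ofFn]
          omega
        · intro n h2 h3
          rw [List.getElem_take, List.getElem_ofFn, List.getElem_ofFn]
      rw [hi'] at h1
      show (G (i : ℕ)).1.wt = _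
      rw [hi', h1, ← hdep.qs]
      rfl
  have hev : ev H (cut 0 (w (ii (nn p))) (cx (T X))) ≤ ‖T X‖ :=
    (le_abs_self _).trans (abs_ev_le_norm (T X) H hHwf _ _)
  -- the value
  have hval : ev H (cut 0 (w (ii (nn p))) (cx (T X))) = (mm p : ℝ)⁻¹ * ∑ k ∈ range (nn p),
      ((mm (q k) : ℝ)⁻¹ * ∑ i ∈ Ico (ii k) (ii (k + 1)), φ i (cx (T X))) := by
    show ev (Tr.node p (nn p) (fun i => (G i).2.1) (fun i => (G i).2.2) (fun i => (G i).1)) _ = _
    rw [ev_node, ← Fin.sum_univ_eq_sum_range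
      (fun k => (mm (q k) : ℝ)⁻¹ * ∑ i ∈ Ico (ii k) (ii (k + 1)), φ i (cx (T X)))]
    congr 1
    refine Finset.sum_congr rfl fun k _ => ?_
    rw [← hevG, cut_cut, max_eq_left (Nat.zero_le _)]
    have h1 : (G k).2.2 ≤ w (ii (nn p)) := by
      rw [hG2]
      exact hw.monotone (hii.monotone (show (k : ℕ) + 1 ≤ nn p from k.2))
    rw [min_eq_left h1]
  -- the off-diagonal part
  have hTXeq : ∀ i, φ i (cx (T X)) = ∑ k' ∈ range (nn p), ((mm (q k') : ℝ) / nn (q k')) *
      ∑ i' ∈ Ico (ii k') (ii (k' + 1)), φ i (cx (T (y i'))) := by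
    intro i
    show φ i (cx (T (∑ k ∈ range (nn p), x k))) = _
    rw [map_sum, map_sum, hφsum]
    refine Finset.sum_congr rfl fun k' _ => ?_
    show φ i (cx (T (((mm (q k') : ℝ) / nn (q k')) • ∑ i ∈ Ico (ii k') (ii (k' + 1)), y i))) = _
    rw [map_smul, map_smul, hφsmul, map_sum, map_sum, hφsum]
  have hofft : ∀ k < nn p, ∀ i ∈ Ico (ii k) (ii (k + 1)),
      |φ i (cx (T X)) - ((mm (q k) : ℝ) / nn (q k)) * φ i (cx (T (y i)))| ≤ 2 * (1 / 2) ^ i := by
    intro k hk i hi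
    have h1 : ((mm (q k) : ℝ) / nn (q k)) * φ i (cx (T (y i))) = ∑ k' ∈ range (nn p),
        ((mm (q k') : ℝ) / nn (q k')) * ∑ i' ∈ Ico (ii k') (ii (k' + 1)),
          (if i' = i then φ i (cx (T (y i))) else 0) := by
      rw [Finset.sum_eq_single_of_mem k (mem_range.2 hk)]
      · rw [Finset.sum_ite_eq' (Ico (ii k) (ii (k + 1))) i, if_pos hi]
      · intro k' _ hne
        rw [Finset.sum_eq_zero, mul_zero]
        intro i' hi'
        rw [if_neg]
        rintro rfl
        rw [mem_Ico] at hi hi'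
        rcases lt_or_gt_of_ne hne with h5 | h5
        · have := hii.monotone (show k' + 1 ≤ k from h5)
          omega
        · have := hii.monotone (show k + 1 ≤ k' from h5)
          omega
    rw [hTXeq, h1, ← Finset.sum_sub_distrib]
    have h2 : ∀ k' ∈ range (nn p), |((mm (q k') : ℝ) / nn (q k')) *
        ∑ i' ∈ Ico (ii k') (ii (k' + 1)), φ i (cx (T (y i'))) -
        ((mm (q k') : ℝ) / nn (q k')) * ∑ i' ∈ Ico (ii k') (ii (k' + 1)),
          (if i' = i then φ i (cx (T (y i))) else 0)| ≤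
        ∑ i' ∈ Ico (ii k') (ii (k' + 1)), (1 / 2) ^ i * (1 / 2) ^ i' := by
      intro k' _
      rw [← mul_sub, ← Finset.sum_sub_distrib, abs_mul]
      have h3 := mm_div_nn_le (q k')
      have h4 : (0 : ℝ) ≤ (mm (q k') : ℝ) / nn (q k') := by positivity
      rw [abs_of_nonneg h4]
      refine (mul_le_of_le_one_left (abs_nonneg _) h3).trans ?_
      refine (abs_sum_le_sum_abs _ _).trans (Finset.sum_le_sum fun i' _ => ?_)
      split_ifs with h5
      · rw [h5, sub_self, abs_zero]; positivity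
      · rw [sub_zero]; exact hoff i i' (Ne.symm h5)
    refine (abs_sum_le_sum_abs _ _).trans ((Finset.sum_le_sum h2).trans ?_)
    have h3 : ∀ n, ∑ k' ∈ range n, ∑ i' ∈ Ico (ii k') (ii (k' + 1)), ((1 : ℝ) / 2) ^ i * (1 / 2) ^ i' =
        ∑ i' ∈ Ico (ii 0) (ii n), (1 / 2) ^ i * (1 / 2) ^ i' := by
      intro n
      induction n with
      | zero => simp
      | succ n ih =>
        rw [Finset.sum_range_succ, ih, Finset.sum_Ico_consecutive _ (hii.monotone (Nat.zero_le n))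
          (hii.monotone (Nat.le_succ n))]
    rw [h3, ← Finset.mul_sum]
    have h4 := sum_half_le (Ico (ii 0) (ii (nn p)))
    have h5 : (0 : ℝ) ≤ (1 / 2) ^ i := by positivity
    nlinarith
  -- each summand is large
  have hterm : ∀ k < nn p, δ / 2 ≤ (mm (q k) : ℝ)⁻¹ * ∑ i ∈ Ico (ii k) (ii (k + 1)), φ i (cx (T X)) := by
    intro k hk
    have hmq := mm_pos' (q k)
    rw [le_inv_mul_iff₀ hmq]
    have h1 : ∀ i ∈ Ico (ii k) (ii (k + 1)),
        ((mm (q k) : ℝ) / nn (q k)) * δ - 2 * (1 / 2) ^ i ≤ φ i (cx (T X)) := by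
      intro i hi
      have h2 := (abs_le.1 (hofft k hk i hi)).1
      have h3 : ((mm (q k) : ℝ) / nn (q k)) * δ ≤ ((mm (q k) : ℝ) / nn (q k)) * φ i (cx (T (y i))) :=
        mul_le_mul_of_nonneg_left (hdiag i) (by positivity)
      linarith
    have h2 := Finset.sum_le_sum h1
    rw [Finset.sum_sub_distrib, Finset.sum_const, hcard, nsmul_eq_mul, ← Finset.mul_sum] at h2
    have h3 := sum_half_le (Ico (ii k) (ii (k + 1)))
    have h4 : (nn (q k) : ℝ) * ((mm (q k) : ℝ) / nn (q k) * δ) = mm (q k) * δ := by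
      have := nn_pos' (q k)
      field_simp
    rw [h4] at h2
    have h5 : (N : ℝ) ≤ mm (q k) := by
      have h6 : thr p ≤ q k := by
        have := hqq k
        have h7 : thr p ≤ q₀ := by show thr p ≤ 4 * thr p + 2; omega
        omega
      have h7 : p ≤ thr p := by unfold thr; omega
      have h8 := lt_mm (q k)
      exact_mod_cast (hNp.trans (h7.trans h6)).trans h8.le
    have h6 : 8 / δ ≤ N := by
      have : (0 : ℝ) ≤ 16 * C * ‖T‖ / δ := by positivity
      linarith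
    rw [div_le_iff₀ hδ] at h6
    nlinarith
  -- the lower estimate
  have hlow : (nn p : ℝ) * (δ / 2) ≤ mm p * ‖T X‖ := by
    rw [hval, inv_mul_le_iff₀ hmp] at hev
    refine le_trans ?_ hev
    calc (nn p : ℝ) * (δ / 2) = ∑ k ∈ range (nn p), δ / 2 := by
          rw [sum_const, card_range, nsmul_eq_mul]
      _ ≤ _ := Finset.sum_le_sum fun k hk => hterm k (mem_range.1 hk)
  have h1 : (nn p : ℝ) * (δ / 2) ≤ nn p * (8 * C * ‖T‖ / mm p) := by
    refine hlow.trans ((mul_le_mul_of_nonneg_left hTX hmp.le).trans (le_of_eq ?_))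
    field_simp
  have h2 := le_of_mul_le_mul_left h1 hnp
  rw [le_div_iff₀ hmp] at h2
  have h3 : 16 * C * ‖T‖ / δ < mm p := by
    have : 0 < 8 / δ := by positivity
    linarith
  rw [div_lt_iff₀ hδ] at h3
  linarith

end

end Pool.Agent.Helper94.UG
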