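import Mathlib

set_option autoImplicit false

/-!
Disjointly strictly singular and disjointly non-singular operators.
-/

namespace Pool.Agent.Helper94.UG

open Filter Topology

noncomputable section

section

variable {E Y : Type} [NormedAddCommGroup E] [NormedSpace ℝ E] [NormedAddCommGroup Y]
  [NormedSpace ℝ Y]

/-- a disjoint sequence -/
def Disj [Lattice E] (x : ℕ → E) : Prop := ∀ m n, m ≠ n → |x m| ⊓ |x n| = 0

/-- the closed linear span of a sequence -/
def clspan (x : ℕ → E) : Submodule ℝ E := (Submodule.span ℝ (Set.range x)).topologicalClosure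

/-- the restriction of `T` to the subspace `M` is an isomorphism onto its image -/
def IsoOn (T : E →L[ℝ] Y) (M : Submodule ℝ E) : Prop := ∃ c > 0, ∀ v ∈ M, c * ‖v‖ ≤ ‖T v‖

/-- the restriction of `T` to the subspace `M` is strictly singular -/
def SSOn (T : E →L[ℝ] Y) (M : Submodule ℝ E) : Prop :=
  ∀ N : Submodule ℝ E, N ≤ M → IsClosed (N : Set E) → ¬ FiniteDimensional ℝ N → ¬ IsoOn T N

/-- disjointly strictly singular operators -/
def DSS (E Y : Type) [NormedAddCommGroup E] [NormedSpace ℝ E] [Lattice E] [NormedAddCommGroup Y]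
    [NormedSpace ℝ Y] : Set (E →L[ℝ] Y) :=
  {T | ¬ ∃ x : ℕ → E, (∀ n, x n ≠ 0) ∧ Disj x ∧ IsoOn T (clspan x)}

/-- disjointly non-singular operators -/
def DNS (E Y : Type) [NormedAddCommGroup E] [NormedSpace ℝ E] [Lattice E] [NormedAddCommGroup Y]
    [NormedSpace ℝ Y] : Set (E →L[ℝ] Y) :=
  {T | ¬ ∃ x : ℕ → E, (∀ n, x n ≠ 0) ∧ Disj x ∧ SSOn T (clspan x)}

/-- the perturbation class of the disjointly non-singular operators -/
def PDNS (E Y : Type) [NormedAddCommGroup E] [NormedSpace ℝ E] [Lattice E] [NormedAddCommGroup Y]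
    [NormedSpace ℝ Y] : Set (E →L[ℝ] Y) :=
  {K | ∀ T ∈ DNS E Y, T + K ∈ DNS E Y}

/-- order continuity: every decreasing net with infimum `0` converges to `0` in norm -/
def OrdCont (E : Type) [NormedAddCommGroup E] [Lattice E] : Prop :=
  ∀ (ι : Type) [Preorder ι] [IsDirectedOrder ι] [Nonempty ι] (x : ι → E), Antitone x →
    IsGLB (Set.range x) 0 → Tendsto x atTop (𝓝 0)

end

end

end Pool.Agent.Helper94.UG
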