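import Pool.Agent.Helper94.UG.EB
import Pool.Agent.Helper94.UG.DN

set_option autoImplicit false

/-!
Criteria for disjointly non-singular operators on `SS κ × SS κ'`.
-/

namespace Pool.Agent.Helper94.UG

open Finset Filter Topology

noncomputable section

instance (κ κ' : Kp) : HasSolidNorm (SS κ × SS κ') := prod_solid _ _

theorem OC.ordCont {E : Type} [NormedAddCommGroup E] [Lattice E] [HasSolidNorm E]
    [IsOrderedAddMonoid E] (h : OC E) : OrdCont E := by
  intro ι _ _ _ x hx hglb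
  rw [Metric.tendsto_nhds]
  intro ε hε
  obtain ⟨_, ⟨i, rfl⟩, hi⟩ := h (Set.range x) (Set.range_nonempty x) (by
    rintro _ ⟨i, rfl⟩ _ ⟨j, rfl⟩
    obtain ⟨k, hik, hjk⟩ := exists_ge_ge i j
    exact ⟨x k, ⟨k, rfl⟩, hx hik, hx hjk⟩) hglb ε hε
  filter_upwards [eventually_ge_atTop i] with j hj
  rw [dist_zero_right]
  refine lt_of_le_of_lt ?_ hi
  apply HasSolidNorm.solid
  have h0 : 0 ≤ x j := hglb.1 ⟨j, rfl⟩
  rw [abs_of_nonneg h0, abs_of_nonneg (h0.trans (hx hj))]
  exact hx hj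

section

variable {κ κ' : Kp}

/-- the coordinates -/
def co (i : ℕ ⊕ ℕ) : SS κ × SS κ' →L[ℝ] ℝ :=
  Sum.elim (fun n => (coordL n).comp (ContinuousLinearMap.fst ℝ (SS κ) (SS κ')))
    (fun n => (coordL n).comp (ContinuousLinearMap.snd ℝ (SS κ) (SS κ'))) i

theorem co_inl (n : ℕ) (x : SS κ × SS κ') : co (Sum.inl n) x = cx x.1 n := rfl

theorem co_inr (n : ℕ) (x : SS κ × SS κ') : co (Sum.inr n) x = cx x.2 n := rfl

theorem co_norm {x y : SS κ × SS κ'} (h : ∀ i, |co i x| ≤ |co i y|) : ‖x‖ ≤ ‖y‖ := by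
  rw [Prod.norm_def, Prod.norm_def]
  exact max_le_max (SS.norm_mono fun n => h (Sum.inl n)) (SS.norm_mono fun n => h (Sum.inr n))

theorem co_ext {x y : SS κ × SS κ'} (h : ∀ i, co i x = co i y) : x = y :=
  Prod.ext (cx_injective (funext fun n => h (Sum.inl n)))
    (cx_injective (funext fun n => h (Sum.inr n)))

theorem inf_eq_zero_iff {κ : Kp} (x y : SS κ) :
    |x| ⊓ |y| = 0 ↔ ∀ n, cx x n = 0 ∨ cx y n = 0 := by
  constructor
  · intro h n
    have h1 := congrArg (fun z => cx z n) h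
    simp only [cx_inf, cx_abs, map_zero, Pi.zero_apply, Pi.inf_apply, Pi.abs_apply] at h1
    rcases min_choice |cx x n| |cx y n| with h2 | h2
    · left
      exact abs_eq_zero.1 (h2.symm.trans h1)
    · right
      exact abs_eq_zero.1 (h2.symm.trans h1)
  · intro h
    apply cx_injective
    rw [cx_inf, cx_abs, cx_abs, map_zero]
    funext n
    rw [Pi.inf_apply, Pi.abs_apply, Pi.abs_apply, Pi.zero_apply]
    rcases h n with h1 | h1
    · rw [h1, abs_zero]
      exact min_eq_left (abs_nonneg _)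
    · rw [h1, abs_zero]
      exact min_eq_right (abs_nonneg _)

theorem disj_iff (x : ℕ → SS κ × SS κ') :
    Disj x ↔ ∀ (i : ℕ ⊕ ℕ) (m n : ℕ), m ≠ n → co i (x m) = 0 ∨ co i (x n) = 0 := by
  have key : ∀ m n, |x m| ⊓ |x n| = 0 ↔
      (|(x m).1| ⊓ |(x n).1| = 0 ∧ |(x m).2| ⊓ |(x n).2| = 0) := fun m n => Prod.ext_iff
  constructor
  · intro h i m n hmn
    obtain ⟨h1, h2⟩ := (key m n).1 (h m n hmn)
    rcases i with i | i
    · exact (inf_eq_zero_iff _ _).1 h1 i
    · exact (inf_eq_zero_iff _ _).1 h2 i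
  · intro h m n hmn
    refine (key m n).2 ⟨(inf_eq_zero_iff _ _).2 fun i => h (Sum.inl i) m n hmn,
      (inf_eq_zero_iff _ _).2 fun i => h (Sum.inr i) m n hmn⟩

/-- coordinates of finite combinations of disjoint vectors -/
theorem co_sum {x : ℕ → SS κ × SS κ'} (h : Disj x) (c : ℕ →₀ ℝ) (i : ℕ ⊕ ℕ) (m : ℕ)
    (hm : co i (x m) ≠ 0) : co i (c.sum fun n a => a • x n) = c m * co i (x m) := by
  rw [Finsupp.sum, map_sum]
  rw [Finset.sum_eq_single m]
  · rw [map_smul, smul_eq_mul]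
  · intro n _ hn
    have h1 := (disj_iff x).1 h i n m hn
    rw [map_smul, h1.resolve_right hm, smul_zero]
  · intro hmc
    rw [Finsupp.notMem_support_iff.1 hmc, zero_smul, map_zero]

/-- **Criterion (i).** -/
theorem not_DNS {Y : Type} [NormedAddCommGroup Y] [NormedSpace ℝ Y] (T : SS κ × SS κ' →L[ℝ] Y)
    (w : ℕ → SS κ × SS κ') (hw : Disj w) (c0 : ℝ) (hc0 : 0 < c0) (hn : ∀ n, c0 ≤ ‖w n‖)
    (hT : Tendsto (fun n => T (w n)) atTop (𝓝 0)) : T ∉ DNS (SS κ × SS κ') Y := by
  -- pass to a subsequence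
  have h1 : ∀ n : ℕ, ∃ᶠ k in atTop, ‖T (w k)‖ ≤ (1 / 4) ^ n := by
    intro n
    apply Eventually.frequently
    have h2 := (Metric.tendsto_nhds.1 hT) ((1 / 4) ^ n) (by positivity)
    filter_upwards [h2] with k hk
    rw [dist_zero_right] at hk
    exact hk.le
  obtain ⟨φ, hφ, hφT⟩ := extraction_forall_of_frequently h1
  obtain ⟨x, hx⟩ : ∃ x : ℕ → SS κ × SS κ', x = fun n => w (φ n) := ⟨_, rfl⟩
  have hxd : Disj x := by
    rw [hx]
    exact fun m n hmn => hw _ _ (fun h => hmn (hφ.injective h))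
  have hxn : ∀ n, c0 ≤ ‖x n‖ := fun n => by rw [hx]; exact hn _
  have hxT : ∀ n, ‖T (x n)‖ ≤ (1 / 4) ^ n := fun n => by rw [hx]; exact hφT n
  have hx0 : ∀ n, x n ≠ 0 := by
    intro n h
    have := hxn n
    rw [h, norm_zero] at this
    linarith
  have hcoord : ∀ n, ∃ i, co i (x n) ≠ 0 := by
    intro n
    by_contra hcon
    push Not at hcon
    exact hx0 n (co_ext fun i => by rw [hcon i, map_zero])
  choose im him using hcoord
  intro hDNS
  refine hDNS ⟨x, hx0, hxd, ?_⟩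
  -- the key estimate on the closed span
  have key : ∀ (m0 : ℕ) (v : SS κ × SS κ'), v ∈ clspan x →
      ‖T v‖ ≤ ∑ n ∈ range m0, |co (im n) v / co (im n) (x n)| +
        2 / c0 * (1 / 2) ^ m0 * ‖v‖ := by
    intro m0 v hv
    have hcl : IsClosed {v : SS κ × SS κ' | ‖T v‖ ≤
        ∑ n ∈ range m0, |co (im n) v / co (im n) (x n)| + 2 / c0 * (1 / 2) ^ m0 * ‖v‖} := by
      refine isClosed_le T.continuous.norm (Continuous.add ?_ ?_)
      · exact continuous_finsetSum _ fun n _ => (((co (im n)).continuous).div_const _).abs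
      · exact continuous_const.mul continuous_norm
    refine closure_minimal ?_ hcl hv
    intro u hu
    obtain ⟨c, hc⟩ := Finsupp.mem_span_range_iff_exists_finsupp.1 hu
    have hcm : ∀ m, co (im m) u / co (im m) (x m) = c m := by
      intro m
      rw [← hc, co_sum hxd c (im m) m (him m), mul_div_assoc, div_self (him m), mul_one]
    have hnm : ∀ m, |c m| ≤ ‖u‖ / c0 := by
      intro m
      rw [le_div_iff₀ hc0]
      have h2 : ‖c m • x m‖ ≤ ‖u‖ := by
        refine co_norm fun i => ?_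
        by_cases h3 : co i (x m) = 0
        · rw [map_smul, h3, smul_zero, abs_zero]
          exact abs_nonneg _
        · rw [← hc, co_sum hxd c i m h3, map_smul, smul_eq_mul]
      rw [norm_smul] at h2
      exact (mul_le_mul_of_nonneg_left (hxn m) (abs_nonneg _)).trans h2
    show ‖T u‖ ≤ ∑ n ∈ range m0, |co (im n) u / co (im n) (x n)| + 2 / c0 * (1 / 2) ^ m0 * ‖u‖
    have h2 : T u = ∑ n ∈ c.support, c n • T (x n) := by
      rw [← hc, Finsupp.sum, map_sum]
      exact Finset.sum_congr rfl fun n _ => map_smul _ _ _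
    rw [h2]
    refine (norm_sum_le _ _).trans ?_
    rw [← Finset.sum_filter_add_sum_filter_not c.support (fun n => n < m0)]
    refine add_le_add ?_ ?_
    · calc ∑ n ∈ c.support with n < m0, ‖c n • T (x n)‖
          ≤ ∑ n ∈ c.support with n < m0, |co (im n) u / co (im n) (x n)| := by
            refine Finset.sum_le_sum fun n _ => ?_
            rw [hcm, norm_smul, Real.norm_eq_abs]
            refine mul_le_of_le_one_right (abs_nonneg _) ((hxT n).trans ?_)
            exact pow_le_one₀ (by norm_num) (by norm_num)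
        _ ≤ ∑ n ∈ range m0, |co (im n) u / co (im n) (x n)| := by
            refine Finset.sum_le_sum_of_subset_of_nonneg ?_ fun _ _ _ => abs_nonneg _
            intro n hn'
            exact mem_range.2 (mem_filter.1 hn').2
    · have h3 : ∀ n ∈ c.support.filter (fun n => ¬ n < m0),
          ‖c n • T (x n)‖ ≤ ‖u‖ / c0 * (1 / 2) ^ m0 * (1 / 2) ^ n := by
        intro n hn'
        have hn2 : m0 ≤ n := not_lt.1 (mem_filter.1 hn').2
        rw [norm_smul, Real.norm_eq_abs, mul_assoc]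
        refine mul_le_mul (hnm n) ((hxT n).trans ?_) (norm_nonneg _) (by positivity)
        calc ((1 : ℝ) / 4) ^ n = (1 / 2) ^ n * (1 / 2) ^ n := by rw [← mul_pow]; norm_num
          _ ≤ (1 / 2) ^ m0 * (1 / 2) ^ n := by
            refine mul_le_mul_of_nonneg_right ?_ (by positivity)
            exact pow_le_pow_of_le_one (by norm_num) (by norm_num) hn2
      refine (Finset.sum_le_sum h3).trans ?_
      rw [← Finset.mul_sum]
      have h4 := sum_half_le (c.support.filter (fun n => ¬ n < m0))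
      calc ‖u‖ / c0 * (1 / 2) ^ m0 * ∑ n ∈ c.support.filter (fun n => ¬ n < m0), (1 / 2) ^ n
          ≤ ‖u‖ / c0 * (1 / 2) ^ m0 * 2 := mul_le_mul_of_nonneg_left h4 (by positivity)
        _ = 2 / c0 * (1 / 2) ^ m0 * ‖u‖ := by ring
  -- strict singularity
  rintro N hN - hfin ⟨c, hc, hcN⟩
  obtain ⟨m0, hm0⟩ := exists_pow_lt_of_lt_one (show 0 < c * c0 / 2 by positivity)
    (show (1 / 2 : ℝ) < 1 by norm_num)
  obtain ⟨L, hL⟩ : ∃ L : N →ₗ[ℝ] (Fin m0 → ℝ),
      L = LinearMap.pi fun n : Fin m0 => ((co (im n)).toLinearMap.comp N.subtype) := ⟨_, rfl⟩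
  have hLi : ¬ Function.Injective L := fun h => hfin (FiniteDimensional.of_injective L h)
  rw [← LinearMap.ker_eq_bot, Submodule.eq_bot_iff] at hLi
  push Not at hLi
  obtain ⟨v, hv, hv0⟩ := hLi
  rw [LinearMap.mem_ker] at hv
  have hv1 : ∀ n < m0, co (im n) (v : SS κ × SS κ') = 0 := by
    intro n hn'
    have := congrFun hv ⟨n, hn'⟩
    rw [hL] at this
    exact this
  have h2 := key m0 v (hN v.2)
  rw [Finset.sum_eq_zero (fun n hn' => by rw [hv1 n (mem_range.1 hn'), zero_div, abs_zero]),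
    zero_add] at h2
  have h3 := hcN v v.2
  have hv2 : 0 < ‖(v : SS κ × SS κ')‖ := norm_pos_iff.2 fun h => hv0 (Subtype.ext h)
  have h4 : c ≤ 2 / c0 * (1 / 2) ^ m0 := le_of_mul_le_mul_right (h3.trans h2) hv2
  have h5 : 2 / c0 * (1 / 2) ^ m0 < c := by
    rw [div_mul_eq_mul_div, div_lt_iff₀ hc0]
    linarith
  linarith

/-- **Criterion (ii).** -/
theorem exists_small {Y : Type} [NormedAddCommGroup Y] [NormedSpace ℝ Y]
    (S : SS κ × SS κ' →L[ℝ] Y) (hS : S ∉ DNS (SS κ × SS κ') Y) (N : ℕ) (ε : ℝ) (hε : 0 < ε) :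
    ∃ (M : ℕ) (v : SS κ × SS κ'), N < M ∧ OnLv N M (cx v.1) ∧ OnLv N M (cx v.2) ∧ ‖v‖ = 1 ∧
      ‖S v‖ ≤ ε := by
  classical
  have hS' : ∃ x : ℕ → SS κ × SS κ', (∀ n, x n ≠ 0) ∧ Disj x ∧ SSOn S (clspan x) := by
    by_contra hcon
    exact hS hcon
  obtain ⟨x, hx0, hxd, hSS⟩ := hS'
  have hcoord : ∀ n, ∃ i, co i (x n) ≠ 0 := by
    intro n
    by_contra hcon
    push Not at hcon
    exact hx0 n (co_ext fun i => by rw [hcon i, map_zero])
  choose im him using hcoord
  -- the subspace of vectors with vanishing first coordinates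
  obtain ⟨P, hP⟩ : ∃ P : Submodule ℝ (SS κ × SS κ'), P = clspan x ⊓
      ⨅ k : Fin N, (((co (Sum.inl k)).toLinearMap.ker) ⊓
        ((co (Sum.inr k)).toLinearMap.ker) : Submodule ℝ (SS κ × SS κ')) := ⟨_, rfl⟩
  have hPmem : ∀ v, v ∈ P ↔ v ∈ clspan x ∧ ∀ k < N, cx v.1 k = 0 ∧ cx v.2 k = 0 := by
    intro v
    rw [hP, Submodule.mem_inf, Submodule.mem_iInf]
    refine and_congr Iff.rfl ⟨fun h k hk => ?_, fun h k => ?_⟩
    · obtain ⟨h1, h2⟩ := Submodule.mem_inf.1 (h ⟨k, hk⟩)
      exact ⟨h1, h2⟩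
    · exact Submodule.mem_inf.2 ⟨(h k k.2).1, (h k k.2).2⟩
  have hcl : IsClosed (P : Set (SS κ × SS κ')) := by
    have h1 : (P : Set (SS κ × SS κ')) = (clspan x : Set (SS κ × SS κ')) ∩
        ⋂ k : Fin N, ({v | co (Sum.inl (k : ℕ)) v = 0} ∩ {v | co (Sum.inr (k : ℕ)) v = 0}) := by
      ext v
      rw [Set.mem_inter_iff, Set.mem_iInter]
      refine (hPmem v).trans (and_congr Iff.rfl ⟨fun h k => ⟨(h k k.2).1, (h k k.2).2⟩,
        fun h k hk => ?_⟩)
      exact ⟨(h ⟨k, hk⟩).1, (h ⟨k, hk⟩).2⟩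
    rw [h1]
    refine IsClosed.inter (Submodule.isClosed_topologicalClosure _) (isClosed_iInter fun k => ?_)
    exact (isClosed_eq (co _).continuous continuous_const).inter
      (isClosed_eq (co _).continuous continuous_const)
  -- it is infinite dimensional
  have hev : ∀ᶠ n in atTop, ∀ k ∈ range N, cx (x n).1 k = 0 ∧ cx (x n).2 k = 0 := by
    rw [Filter.eventually_all_finset]
    intro k _
    have h1 : ∀ i : ℕ ⊕ ℕ, ∀ᶠ n in atTop, co i (x n) = 0 := by
      intro i
      by_cases h2 : ∃ m, co i (x m) ≠ 0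
      · obtain ⟨m, hm⟩ := h2
        filter_upwards [eventually_gt_atTop m] with n hn
        exact ((disj_iff x).1 hxd i n m hn.ne').resolve_right hm
      · push Not at h2
        exact Eventually.of_forall h2
    exact (h1 (Sum.inl k)).and (h1 (Sum.inr k))
  obtain ⟨n0, hn0⟩ := eventually_atTop.1 hev
  have hPx : ∀ n, x (n + n0) ∈ P := by
    intro n
    rw [hPmem]
    refine ⟨?_, fun k hk => hn0 (n + n0) (Nat.le_add_left _ _) k (mem_range.2 hk)⟩
    exact Submodule.le_topologicalClosure _ (Submodule.subset_span ⟨_, rfl⟩)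
  have hinf : ¬ FiniteDimensional ℝ P := by
    intro hfd
    have hli : LinearIndependent ℝ (fun n : ℕ => (⟨x (n + n0), hPx n⟩ : P)) := by
      rw [linearIndependent_iff]
      intro c hc
      have h1 : (c.sum fun n a => a • x (n + n0)) = 0 := by
        have h2 := congrArg P.subtype hc
        rw [map_zero, Finsupp.linearCombination_apply, map_finsuppSum] at h2
        exact h2
      have hd : Disj fun n => x (n + n0) := fun m n hmn => hxd _ _ (by omega)
      ext m
      have h2 := co_sum hd c (im (m + n0)) m (him _)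
      rw [h1, map_zero] at h2
      have h3 := (mul_eq_zero.1 h2.symm).resolve_right (him _)
      rw [h3]
      rfl
    exact Module.Finite.not_linearIndependent_of_infinite _ hli
  have hnot := hSS P (by rw [hP]; exact inf_le_left) hcl hinf
  unfold IsoOn at hnot
  push Not at hnot
  obtain ⟨v, hv, hv1⟩ := hnot ε hε
  -- truncate
  have ht : Tendsto (fun M => (Rx 0 M v.1, Rx 0 M v.2)) atTop (𝓝 v) :=
    (SS.tail v.1).prodMk_nhds (SS.tail v.2)
  have ho : IsOpen {u : SS κ × SS κ' | ‖S u‖ < ε * ‖u‖} :=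
    isOpen_lt S.continuous.norm (continuous_const.mul continuous_norm)
  obtain ⟨M, hM1, hM2⟩ := ((ht.eventually (ho.mem_nhds hv1)).and (eventually_gt_atTop N)).exists
  obtain ⟨u, hu⟩ : ∃ u : SS κ × SS κ', u = (Rx 0 M v.1, Rx 0 M v.2) := ⟨_, rfl⟩
  rw [← hu] at hM1
  have hu0 : 0 < ‖u‖ := by
    by_contra hcon
    have h2 : ‖u‖ = 0 := le_antisymm (not_lt.1 hcon) (norm_nonneg _)
    have h3 : ‖S u‖ < ε * ‖u‖ := hM1
    rw [h2, mul_zero] at h3
    exact absurd h3 (not_lt.2 (norm_nonneg _))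
  have hvz := ((hPmem v).1 hv).2
  refine ⟨M, ‖u‖⁻¹ • u, hM2, ?_, ?_, ?_, ?_⟩
  · intro n hn
    show cx (‖u‖⁻¹ • u.1) n = 0
    rw [map_smul, hu, Pi.smul_apply, cx_Rx, cut_apply]
    split_ifs with h4
    · rcases hn with hn | hn
      · rw [(hvz n hn).1, smul_zero]
      · omega
    · rw [smul_zero]
  · intro n hn
    show cx (‖u‖⁻¹ • u.2) n = 0
    rw [map_smul, hu, Pi.smul_apply, cx_Rx, cut_apply]
    split_ifs with h4
    · rcases hn with hn | hn
      · rw [(hvz n hn).2, smul_zero]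
      · omega
    · rw [smul_zero]
  · rw [norm_smul, norm_inv, norm_norm, inv_mul_cancel₀ hu0.ne']
  · rw [map_smul, norm_smul, norm_inv, norm_norm, inv_mul_le_iff₀ hu0]
    have h3 : ‖S u‖ < ε * ‖u‖ := hM1
    linarith

/-- the identity is disjointly non-singular -/
theorem id_DNS : ContinuousLinearMap.id ℝ (SS κ × SS κ') ∈ DNS (SS κ × SS κ') (SS κ × SS κ') := by
  by_contra hcon
  obtain ⟨M, v, -, -, -, h1, h2⟩ := exists_small _ hcon 0 (1 / 2) (by norm_num)
  rw [ContinuousLinearMap.id_apply, h1] at h2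
  norm_num at h2

end

end

end Pool.Agent.Helper94.UG
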