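import Mathlib

set_option autoImplicit false

/-!
The unconditional Gowers space: parameters, trees, evaluation. All functionals are positive; the
norm of a real function `x` is the supremum of the values of the trees at `|x|`.
The development follows the library modules `Q73.GM` (spreads replaced by restrictions to finite
sets, no coefficients).
-/

namespace Pool.Agent.Helper94.UG

open Finset Filter Topology

noncomputable section

/-! ### the parameters -/

/-- the weights -/
def mm (j : ℕ) : ℕ := 2 ^ 2 ^ (j + 1)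

/-- `2 ^ rr j = (mm j) ^ 2` -/
def rr (j : ℕ) : ℕ := 2 ^ (j + 2)

/-- the lengths -/
def nn : ℕ → ℕ
  | 0 => mm 0 ^ 4 * 5 * 2 ^ rr 0
  | j + 1 => mm (j + 1) ^ 4 * (5 * nn j + 5) * (2 * nn j + 2) ^ rr (j + 1)

/-- the threshold for the first weight of a special sequence -/
def thr (p : ℕ) : ℕ := 2 * nn p ^ 2 + p + 2

/-- the number of children of the nodes of index less than `q` -/
def DD (q : ℕ) : ℕ := if q = 0 then 0 else nn (q - 1)

/-- all real functions on the natural numbers -/
abbrev V : Type := ℕ → ℝ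

/-- restriction to a finite set -/
def Rs (S : Finset ℕ) : V →ₗ[ℝ] V where
  toFun x := fun n => if n ∈ S then x n else 0
  map_add' x y := by
    funext n
    by_cases h : n ∈ S <;> simp [h]
  map_smul' c x := by
    funext n
    by_cases h : n ∈ S <;> simp [h]

theorem Rs_apply (S : Finset ℕ) (x : V) (n : ℕ) : Rs S x n = if n ∈ S then x n else 0 := rfl

/-- restriction to the half-open interval `[a, b)` -/
def cut (a b : ℕ) : V →ₗ[ℝ] V where
  toFun x := fun n => if a ≤ n ∧ n < b then x n else 0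
  map_add' x y := by
    funext n
    by_cases h : a ≤ n ∧ n < b <;> simp [h]
  map_smul' c x := by
    funext n
    by_cases h : a ≤ n ∧ n < b <;> simp [h]

theorem cut_apply (a b : ℕ) (x : V) (n : ℕ) : cut a b x n = if a ≤ n ∧ n < b then x n else 0 := rfl

theorem cut_cut (a b a' b' : ℕ) (x : V) : cut a b (cut a' b' x) = cut (max a a') (min b b') x := by
  funext n
  simp only [cut_apply]
  by_cases h : a ≤ n ∧ n < b <;> by_cases h' : a' ≤ n ∧ n < b'
  · rw [if_pos h, if_pos h', if_pos ⟨max_le h.1 h'.1, lt_min h.2 h'.2⟩]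
  · rw [if_pos h, if_neg h', if_neg]
    intro h2
    exact h' ⟨(le_max_right _ _).trans h2.1, h2.2.trans_le (min_le_right _ _)⟩
  · rw [if_neg h, if_neg]
    intro h2
    exact h ⟨(le_max_left _ _).trans h2.1, h2.2.trans_le (min_le_left _ _)⟩
  · rw [if_neg h, if_neg]
    intro h2
    exact h ⟨(le_max_left _ _).trans h2.1, h2.2.trans_le (min_le_left _ _)⟩

theorem Rs_cut (S : Finset ℕ) (a b : ℕ) (x : V) : Rs S (cut a b x) = cut a b (Rs S x) := by
  funext n
  simp only [Rs_apply, cut_apply]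
  by_cases h : n ∈ S <;> by_cases h' : a ≤ n ∧ n < b <;> simp [h, h']

theorem Rs_Rs (S S' : Finset ℕ) (x : V) : Rs S (Rs S' x) = Rs (S ∩ S') x := by
  funext n
  simp only [Rs_apply, mem_inter]
  by_cases h : n ∈ S <;> by_cases h' : n ∈ S' <;> simp [h, h']

/-! ### trees -/

/-- trees: `base n` is a coordinate functional, `node j d a b t` the sum divided by `mm j` of the
functionals `t i` restricted to the intervals `[a i, b i)`, `rs S t` the restriction of `t` to the
finite set `S` -/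
inductive Tr : Type
  | base : ℕ → Tr
  | node : (j d : ℕ) → (Fin d → ℕ) → (Fin d → ℕ) → (Fin d → Tr) → Tr
  | rs : Finset ℕ → Tr → Tr

/-- labels for the `W`-type -/
abbrev Lab : Type := ℕ ⊕ (Σ d : ℕ, ℕ × (Fin d → ℕ) × (Fin d → ℕ)) ⊕ Finset ℕ

/-- arities -/
def ar : Lab → ℕ
  | Sum.inl _ => 0
  | Sum.inr (Sum.inl x) => x.1
  | Sum.inr (Sum.inr _) => 1

/-- a tree as an element of a `W`-type -/
def Tr.toW : Tr → WType (fun l : Lab => Fin (ar l))
  | .base n => WType.mk (Sum.inl n) (fun i => Fin.elim0 i)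
  | .node j d a b t => WType.mk (Sum.inr (Sum.inl ⟨d, j, a, b⟩)) (fun i => (t i).toW)
  | .rs S t => WType.mk (Sum.inr (Sum.inr S)) (fun _ => t.toW)

theorem Tr.toW_injective : Function.Injective Tr.toW := by
  intro x
  induction x with
  | base k =>
    intro y h
    cases y with
    | base k' =>
      simp only [Tr.toW, WType.mk.injEq, Sum.inl.injEq] at h
      obtain ⟨rfl, _⟩ := h
      rfl
    | node j d a b t =>
      simp only [Tr.toW, WType.mk.injEq] at h
      exact absurd h.1 (by simp)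
    | rs S t =>
      simp only [Tr.toW, WType.mk.injEq] at h
      exact absurd h.1 (by simp)
  | node j d a b t ih =>
    intro y h
    cases y with
    | base k' =>
      simp only [Tr.toW, WType.mk.injEq] at h
      exact absurd h.1 (by simp)
    | node j' d' a' b' t' =>
      simp only [Tr.toW, WType.mk.injEq, Sum.inr.injEq, Sum.inl.injEq] at h
      obtain ⟨h1, h2⟩ := h
      obtain ⟨rfl, h3⟩ := Sigma.mk.inj_iff.1 h1
      simp only [heq_eq_eq, Prod.mk.injEq] at h3
      obtain ⟨rfl, rfl, rfl⟩ := h3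
      congr 1
      funext i
      exact ih i (congrFun (eq_of_heq h2) i)
    | rs S t =>
      simp only [Tr.toW, WType.mk.injEq] at h
      exact absurd h.1 (by simp)
  | rs S t ih =>
    intro y h
    cases y with
    | base k' =>
      simp only [Tr.toW, WType.mk.injEq] at h
      exact absurd h.1 (by simp)
    | node j' d' a' b' t' =>
      simp only [Tr.toW, WType.mk.injEq] at h
      exact absurd h.1 (by simp)
    | rs S' t' =>
      simp only [Tr.toW, WType.mk.injEq, Sum.inr.injEq] at h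
      obtain ⟨rfl, h2⟩ := h
      congr 1
      exact ih (congrFun (eq_of_heq h2) (⟨0, Nat.one_pos⟩ : Fin 1))

instance : Countable Tr := Tr.toW_injective.countable

/-- a numbering of the finite sequences of restricted trees -/
def code : List (Tr × ℕ × ℕ) → ℕ := (Countable.exists_injective_nat (List (Tr × ℕ × ℕ))).choose

theorem code_injective : Function.Injective code :=
  (Countable.exists_injective_nat (List (Tr × ℕ × ℕ))).choose_spec

/-- the weight index plus one (zero for coordinate functionals) -/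
def Tr.wt : Tr → ℕ
  | .base _ => 0
  | .node j _ _ _ _ => j + 1
  | .rs _ t => t.wt

/-- the sum of the weights of a list -/
def wsum (L : List (Tr × ℕ × ℕ)) : ℕ := (L.map fun s => s.1.wt).sum

/-- the coding function -/
def sig (L : List (Tr × ℕ × ℕ)) : ℕ := 4 * (Nat.pair (code L) (wsum L) + 1)

theorem sig_injective : Function.Injective sig := by
  intro L L' h
  unfold sig at h
  have h1 : Nat.pair (code L) (wsum L) = Nat.pair (code L') (wsum L') := by omega
  exact code_injective (Nat.pair_eq_pair.1 h1).1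

theorem wsum_lt_sig (L : List (Tr × ℕ × ℕ)) : wsum L < sig L := by
  unfold sig
  have := Nat.right_le_pair (code L) (wsum L)
  omega

theorem sig_mod (L : List (Tr × ℕ × ℕ)) : sig L % 4 = 0 := by
  unfold sig; omega

/-- the first `s` restricted children -/
def hist {d : ℕ} (a b : Fin d → ℕ) (t : Fin d → Tr) (s : ℕ) : List (Tr × ℕ × ℕ) :=
  (List.ofFn fun i => (t i, a i, b i)).take s

/-- admissible trees -/
def Tr.Wf : Tr → Prop
  | .base _ => True
  | .node j d a b t =>
      d ≤ nn j ∧ (∀ i, (t i).Wf) ∧ (∀ i, a i ≤ b i) ∧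
      (∀ i i', i < i' → b i ≤ a i') ∧
      (j % 2 = 1 → ∀ i : Fin d, if (i : ℕ) = 0 then ∃ q, q % 4 = 2 ∧ thr j ≤ q ∧ (t i).wt = q + 1
          else (t i).wt = sig (hist a b t i) + 1)
  | .rs _ t => t.Wf

/-- evaluation of a tree -/
def ev : Tr → V →ₗ[ℝ] ℝ
  | .base n => LinearMap.proj (R := ℝ) (φ := fun _ : ℕ => ℝ) n
  | .node j _ a b t => ((mm j : ℝ))⁻¹ • ∑ i, (ev (t i)).comp (cut (a i) (b i))
  | .rs S t => (ev t).comp (Rs S)

theorem ev_base (n : ℕ) (x : V) : ev (.base n) x = x n := rfl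

theorem ev_node (j d : ℕ) (a b : Fin d → ℕ) (t : Fin d → Tr) (x : V) :
    ev (.node j d a b t) x =
      (mm j : ℝ)⁻¹ * ∑ i : Fin d, ev (t i) (cut (a i) (b i) x) := by
  rw [ev]
  simp only [LinearMap.smul_apply, LinearMap.sum_apply, LinearMap.comp_apply, smul_eq_mul]

theorem ev_rs (S : Finset ℕ) (t : Tr) (x : V) : ev (.rs S t) x = ev t (Rs S x) := rfl

/-- `x` is bounded by `C` with respect to all admissible functionals. -/
def Bd (C : ℝ) (x : V) : Prop := ∀ t : Tr, t.Wf → ∀ a b : ℕ, ‖ev t (cut a b x)‖ ≤ C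

/-- `x` is supported by `[A, B)`. -/
def OnLv (A B : ℕ) (x : V) : Prop := ∀ n, (n < A ∨ B ≤ n) → x n = 0

theorem OnLv.cut_eq {A B : ℕ} {x : V} (h : OnLv A B x) {a b : ℕ} (ha : a ≤ A) (hb : B ≤ b) :
    cut a b x = x := by
  funext n
  rw [cut_apply]
  split_ifs with h1
  · rfl
  · rw [h n]
    by_contra h2
    push Not at h2
    exact h1 ⟨ha.trans h2.1, h2.2.trans_le hb⟩

theorem OnLv.cut_zero {A B : ℕ} {x : V} (h : OnLv A B x) {a b : ℕ} (hab : b ≤ A ∨ B ≤ a) :
    cut a b x = 0 := by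
  funext n
  rw [cut_apply]
  split_ifs with h1
  · exact h n (by omega)
  · rfl

theorem OnLv.cutR {A B : ℕ} {x : V} (h : OnLv A B x) (a b : ℕ) : OnLv A B (cut a b x) := by
  intro n hk
  rw [cut_apply, h n hk]
  simp

theorem OnLv.mono {A B A' B' : ℕ} {x : V} (h : OnLv A B x) (ha : A' ≤ A) (hb : B ≤ B') :
    OnLv A' B' x := by
  intro n hk
  exact h n (by omega)

theorem OnLv_cut (a b : ℕ) (x : V) : OnLv a b (cut a b x) := by
  intro n hn
  rw [cut_apply, if_neg]
  omega

theorem OnLv.Rs {A B : ℕ} {x : V} (h : OnLv A B x) (S : Finset ℕ) :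
    OnLv A B (UG.Rs S x) := by
  intro n hn
  rw [Rs_apply, h n hn]
  simp

/-- the basis vectors -/
def e (n : ℕ) : V := fun k => if k = n then 1 else 0

/-- successive supports -/
def Succ (x : ℕ → V) (A B : ℕ → ℕ) : Prop :=
  (∀ l, OnLv (A l) (B l) (x l)) ∧ (∀ l, A l ≤ B l) ∧ ∀ l l', l < l' → B l ≤ A l'

/-- rapidly increasing sequences -/
structure RIS (C : ℝ) (u : ℕ → V) (A B J : ℕ → ℕ) : Prop where
  hC : 1 ≤ C
  succ : Succ u A B
  tend : Tendsto A atTop atTop
  bd : ∀ l, Bd C (u l)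
  mono : StrictMono J
  low : ∀ l (t : Tr), t.Wf → ∀ i, t.wt = i + 1 → i < J l → ∀ α β,
    ‖ev t (cut α β (u l))‖ ≤ C / mm i
  high : ∀ l (t : Tr), t.Wf → ∀ i, t.wt = i + 1 → J (l + 1) ≤ i → ∀ α β,
    ‖ev t (cut α β (u l))‖ ≤ (1 / 2) ^ l

/-- the estimates for an average of length about `nn q` with weight `mm q` of a rapidly increasing
sequence with constant `C` -/
structure Av (C : ℝ) (q : ℕ) (y : V) : Prop where
  bd : Bd (4 * C) y
  low : ∀ t : Tr, t.Wf → ∀ i, t.wt = i + 1 → i < q → ∀ α β, ‖ev t (cut α β y)‖ ≤ 3 * C / mm i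
  high : ∀ t : Tr, t.Wf → ∀ i, t.wt = i + 1 → ∀ α β,
    ‖ev t (cut α β y)‖ ≤ 3 * C * ((mm q : ℝ) ^ 2 / nn q) + C * (mm q / mm i)

/-- a dependent sequence for the special weight `p` -/
structure Dep (C : ℝ) (p : ℕ) (X : ℕ → V) (q : ℕ → ℕ) (G : ℕ → Tr × ℕ × ℕ) : Prop where
  hC : 1 ≤ C
  hp : p % 2 = 1
  lev : ∀ k, OnLv (G k).2.1 (G k).2.2 (X k)
  le : ∀ k, (G k).2.1 ≤ (G k).2.2
  suc : ∀ k k', k < k' → (G k).2.2 ≤ (G k').2.1
  wf : ∀ k, (G k).1.Wf
  wt : ∀ k, (G k).1.wt = q k + 1
  q0 : q 0 % 4 = 2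
  q0' : thr p ≤ q 0
  qs : ∀ k, q (k + 1) = sig (List.ofFn fun i : Fin (k + 1) => G i)
  av : ∀ k, Av C (q k) (X k)
  diag : ∀ (S : Finset ℕ) (k : ℕ),
    ‖ev (G k).1 (cut (G k).2.1 (G k).2.2 (Rs S (X k)))‖ ≤ 1 / nn p

end

end Pool.Agent.Helper94.UG
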