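import Pool.Agent.Helper94.UG.ZD

set_option autoImplicit false

/-!
The spaces `SS κ`: truncations, order continuity; a block map for which the unit vectors have large
norms; diagonal estimates for operators.
-/

namespace Pool.Agent.Helper94.UG

open Finset Filter Topology

noncomputable section

/-! ### truncations in `SS κ` -/

theorem Kp.lt_s {κ : Kp} {n N : ℕ} : κ.fn n < N ↔ n < κ.s N := by
  have h := (κ.iff n (κ.fn n)).1 rfl
  constructor
  · intro h1
    exact lt_of_lt_of_le h.2 (κ.mono.monotone h1)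
  · intro h1
    by_contra hcon
    push Not at hcon
    have := κ.mono.monotone hcon
    omega

theorem OnLv.pull {κ : Kp} {A B : ℕ} {x : V} (h : OnLv A B x) :
    OnLv (κ.s A) (κ.s B) (UG.pull κ x) := by
  intro n hn
  rw [pull_apply]
  apply h
  rcases hn with hn | hn
  · left
    exact Kp.lt_s.2 hn
  · right
    by_contra hcon
    push Not at hcon
    have := Kp.lt_s.1 hcon
    omega

theorem jj_Rx {κ : Kp} (N : ℕ) (x : SS κ) : jj (Rx 0 N x) = Rx 0 (κ.s N) (jj x) := by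
  apply cx_injective
  rw [cx_jj, cx_Rx, cx_Rx, cx_jj]
  funext n
  rw [pull_apply, cut_apply, cut_apply, pull_apply]
  by_cases h : κ.fn n < N
  · rw [if_pos ⟨Nat.zero_le _, h⟩, if_pos ⟨Nat.zero_le _, Kp.lt_s.1 h⟩]
  · rw [if_neg (fun h2 => h h2.2), if_neg (fun h2 => h (Kp.lt_s.2 h2.2))]

theorem SS.tail {κ : Kp} (x : SS κ) : Tendsto (fun N => Rx 0 N x) atTop (𝓝 x) := by
  have h1 := (t_TAIL (jj x)).comp κ.mono.tendsto_atTop
  have h2 : ((fun N => Rx 0 N (jj x)) ∘ κ.s) = fun N => jj (Rx 0 N x) := by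
    funext N
    exact (jj_Rx N x).symm
  rw [h2] at h1
  exact (jj (κ := κ)).isometry.isUniformInducing.isInducing.tendsto_nhds_iff.2 h1

theorem norm_Rx_le_sum' {κ : Kp} (N : ℕ) (w : SS κ) {δ : ℝ} (hδ : 0 ≤ δ)
    (h : ∀ n < N, |cx w n| ≤ δ) : ‖Rx 0 N w‖ ≤ κ.s N * δ := by
  rw [← (jj (κ := κ)).norm_map, jj_Rx]
  refine (norm_Rx_le_sum hELS (κ.s N) (jj w)).trans ?_
  calc ∑ n ∈ Ico 0 (κ.s N), ‖cx (jj w) n‖ ≤ ∑ n ∈ Ico 0 (κ.s N), δ := by
        refine Finset.sum_le_sum fun n hn => ?_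
        rw [mem_Ico] at hn
        exact h _ (Kp.lt_s.2 hn.2)
    _ = κ.s N * δ := by
        rw [Finset.sum_const, Nat.card_Ico, nsmul_eq_mul, Nat.sub_zero]

/-! ### order continuity -/

/-- order continuity in terms of directed sets -/
def OC (E : Type) [NormedAddCommGroup E] [Lattice E] : Prop :=
  ∀ s : Set E, s.Nonempty → DirectedOn (· ≥ ·) s → IsGLB s 0 → ∀ ε > 0, ∃ x ∈ s, ‖x‖ < ε

theorem SS.oc (κ : Kp) : OC (SS κ) := by
  intro s hne hdir hglb ε hε
  have hnn' : ∀ x ∈ s, 0 ≤ x := fun x hx => hglb.1 hx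
  have hnn : ∀ x ∈ s, ∀ n, 0 ≤ cx x n := fun x hx n => hnn' x hx n
  -- coordinates become small
  have hco : ∀ (n : ℕ) (δ : ℝ), 0 < δ → ∃ x ∈ s, cx x n < δ := by
    intro n δ hδ
    by_contra hcon
    push Not at hcon
    have hmem : δ • e n ∈ Wg κ := by
      obtain ⟨x, hx⟩ := hne
      refine Wg.of_le (cx_mem x) fun k => ?_
      rw [Pi.abs_apply, Pi.smul_apply, Pi.abs_apply, smul_eq_mul]
      unfold e
      split_ifs with hk
      · rw [hk, mul_one, abs_of_pos hδ]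
        exact (hcon x hx).trans (le_abs_self _)
      · rw [mul_zero, abs_zero]
        exact abs_nonneg _
    have h1 : (ofV (δ • e n) hmem : SS κ) ≤ 0 := by
      apply hglb.2
      intro x hx k
      show δ * e n k ≤ cx x k
      unfold e
      split_ifs with hk
      · rw [hk, mul_one]
        exact hcon x hx
      · rw [mul_zero]
        exact hnn x hx k
    have h2 : δ * e n n ≤ 0 := h1 n
    unfold e at h2
    rw [if_pos rfl, mul_one] at h2
    linarith
  obtain ⟨x0, hx0⟩ := hne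
  obtain ⟨N, hN⟩ := ((Metric.tendsto_nhds.1 (SS.tail x0)) (ε / 2) (by positivity)).exists
  rw [dist_comm, dist_eq_norm] at hN
  obtain ⟨δ, hδ⟩ : ∃ δ, δ = ε / (2 * (κ.s N + 1)) := ⟨_, rfl⟩
  have hδ0 : 0 < δ := by rw [hδ]; positivity
  -- an element below `x0` with small first coordinates
  have hfin : ∀ M : ℕ, ∃ x ∈ s, x ≤ x0 ∧ ∀ n < M, cx x n ≤ δ := by
    intro M
    induction M with
    | zero => exact ⟨x0, hx0, le_rfl, fun n hn => absurd hn (Nat.not_lt_zero n)⟩
    | succ M ih =>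
      obtain ⟨x, hx, hx1, hx2⟩ := ih
      obtain ⟨y, hy, hy1⟩ := hco M δ hδ0
      obtain ⟨z, hz, hz1, hz2⟩ := hdir x hx y hy
      refine ⟨z, hz, le_trans hz1 hx1, fun n hn => ?_⟩
      rcases Nat.lt_succ_iff_lt_or_eq.1 hn with h | rfl
      · exact (cx_le.1 hz1 n).trans (hx2 n h)
      · exact (cx_le.1 hz2 n).trans hy1.le
  obtain ⟨x, hx, hx1, hx2⟩ := hfin N
  refine ⟨x, hx, ?_⟩
  have h1 : ‖Rx 0 N x‖ ≤ κ.s N * δ := by
    refine norm_Rx_le_sum' N x hδ0.le fun n hn => ?_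
    rw [abs_of_nonneg (hnn x hx n)]
    exact hx2 n hn
  have h2 : ‖x - Rx 0 N x‖ ≤ ‖x0 - Rx 0 N x0‖ := by
    refine SS.norm_mono fun n => ?_
    rw [Pi.abs_apply, Pi.abs_apply, map_sub, map_sub, Pi.sub_apply, Pi.sub_apply, cx_Rx, cx_Rx,
      cut_apply, cut_apply]
    split_ifs with h3
    · rw [sub_self, sub_self]
    · rw [sub_zero, sub_zero, abs_of_nonneg (hnn x hx n), abs_of_nonneg (hnn x0 hx0 n)]
      exact hx1 n
  have h3 : ‖x‖ ≤ ‖Rx 0 N x‖ + ‖x - Rx 0 N x‖ := by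
    have := norm_add_le (Rx 0 N x) (x - Rx 0 N x)
    rwa [add_sub_cancel] at this
  have h4 : (κ.s N : ℝ) * δ ≤ ε / 2 := by
    have h5 : (κ.s N : ℝ) * δ = ε / 2 * (κ.s N / (κ.s N + 1)) := by
      rw [hδ]
      field_simp
    rw [h5]
    refine mul_le_of_le_one_right (by positivity) ?_
    rw [div_le_one (by positivity)]
    linarith
  linarith

/-- products of Banach lattices have solid norms -/
theorem prod_solid (E F : Type) [NormedAddCommGroup E] [Lattice E] [HasSolidNorm E]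
    [NormedAddCommGroup F] [Lattice F] [HasSolidNorm F] : HasSolidNorm (E × F) where
  solid x y h := by
    rw [Prod.norm_def, Prod.norm_def]
    exact max_le_max (HasSolidNorm.solid h.1) (HasSolidNorm.solid h.2)

theorem OC.prod {E F : Type} [NormedAddCommGroup E] [Lattice E] [HasSolidNorm E]
    [IsOrderedAddMonoid E] [NormedAddCommGroup F] [Lattice F] [HasSolidNorm F]
    [IsOrderedAddMonoid F] (hE : OC E) (hF : OC F) : OC (E × F) := by
  intro s hne hdir hglb ε hε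
  have h1 : ∃ x ∈ s, ‖x.1‖ < ε := by
    have h2 := hE (Prod.fst '' s) (hne.image _) (by
      rintro _ ⟨x, hx, rfl⟩ _ ⟨y, hy, rfl⟩
      obtain ⟨z, hz, hz1, hz2⟩ := hdir x hx y hy
      exact ⟨z.1, ⟨z, hz, rfl⟩, hz1.1, hz2.1⟩) (by
      constructor
      · rintro _ ⟨x, hx, rfl⟩
        exact (hglb.1 hx).1
      · intro u hu
        have h3 : (u, (0 : F)) ≤ 0 := by
          apply hglb.2
          intro x hx
          exact ⟨hu ⟨x, hx, rfl⟩, (hglb.1 hx).2⟩
        exact h3.1) ε hε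
    obtain ⟨_, ⟨x, hx, rfl⟩, h3⟩ := h2
    exact ⟨x, hx, h3⟩
  have h2 : ∃ x ∈ s, ‖x.2‖ < ε := by
    have h2 := hF (Prod.snd '' s) (hne.image _) (by
      rintro _ ⟨x, hx, rfl⟩ _ ⟨y, hy, rfl⟩
      obtain ⟨z, hz, hz1, hz2⟩ := hdir x hx y hy
      exact ⟨z.2, ⟨z, hz, rfl⟩, hz1.2, hz2.2⟩) (by
      constructor
      · rintro _ ⟨x, hx, rfl⟩
        exact (hglb.1 hx).2
      · intro u hu
        have h3 : ((0 : E), u) ≤ 0 := by
          apply hglb.2
          intro x hx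
          exact ⟨(hglb.1 hx).1, hu ⟨x, hx, rfl⟩⟩
        exact h3.2) ε hε
    obtain ⟨_, ⟨x, hx, rfl⟩, h3⟩ := h2
    exact ⟨x, hx, h3⟩
  obtain ⟨x, hx, hx1⟩ := h1
  obtain ⟨y, hy, hy1⟩ := h2
  obtain ⟨z, hz, hz1, hz2⟩ := hdir x hx y hy
  refine ⟨z, hz, ?_⟩
  rw [Prod.norm_def]
  have hz0 := hglb.1 hz
  refine max_lt (lt_of_le_of_lt ?_ hx1) (lt_of_le_of_lt ?_ hy1)
  · apply HasSolidNorm.solid
    rw [abs_of_nonneg hz0.1, abs_of_nonneg (le_trans hz0.1 hz1.1)]
    exact hz1.1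
  · apply HasSolidNorm.solid
    rw [abs_of_nonneg hz0.2, abs_of_nonneg (le_trans hz0.2 hz2.2)]
    exact hz2.2

/-! ### the block map with large blocks -/

/-- the ends of the blocks -/
def sU : ℕ → ℕ
  | 0 => 0
  | k + 1 => sU k + nn (2 * k)

theorem sU_mono : StrictMono sU := strictMono_nat_of_lt_succ fun k => by
  rw [sU]
  have := nn_pos (2 * k)
  omega

/-- the block map -/
def kU : Kp where
  fn n := Nat.findGreatest (fun k => sU k ≤ n) n
  s := sU
  mono := sU_mono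
  iff n k := by
    have h0 : sU 0 ≤ n := Nat.zero_le n
    have h1 : sU (Nat.findGreatest (fun k => sU k ≤ n) n) ≤ n :=
      Nat.findGreatest_spec (P := fun k => sU k ≤ n) (Nat.zero_le n) h0
    have h2 : n < sU (Nat.findGreatest (fun k => sU k ≤ n) n + 1) := by
      by_contra hcon
      push Not at hcon
      have h3 : Nat.findGreatest (fun k => sU k ≤ n) n + 1 ≤ n :=
        (sU_mono.id_le _).trans hcon
      have h4 := Nat.le_findGreatest (P := fun k => sU k ≤ n) h3 hcon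
      omega
    constructor
    · rintro rfl
      exact ⟨h1, h2⟩
    · rintro ⟨h3, h4⟩
      by_contra hne
      rcases lt_or_gt_of_ne hne with h5 | h5
      · have := sU_mono.monotone (show _ + 1 ≤ k from h5)
        omega
      · have := sU_mono.monotone (show k + 1 ≤ _ from h5)
        omega

theorem e_mem {κ : Kp} (k : ℕ) : e k ∈ Wg κ := by
  refine ⟨κ.s (k + 1) - κ.s k, ?_⟩
  have h := hELS (κ.s k) (κ.s (k + 1)) |pull κ (e k)| (by
    have h1 : OnLv k (k + 1) (e k) := by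
      intro n hn
      unfold e
      rw [if_neg]
      omega
    exact RISB.onLv_abs h1.pull)
  intro t ht a b
  refine (h t ht a b).1.trans ?_
  calc ∑ n ∈ Ico (κ.s k) (κ.s (k + 1)), ‖|pull κ (e k)| n‖
      ≤ ∑ n ∈ Ico (κ.s k) (κ.s (k + 1)), (1 : ℝ) := by
        refine Finset.sum_le_sum fun n _ => ?_
        rw [Pi.abs_apply, Real.norm_eq_abs, abs_abs, pull_apply]
        unfold e
        split_ifs <;> simp
    _ = ((κ.s (k + 1) - κ.s k : ℕ) : ℝ) := by
        rw [Finset.sum_const, Nat.card_Ico, nsmul_eq_mul, mul_one]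
    _ = κ.s (k + 1) - κ.s k := by
        rw [Nat.cast_sub (κ.mono.monotone (Nat.le_succ k))]

/-- the unit vectors of `SS κ` -/
def eK {κ : Kp} (k : ℕ) : SS κ := ofV (e k) (e_mem k)

theorem cx_eK {κ : Kp} (k : ℕ) : cx (eK k : SS κ) = e k := rfl

theorem eK_ne {κ : Kp} (k : ℕ) : (eK k : SS κ) ≠ 0 := by
  intro h
  have h1 := congrArg (fun x => cx x k) h
  simp only [cx_eK, map_zero, Pi.zero_apply] at h1
  unfold e at h1
  simp at h1

/-- the unit vectors of `SS kU` have large norms -/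
theorem norm_eU (k : ℕ) : (k : ℝ) ≤ ‖(eK k : SS kU)‖ := by
  rw [← (jj (κ := kU)).norm_map]
  have h1 := t_LOW (2 * k) (by omega) (fun l => sU k + l) (fun l => sU k + l + 1)
    (fun l => Nat.le_succ _) (fun l l' h => by omega) (range (nn (2 * k))) (by rw [card_range])
    (jj (eK k : SS kU))
  have h2 : ∀ l ∈ range (nn (2 * k)), (1 : ℝ) ≤
      ‖Rx (sU k + l) (sU k + l + 1) (jj (eK k : SS kU))‖ := by
    intro l hl
    rw [mem_range] at hl
    refine le_trans (le_of_eq ?_) (norm_cx_le _ (sU k + l))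
    rw [cx_Rx, cut_apply, if_pos ⟨le_rfl, Nat.lt_succ_self _⟩, cx_jj, pull_apply, cx_eK]
    have h3 : kU.fn (sU k + l) = k := (kU.iff _ _).2 ⟨Nat.le_add_right _ _, by
      show sU k + l < sU (k + 1)
      rw [sU]
      omega⟩
    rw [h3]
    unfold e
    simp
  have h3 := (Finset.sum_le_sum h2).trans h1
  rw [sum_const, card_range, nsmul_eq_mul, mul_one] at h3
  have h4 := mm_le_nn (2 * k)
  have h5 := lt_mm' (2 * k)
  have h6 := one_le_mm (2 * k)
  push_cast at h5
  have hm := mm_pos' (2 * k)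
  have h7 : (mm (2 * k) : ℝ) ^ 3 ≤ ‖jj (eK k : SS kU)‖ := by
    refine le_of_mul_le_mul_left ?_ hm
    calc (mm (2 * k) : ℝ) * (mm (2 * k) : ℝ) ^ 3 = (mm (2 * k) : ℝ) ^ 4 := by ring
      _ ≤ (nn (2 * k) : ℝ) := h4
      _ ≤ _ := h3
  have h8 : (mm (2 * k) : ℝ) ≤ (mm (2 * k) : ℝ) ^ 3 :=
    le_self_pow₀ (by linarith) (by norm_num)
  have h9 : (0 : ℝ) ≤ k := Nat.cast_nonneg k
  linarith

/-! ### diagonals -/

/-- the diagonal of an operator -/
def dg (d : GG →L[ℝ] GG) : V := fun n => cx (d (eG n)) n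

theorem dg_le (d : GG →L[ℝ] GG) (n : ℕ) : |dg d n| ≤ ‖d‖ := by
  refine (norm_cx_le _ _).trans ((d.le_opNorm _).trans ?_)
  rw [norm_eG, mul_one]

/-- every operator is near to its diagonal on rapidly increasing sequences -/
theorem near_diag (d : GG →L[ℝ] GG) (C : ℝ) (z : ℕ → GG) (hz : Ris C z) :
    Tendsto (fun l => d (z l) - mulL (dg d) ‖d‖ (dg_le d) (z l)) atTop (𝓝 0) := by
  have h := zero_diag (d - mulL (dg d) ‖d‖ (dg_le d)) (fun n => by
    have h1 : cx ((d - (mulL (dg d) ‖d‖ (dg_le d) : GG →L[ℝ] GG)) (eG n)) n =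
        cx (d (eG n)) n - cx (mulL (dg d) ‖d‖ (dg_le d) (eG n)) n := rfl
    rw [h1, cx_mulL, Pi.mul_apply, cx_eG]
    unfold dg e
    rw [if_pos rfl, mul_one, sub_self]) C z hz
  exact h

/-- operators into `SS kU` are small on rapidly increasing sequences -/
theorem to_U (b : GG →L[ℝ] SS kU) (C : ℝ) (z : ℕ → GG) (hz : Ris C z) :
    Tendsto (fun l => b (z l)) atTop (𝓝 0) := by
  obtain ⟨d, hd⟩ : ∃ d : GG →L[ℝ] GG, d = (jj (κ := kU)).toContinuousLinearMap.comp b := ⟨_, rfl⟩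
  have hd' : ∀ x, d x = jj (b x) := fun x => by rw [hd]; rfl
  have h1 := near_diag d C z hz
  -- the diagonal tends to zero
  have h2 : ∀ n, |dg d n| * (kU.fn n : ℝ) ≤ ‖b‖ := by
    intro n
    have h3 : dg d n = cx (b (eG n)) (kU.fn n) := by
      unfold dg
      rw [hd', cx_jj, pull_apply]
    have h4 : ‖dg d n • (eK (kU.fn n) : SS kU)‖ ≤ ‖b (eG n)‖ := by
      refine SS.norm_mono fun k => ?_
      rw [map_smul, cx_eK, Pi.abs_apply, Pi.smul_apply, Pi.abs_apply, smul_eq_mul]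
      unfold e
      split_ifs with hk
      · rw [mul_one, hk, h3]
      · rw [mul_zero, abs_zero]
        exact abs_nonneg _
    rw [norm_smul] at h4
    have h5 := b.le_opNorm (eG n)
    rw [norm_eG, mul_one] at h5
    refine le_trans ?_ (h4.trans h5)
    exact mul_le_mul_of_nonneg_left (norm_eU _) (abs_nonneg _)
  have h3 : Tendsto (fun l => mulL (dg d) ‖d‖ (dg_le d) (z l)) atTop (𝓝 0) := by
    obtain ⟨A, B, J, hR⟩ := hz
    rw [Metric.tendsto_atTop]
    intro ε hε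
    have hC : 0 < C := by linarith [hR.hC]
    obtain ⟨K, hK⟩ := exists_nat_gt (‖b‖ * C / (ε / 2))
    have hK0 : (0 : ℝ) < K := lt_of_le_of_lt (by positivity) hK
    obtain ⟨L, hL⟩ := eventually_atTop.1 (hR.tend.eventually (eventually_ge_atTop (kU.s K)))
    refine ⟨L, fun l hl => ?_⟩
    rw [dist_zero_right]
    have h4 : ‖mulL (dg d) ‖d‖ (dg_le d) (z l)‖ ≤ ‖(‖b‖ / K) • z l‖ := by
      refine SS.norm_mono fun n => ?_
      rw [cx_mulL, map_smul, Pi.abs_apply, Pi.mul_apply, Pi.abs_apply, Pi.smul_apply, smul_eq_mul,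
        abs_mul, abs_mul]
      by_cases hn : n < A l
      · have h5 : |cx (z l) n| = 0 := hR.succ.1 l n (Or.inl hn)
        rw [h5, mul_zero, mul_zero]
      · refine mul_le_mul_of_nonneg_right ?_ (abs_nonneg _)
        rw [abs_of_nonneg (by positivity : (0 : ℝ) ≤ ‖b‖ / K), le_div_iff₀ hK0]
        refine le_trans (mul_le_mul_of_nonneg_left ?_ (abs_nonneg _)) (h2 n)
        have h6 : ¬ kU.fn n < K := by
          intro h7
          have h8 := Kp.lt_s.1 h7
          have h9 := hL l hl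
          omega
        exact_mod_cast not_lt.1 h6
    refine lt_of_le_of_lt h4 ?_
    rw [norm_smul, Real.norm_of_nonneg (by positivity)]
    have h5 : ‖z l‖ ≤ C := GG.norm_le (hR.bd l)
    have h6 : ‖b‖ / K * ‖z l‖ ≤ ‖b‖ / K * C := mul_le_mul_of_nonneg_left h5 (by positivity)
    have h7 : ‖b‖ / K * C ≤ ε / 2 := by
      rw [div_mul_eq_mul_div, div_le_iff₀ hK0]
      rw [div_lt_iff₀ (by positivity)] at hK
      linarith
    linarith
  have h4 := h1.add h3
  rw [add_zero] at h4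
  have h5 : (fun l => d (z l) - mulL (dg d) ‖d‖ (dg_le d) (z l) +
      mulL (dg d) ‖d‖ (dg_le d) (z l)) = fun l => jj (b (z l)) := by
    funext l
    rw [sub_add_cancel, hd']
  rw [h5, ← map_zero (jj (κ := kU))] at h4
  exact (jj (κ := kU)).isometry.isUniformInducing.isInducing.tendsto_nhds_iff.2 h4

end

end Pool.Agent.Helper94.UG
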