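import Pool.Agent.Helper94.UG.Sp
import Pool.Agent.Helper94.UG.Stm1

set_option autoImplicit false

/-!
Lower estimates by an even node, after the library module `Q73.GM.LOW`.
-/

namespace Pool.Agent.Helper94.UG

open Finset Filter Topology

noncomputable section

namespace LOW

/-- a tree which nearly attains the norm -/
theorem exists_tree (w : GG) {ε : ℝ} (hε : 0 < ε) :
    ∃ f : Tr × ℕ × ℕ, f.1.Wf ∧ ‖w‖ - ε ≤ ev f.1 (cut f.2.1 f.2.2 |cx w|) := by
  obtain ⟨f, hf, hf'⟩ := exists_functional (x := w) (ε := ‖w‖ - ε) (by linarith)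
  exact ⟨f, hf, hf'.le⟩

/-- the restriction to an interval as a tree -/
def iv (f : Tr × ℕ × ℕ) : Tr := .rs (Ico f.2.1 f.2.2) f.1

theorem ev_iv (f : Tr × ℕ × ℕ) (x : V) : ev (iv f) x = ev f.1 (cut f.2.1 f.2.2 x) := by
  unfold iv
  rw [ev_rs]
  congr 1
  funext n
  rw [Rs_apply, cut_apply]
  simp only [mem_Ico]

theorem main (q : ℕ) (hq : q % 2 = 0) (a b : ℕ → ℕ) (hab : ∀ l, a l ≤ b l)
    (hsuc : ∀ l l', l < l' → b l ≤ a l') (I : Finset ℕ) (hI : #I ≤ nn q) (x : GG) (ε : ℝ)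
    (hε : 0 < ε) :
    ∑ l ∈ I, (‖Rx (a l) (b l) x‖ - ε) ≤ mm q * ‖x‖ := by
  choose f hf hfc using fun l => exists_tree (Rx (a l) (b l) x) hε
  obtain ⟨em, hem⟩ : ∃ em : Fin (#I) ↪o ℕ, em = I.orderEmbOfFin rfl := ⟨_, rfl⟩
  obtain ⟨N, hN⟩ : ∃ N : ℕ, ∀ l ∈ I, b l ≤ N :=
    ⟨I.sup b, fun l hl => Finset.le_sup hl⟩
  have hwf : (Tr.node q (#I) (fun i => a (em i)) (fun i => b (em i))
      (fun i => iv (f (em i)))).Wf := by
    refine ⟨hI, fun i => hf _, fun i => hab _, fun i i' h => hsuc _ _ (em.strictMono h), ?_⟩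
    intro h
    omega
  have h1 := x.bd _ hwf 0 N
  rw [ev_node] at h1
  have h2 : ∀ i : Fin (#I), ev (iv (f (em i))) (cut (a (em i)) (b (em i)) (cut 0 N |cx x|)) =
      ev (f (em i)).1 (cut (f (em i)).2.1 (f (em i)).2.2 |cx (Rx (a (em i)) (b (em i)) x)|) := by
    intro i
    have hi : em i ∈ I := by
      rw [hem]
      exact Finset.orderEmbOfFin_mem _ _ _
    rw [ev_iv, cx_Rx, abs_cut]
    congr 2
    rw [cut_cut, max_eq_left (Nat.zero_le _), min_eq_left (hN _ hi)]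
  have h3 : ∑ l ∈ I, (‖Rx (a l) (b l) x‖ - ε) =
      ∑ i : Fin (#I), (‖Rx (a (em i)) (b (em i)) x‖ - ε) := by
    have h4 : I = Finset.univ.map em.toEmbedding := by
      rw [hem]
      exact (Finset.map_orderEmbOfFin_univ I rfl).symm
    calc ∑ l ∈ I, (‖Rx (a l) (b l) x‖ - ε)
        = ∑ l ∈ Finset.univ.map em.toEmbedding, (‖Rx (a l) (b l) x‖ - ε) := by rw [← h4]
      _ = _ := by
        rw [Finset.sum_map]
        rfl
  rw [h3]
  have h5 : ∑ i : Fin (#I), (‖Rx (a (em i)) (b (em i)) x‖ - ε) ≤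
      ∑ i : Fin (#I), ev (iv (f (em i))) (cut (a (em i)) (b (em i)) (cut 0 N |cx x|)) := by
    refine Finset.sum_le_sum fun i _ => ?_
    rw [h2]
    exact hfc _
  refine h5.trans ((le_abs_self _).trans ?_)
  rw [← Real.norm_eq_abs]
  rw [norm_mul, norm_inv, Real.norm_natCast, inv_mul_le_iff₀ (mm_pos' q)] at h1
  exact h1

end LOW

/-- lower estimates -/
theorem t_LOW (q : ℕ) (hq : q % 2 = 0) (a b : ℕ → ℕ) (hab : ∀ l, a l ≤ b l)
    (hsuc : ∀ l l', l < l' → b l ≤ a l') (I : Finset ℕ) (hI : #I ≤ nn q) (x : GG) :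
    ∑ l ∈ I, ‖Rx (a l) (b l) x‖ ≤ mm q * ‖x‖ := by
  refine le_of_forall_pos_le_add fun δ hδ => ?_
  have hp : (0 : ℝ) < #I + 1 := by positivity
  have h := LOW.main q hq a b hab hsuc I hI x (δ / (#I + 1)) (by positivity)
  rw [Finset.sum_sub_distrib, Finset.sum_const, nsmul_eq_mul] at h
  have h2 : (#I : ℝ) * (δ / (#I + 1)) ≤ δ := by
    have : (#I : ℝ) * (δ / (#I + 1)) = δ * (#I / (#I + 1)) := by
      field_simp
    rw [this]
    refine mul_le_of_le_one_right hδ.le ?_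
    rw [div_le_one (by positivity)]
    linarith
  linarith

end

end Pool.Agent.Helper94.UG
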