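import Pool.Agent.Helper94.UG.Blk

set_option autoImplicit false

/-!
The final argument: the inclusion of `SS kU` into the Gowers space is in the perturbation class of the
disjointly non-singular operators on `SS kU × GG`.
-/

namespace Pool.Agent.Helper94.UG

open Finset Filter Topology

noncomputable section

/-- the Banach lattice -/
abbrev EE : Type := SS kU × SS idK

/-- the operator `(x, y) ↦ (0, x)` -/
def KK : EE →L[ℝ] EE :=
  (ContinuousLinearMap.inr ℝ (SS kU) (SS idK)).comp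
    ((jj (κ := kU)).toContinuousLinearMap.comp (ContinuousLinearMap.fst ℝ (SS kU) (SS idK)))

theorem KK_apply (x : SS kU) (y : GG) : KK (x, y) = (0, jj x) := rfl

section

variable (T : EE →L[ℝ] EE)

/-- the entries of an operator -/
def Ta : SS kU →L[ℝ] SS kU :=
  (ContinuousLinearMap.fst ℝ (SS kU) (SS idK)).comp
    (T.comp (ContinuousLinearMap.inl ℝ (SS kU) (SS idK)))

def Tb : GG →L[ℝ] SS kU :=
  (ContinuousLinearMap.fst ℝ (SS kU) (SS idK)).comp
    (T.comp (ContinuousLinearMap.inr ℝ (SS kU) (SS idK)))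

def Tc : SS kU →L[ℝ] GG :=
  (ContinuousLinearMap.snd ℝ (SS kU) (SS idK)).comp
    (T.comp (ContinuousLinearMap.inl ℝ (SS kU) (SS idK)))

def Td : GG →L[ℝ] GG :=
  (ContinuousLinearMap.snd ℝ (SS kU) (SS idK)).comp
    (T.comp (ContinuousLinearMap.inr ℝ (SS kU) (SS idK)))

theorem T_apply (x : SS kU) (y : GG) : T (x, y) = (Ta T x + Tb T y, Tc T x + Td T y) := by
  have h : ((x, y) : EE) = (x, 0) + (0, y) := by
    rw [Prod.mk_add_mk, add_zero, zero_add]
  rw [h, map_add]
  rfl

end

/-- the restriction of a disjointly non-singular operator to the second summand has a diagonal which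
is bounded below -/
theorem step1 (T : EE →L[ℝ] EE) (hT : T ∈ DNS EE EE) :
    ∃ (n0 : ℕ) (τ : ℝ), 0 < τ ∧ ∀ n, n0 ≤ n → τ ≤ |dg (Td T) n| := by
  by_contra hcon
  push Not at hcon
  have h1 : ∀ l : ℕ, ∃ᶠ n in atTop, |dg (Td T) n| < 1 / ((l : ℝ) + 1) := by
    intro l
    rw [frequently_atTop]
    intro N
    obtain ⟨n, hn, hn'⟩ := hcon N (1 / ((l : ℝ) + 1)) (by positivity)
    exact ⟨n, hn, hn'⟩
  obtain ⟨φ, hφ, hφD⟩ := extraction_forall_of_frequently h1
  have hris : Ris 1 (fun l => eG (φ l)) := by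
    refine ⟨φ, fun l => φ l + 1, fun l => l, ?_⟩
    have h2 := hERIS φ hφ
    have h3 : (fun l => |cx (eG (φ l))|) = fun l => e (φ l) := by
      funext l
      rw [cx_eG, abs_e]
    rw [h3]
    exact h2
  have hd : Tendsto (fun l => Td T (eG (φ l))) atTop (𝓝 0) := by
    have h2 := near_diag (Td T) 1 _ hris
    have h3 : Tendsto (fun l => mulL (dg (Td T)) ‖Td T‖ (dg_le (Td T)) (eG (φ l))) atTop (𝓝 0) := by
      refine squeeze_zero_norm (a := fun l : ℕ => 1 / ((l : ℝ) + 1)) (fun l => ?_)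
        tendsto_one_div_add_atTop_nhds_zero_nat
      have h4 : ‖mulL (dg (Td T)) ‖Td T‖ (dg_le (Td T)) (eG (φ l))‖ ≤
          ‖dg (Td T) (φ l) • eG (φ l)‖ := by
        refine SS.norm_mono fun n => ?_
        rw [cx_mulL, map_smul, cx_eG, Pi.abs_apply, Pi.abs_apply, Pi.mul_apply, Pi.smul_apply,
          smul_eq_mul]
        unfold e
        split_ifs with hn
        · rw [hn]
        · simp
      refine h4.trans ?_
      rw [norm_smul, norm_eG, mul_one]
      exact (hφD l).le
    have h4 := h2.add h3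
    rw [add_zero] at h4
    refine h4.congr fun l => ?_
    rw [sub_add_cancel]
  have hb := to_U (Tb T) 1 _ hris
  refine not_DNS T (fun l => ((0 : SS kU), eG (φ l))) ?_ 1 one_pos ?_ ?_ hT
  · rw [disj_iff]
    intro i m n hmn
    rcases i with i | i
    · left
      rw [co_inl, map_zero]
      rfl
    · rw [co_inr, co_inr, cx_eG, cx_eG]
      by_cases h2 : i = φ m
      · right
        unfold e
        rw [if_neg]
        rw [h2]
        exact fun h => hmn (hφ.injective h)
      · left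
        unfold e
        rw [if_neg h2]
  · intro l
    rw [Prod.norm_def]
    exact le_max_of_le_right (norm_eG _).ge
  · have h2 := hb.prodMk_nhds hd
    refine h2.congr fun l => ?_
    rw [T_apply, map_zero, map_zero, zero_add, zero_add]

/-- an operator with diagonal bounded below is bounded below on rapidly increasing sequences -/
theorem d_large (d : GG →L[ℝ] GG) (n0 : ℕ) (τ : ℝ) (hτ : 0 < τ)
    (hD : ∀ n, n0 ≤ n → τ ≤ |dg d n|) (C : ℝ) (z : ℕ → GG) (hz : Ris C z)
    (hz1 : ∀ l, ‖z l‖ = 1) : ∀ᶠ l in atTop, τ / 2 ≤ ‖d (z l)‖ := by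
  have h1 := near_diag d C z hz
  obtain ⟨A, B, J, hR⟩ := hz
  have h2 := (Metric.tendsto_nhds.1 h1) (τ / 2) (by positivity)
  filter_upwards [h2, hR.tend.eventually (eventually_ge_atTop n0)] with l h3 h4
  rw [dist_zero_right] at h3
  have h5 : ‖τ • z l‖ ≤ ‖mulL (dg d) ‖d‖ (dg_le d) (z l)‖ := by
    refine SS.norm_mono fun n => ?_
    rw [cx_mulL, map_smul, Pi.abs_apply, Pi.abs_apply, Pi.mul_apply, Pi.smul_apply, smul_eq_mul,
      abs_mul, abs_mul]
    by_cases hn : n < A l
    · have h5 : |cx (z l) n| = 0 := hR.succ.1 l n (Or.inl hn)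
      rw [h5, mul_zero, mul_zero]
    · refine mul_le_mul_of_nonneg_right ?_ (abs_nonneg _)
      rw [abs_of_pos hτ]
      exact hD n (h4.trans (not_lt.1 hn))
  rw [norm_smul, hz1, mul_one, Real.norm_of_nonneg hτ.le] at h5
  have h6 := norm_sub_norm_le (mulL (dg d) ‖d‖ (dg_le d) (z l)) (d (z l))
  rw [norm_sub_rev] at h6
  linarith

/-- normalised successive vectors `P l` in the first summand on which `Ta T` is small -/
theorem star (T : EE →L[ℝ] EE) (n0 : ℕ) (τ : ℝ) (hτ : 0 < τ)
    (hD : ∀ n, n0 ≤ n → τ ≤ |dg (Td T) n|) (hTK : T + KK ∉ DNS EE EE) :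
    ∃ (P : ℕ → SS kU) (β : ℕ → ℕ), StrictMono β ∧ (∀ l, OnLv (β l) (β (l + 1)) (cx (P l))) ∧
      (∀ l, ‖P l‖ = 1) ∧ ∀ l, ‖Ta T (P l)‖ ≤ (1 / 4) ^ l := by
  -- the vectors
  have hstep : ∀ (N j : ℕ), ∃ (M : ℕ) (v : EE), N < M ∧ OnLv N M (cx v.1) ∧ OnLv N M (cx v.2) ∧
      ‖v‖ = 1 ∧ ‖(T + KK) v‖ ≤ (1 / 4) ^ j := fun N j =>
    exists_small (T + KK) hTK N ((1 / 4) ^ j) (by positivity)
  choose Mf vf hNM hv1 hv2 hvn hvS using hstep
  obtain ⟨α, hα0, hα⟩ : ∃ α : ℕ → ℕ, α 0 = 0 ∧ ∀ j, α (j + 1) = Mf (α j) j :=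
    ⟨fun j => Nat.rec 0 (fun j a => Mf a j) j, rfl, fun _ => rfl⟩
  have hαm : StrictMono α := strictMono_nat_of_lt_succ fun j => by rw [hα]; exact hNM _ _
  obtain ⟨p, hp⟩ : ∃ p : ℕ → SS kU, p = fun j => (vf (α j) j).1 := ⟨_, rfl⟩
  obtain ⟨q, hq⟩ : ∃ q : ℕ → GG, q = fun j => (vf (α j) j).2 := ⟨_, rfl⟩
  have hpq : ∀ j, (p j, q j) = vf (α j) j := fun j => by rw [hp, hq]
  have hpL : ∀ j, OnLv (α j) (α (j + 1)) (cx (p j)) := fun j => by
    rw [hp, hα]; exact hv1 _ _
  have hqL : ∀ j, OnLv (α j) (α (j + 1)) (cx (q j)) := fun j => by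
    rw [hq, hα]; exact hv2 _ _
  have hn : ∀ j, max ‖p j‖ ‖q j‖ = 1 := fun j => by
    have h := hvn (α j) j
    rw [← hpq, Prod.norm_def] at h
    exact h
  have hS : ∀ j, ‖(T + KK) (p j, q j)‖ ≤ (1 / 4) ^ j := fun j => by
    rw [hpq]; exact hvS _ _
  have hSap : ∀ (x : SS kU) (y : GG), (T + KK) (x, y) =
      (Ta T x + Tb T y, Tc T x + Td T y + jj x) := by
    intro x y
    have h : (T + KK) (x, y) = T (x, y) + KK (x, y) := rfl
    rw [h, T_apply, KK_apply, Prod.mk_add_mk, add_zero]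
  -- not yet normalised
  have pre : ∃ (P : ℕ → SS kU) (β : ℕ → ℕ) (κ₀ : ℝ), StrictMono β ∧ 0 < κ₀ ∧
      (∀ l, OnLv (β l) (β (l + 1)) (cx (P l))) ∧ (∀ᶠ l in atTop, κ₀ ≤ ‖P l‖) ∧
      Tendsto (fun l => Ta T (P l)) atTop (𝓝 0) := by
    by_cases hq0 : Tendsto q atTop (𝓝 0)
    · -- the second components tend to zero
      refine ⟨p, α, 1 / 2, hαm, by norm_num, hpL, ?_, ?_⟩
      · have h1 := (Metric.tendsto_nhds.1 hq0) (1 / 2) (by norm_num)
        filter_upwards [h1] with j hj
        rw [dist_zero_right] at hj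
        have h2 := hn j
        rcases max_choice ‖p j‖ ‖q j‖ with h3 | h3
        · rw [h3] at h2
          linarith
        · rw [h3] at h2
          linarith
      · have h1 : Tendsto (fun j => (T + KK) (p j, q j)) atTop (𝓝 0) :=
          squeeze_zero_norm hS (tendsto_pow_atTop_nhds_zero_of_lt_one (by norm_num) (by norm_num))
        have h2 : Tendsto (fun j => ((T + KK) (p j, q j)).1) atTop (𝓝 0) :=
          (continuous_fst.tendsto _).comp h1
        have h3 : Tendsto (fun j => Tb T (q j)) atTop (𝓝 0) := by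
          have := ((Tb T).continuous.tendsto 0).comp hq0
          rwa [map_zero] at this
        have h4 := h2.sub h3
        rw [sub_zero] at h4
        refine h4.congr fun j => ?_
        rw [hSap]
        exact add_sub_cancel_right _ _
    · -- a subsequence of the second components is bounded below
      rw [Metric.tendsto_atTop] at hq0
      push Not at hq0
      obtain ⟨δ, hδ, hfr⟩ := hq0
      have hfr' : ∃ᶠ l in atTop, δ ≤ ‖q l‖ := by
        rw [frequently_atTop]
        intro N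
        obtain ⟨n, hn, hd⟩ := hfr N
        exact ⟨n, hn, by rwa [dist_zero_right] at hd⟩
      obtain ⟨φ, hφ, hφδ⟩ := extraction_of_frequently_atTop hfr'
      have hqp : ∀ l, 0 < ‖q (φ l)‖ := fun l => lt_of_lt_of_le hδ (hφδ l)
      obtain ⟨a', ha'⟩ : ∃ a' : ℕ → ℕ, a' = fun l => α (φ l) := ⟨_, rfl⟩
      have ha'm : StrictMono a' := by rw [ha']; exact hαm.comp hφ
      obtain ⟨z, N, M, c, hz, hz1, hMN, hlN, hNM', hzc, hc⟩ := risb
        (fun l => (‖q (φ l)‖⁻¹ : ℝ) • q (φ l)) a' (fun l => norm_normalize (hqp l)) ha'm (fun l => by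
          rw [ha']
          exact onLv_smul (onLv_sub hαm hφ (hqL (φ l))) _)
      obtain ⟨P, hP⟩ : ∃ P : ℕ → SS kU, P = fun l =>
        ∑ n ∈ Ico (N l) (M l), c l n • ((‖q (φ n)‖⁻¹ : ℝ) • p (φ n)) := ⟨_, rfl⟩
      have hSP : Tendsto (fun l => (T + KK) (P l, z l)) atTop (𝓝 0) := by
        have h1 := comb_small (fun n => (T + KK) ((‖q (φ n)‖⁻¹ : ℝ) • (p (φ n), q (φ n)))) (1 / δ)
          (by positivity) (fun n => by
            rw [map_smul, norm_smul, norm_inv, norm_norm]
            refine mul_le_mul ?_ ((hS _).trans ?_) (norm_nonneg _) (by positivity)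
            · rw [one_div]
              exact inv_anti₀ hδ (hφδ n)
            · exact pow_le_pow_of_le_one (by norm_num) (by norm_num) (hφ.id_le n)) N M c hlN hc
        refine h1.congr fun l => ?_
        simp only [← map_smul]
        rw [← map_sum]
        congr 1
        rw [hP, hzc]
        refine Prod.ext ?_ ?_
        · rw [Prod.fst_sum]
          rfl
        · rw [Prod.snd_sum]
          rfl
      have hbz := to_U (Tb T) 3 z hz
      refine ⟨P, fun l => a' (N l), τ / 4 / (‖Tc T‖ + 1), ?_, by positivity, ?_, ?_, ?_⟩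
      · exact strictMono_nat_of_lt_succ fun l => ha'm (lt_of_lt_of_le (hNM' l) (hMN l))
      · intro l
        rw [hP]
        refine (onLv_comb (fun n => (‖q (φ n)‖⁻¹ : ℝ) • p (φ n)) a' ha'm.monotone (fun n => ?_)
          (c l) (N l) (M l)).mono le_rfl (ha'm.monotone (hMN l))
        rw [ha']
        exact onLv_smul (onLv_sub hαm hφ (hpL (φ n))) _
      · have h1 : Tendsto (fun l => ((T + KK) (P l, z l)).2) atTop (𝓝 0) :=
          (continuous_snd.tendsto _).comp hSP
        have h2 := (Metric.tendsto_nhds.1 h1) (τ / 4) (by positivity)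
        filter_upwards [h2, d_large (Td T) n0 τ hτ hD 3 z hz hz1] with l h3 h4
        rw [dist_zero_right, hSap] at h3
        have h3' : ‖Tc T (P l) + Td T (z l) + jj (P l)‖ < τ / 4 := h3
        have h5 : ‖Td T (z l)‖ ≤ ‖Tc T (P l) + Td T (z l) + jj (P l)‖ +
            ‖Tc T (P l) + jj (P l)‖ := by
          have h6 := norm_sub_le (Tc T (P l) + Td T (z l) + jj (P l)) (Tc T (P l) + jj (P l))
          have h7 : Tc T (P l) + Td T (z l) + jj (P l) - (Tc T (P l) + jj (P l)) =
              Td T (z l) := by abel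
          rwa [h7] at h6
        have h6 : ‖Tc T (P l) + jj (P l)‖ ≤ (‖Tc T‖ + 1) * ‖P l‖ := by
          refine (norm_add_le _ _).trans ?_
          rw [add_mul, one_mul, (jj (κ := kU)).norm_map]
          have := (Tc T).le_opNorm (P l)
          linarith
        rw [div_le_iff₀ (by positivity)]
        linarith
      · have h1 : Tendsto (fun l => ((T + KK) (P l, z l)).1) atTop (𝓝 0) :=
          (continuous_fst.tendsto _).comp hSP
        have h4 := h1.sub hbz
        rw [sub_zero] at h4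
        refine h4.congr fun j => ?_
        rw [hSap]
        exact add_sub_cancel_right _ _
  -- normalise and pass to a subsequence
  obtain ⟨P, β, κ₀, hβ, hκ, hPL, hPn, hPa⟩ := pre
  have h1 : ∀ n : ℕ, ∃ᶠ k in atTop, κ₀ ≤ ‖P k‖ ∧ ‖Ta T (P k)‖ ≤ κ₀ * (1 / 4) ^ n := by
    intro n
    apply Eventually.frequently
    have h2 := (Metric.tendsto_nhds.1 hPa) (κ₀ * (1 / 4) ^ n) (by positivity)
    filter_upwards [h2, hPn] with k hk hk'
    rw [dist_zero_right] at hk
    exact ⟨hk', hk.le⟩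
  obtain ⟨φ, hφ, hφP⟩ := extraction_forall_of_frequently h1
  have hpos : ∀ l, 0 < ‖P (φ l)‖ := fun l => lt_of_lt_of_le hκ (hφP l).1
  refine ⟨fun l => (‖P (φ l)‖⁻¹ : ℝ) • P (φ l), fun l => β (φ l), hβ.comp hφ, fun l =>
    onLv_smul (onLv_sub hβ hφ (hPL (φ l))) _, fun l => norm_normalize (hpos l), fun l => ?_⟩
  rw [map_smul, norm_smul, norm_inv, norm_norm, inv_mul_le_iff₀ (hpos l)]
  exact (hφP l).2.trans (mul_le_mul_of_nonneg_right (hφP l).1 (by positivity))

/-- the inverse of a function beyond `n0` -/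
def invD (D : V) (n0 : ℕ) : V := fun n => if n0 ≤ n then (D n)⁻¹ else 0

theorem invD_le {D : V} {n0 : ℕ} {τ : ℝ} (hτ : 0 < τ) (hD : ∀ n, n0 ≤ n → τ ≤ |D n|) (n : ℕ) :
    |invD D n0 n| ≤ τ⁻¹ := by
  unfold invD
  split_ifs with h
  · rw [abs_inv]
    exact inv_anti₀ hτ (hD n h)
  · rw [abs_zero]
    positivity

/-- **The operator is in the perturbation class.** -/
theorem KK_pert (T : EE →L[ℝ] EE) (hT : T ∈ DNS EE EE) : T + KK ∈ DNS EE EE := by
  by_contra hTK
  obtain ⟨n0, τ, hτ, hD⟩ := step1 T hT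
  obtain ⟨P, β, hβ, hPL, hPn, hPa⟩ := star T n0 τ hτ hD hTK
  -- rapidly increasing blocks
  have hsβ : StrictMono fun l => kU.s (β l) := kU.mono.comp hβ
  obtain ⟨z, N, M, c, hz, hz1, hMN, hlN, hNM, hzc, hc⟩ := risb (fun l => jj (P l))
    (fun l => kU.s (β l)) (fun l => by rw [(jj (κ := kU)).norm_map]; exact hPn l) hsβ
    (fun l => (hPL l).pull)
  obtain ⟨Q, hQ⟩ : ∃ Q : ℕ → SS kU, Q = fun l => ∑ n ∈ Ico (N l) (M l), c l n • P n := ⟨_, rfl⟩
  have hzQ : ∀ l, z l = jj (Q l) := fun l => by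
    rw [hzc, hQ, map_sum]
    exact Finset.sum_congr rfl fun n _ => (map_smul _ _ _).symm
  have hQn : ∀ l, ‖Q l‖ = 1 := fun l => by rw [← (jj (κ := kU)).norm_map, ← hzQ, hz1]
  have hQris : Ris 3 (fun l => jj (Q l)) := by
    have : (fun l => jj (Q l)) = z := funext fun l => (hzQ l).symm
    rw [this]
    exact hz
  have hQL : ∀ l, OnLv (β (N l)) (β (M l)) (cx (Q l)) := fun l => by
    rw [hQ]
    exact onLv_comb P β hβ.monotone hPL (c l) _ _
  have hQa : Tendsto (fun l => Ta T (Q l)) atTop (𝓝 0) := by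
    have h1 := comb_small (fun n => Ta T (P n)) 1 zero_le_one (fun n => by
      rw [one_mul]; exact hPa n) N M c hlN hc
    refine h1.congr fun l => ?_
    rw [hQ, map_sum]
    exact Finset.sum_congr rfl fun n _ => (map_smul _ _ _).symm
  obtain ⟨β', hβ'⟩ : ∃ β' : ℕ → ℕ, β' = fun l => β (N l) := ⟨_, rfl⟩
  have hβ'm : StrictMono β' := by
    rw [hβ']
    exact strictMono_nat_of_lt_succ fun l => hβ (lt_of_lt_of_le (hNM l) (hMN l))
  have hQL' : ∀ l, OnLv (β' l) (β' (l + 1)) (cx (Q l)) := fun l => by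
    rw [hβ']
    exact (hQL l).mono le_rfl (hβ.monotone (hMN l))
  by_cases hcase : ∀ δ > 0, ∃ᶠ l in atTop, ‖Tc T (Q l)‖ < δ
  · -- first case
    have h1 : ∀ l : ℕ, ∃ᶠ k in atTop, ‖Tc T (Q k)‖ < 1 / ((l : ℝ) + 1) := fun l =>
      hcase _ (by positivity)
    obtain ⟨φ, hφ, hφc⟩ := extraction_forall_of_frequently h1
    refine not_DNS T (fun l => (Q (φ l), (0 : GG))) ?_ 1 one_pos ?_ ?_ hT
    · rw [disj_iff]
      intro i m n hmn
      rcases i with i | i
      · refine coord_disj Q β' (fun l => β' (l + 1)) hQL' (fun l => (hβ'm (Nat.lt_succ_self l)).le)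
          (fun l => le_rfl) i (φ m) (φ n) (fun h => hmn (hφ.injective h))
      · left
        rw [co_inr, map_zero]
        rfl
    · intro l
      rw [Prod.norm_def]
      exact le_max_of_le_left (hQn _).ge
    · have h2 : Tendsto (fun l => Tc T (Q (φ l))) atTop (𝓝 0) :=
        squeeze_zero_norm (fun l => (hφc l).le) tendsto_one_div_add_atTop_nhds_zero_nat
      have h3 := (hQa.comp hφ.tendsto_atTop).prodMk_nhds h2
      refine h3.congr fun l => ?_
      rw [T_apply, map_zero, map_zero, add_zero, add_zero]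
      rfl
  · -- second case
    push Not at hcase
    obtain ⟨δ, hδ, hcδ⟩ := hcase
    obtain ⟨φ, γ, hφ, hγ, hφγ, hφP⟩ := glide (fun l => Tc T (Q l))
      (fun N => t_LO hELS hAVG (jj (κ := kU)) 3 Q hQris (Tc T) N)
      (fun n k => δ ≤ ‖Tc T (Q k)‖ ∧ ‖Ta T (Q k)‖ ≤ (1 / 4) ^ n) (fun n => by
        have h2 := (Metric.tendsto_nhds.1 hQa) ((1 / 4) ^ n) (by positivity)
        filter_upwards [h2, hcδ] with k hk hk'
        rw [dist_zero_right] at hk
        exact ⟨hk', hk.le⟩) (fun n => δ / 2 * (1 / 4) ^ n) (fun n => by positivity)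
    obtain ⟨v, hv⟩ : ∃ v : ℕ → GG, v = fun l => Rx (γ l) (γ (l + 1)) (Tc T (Q (φ l))) := ⟨_, rfl⟩
    have hvd : ∀ l, ‖Tc T (Q (φ l)) - v l‖ ≤ δ / 2 * (1 / 4) ^ l := fun l => by
      rw [hv]; exact hφγ l
    have hvn : ∀ l, δ / 2 ≤ ‖v l‖ := by
      intro l
      have h1 := norm_sub_norm_le (Tc T (Q (φ l))) (v l)
      have h2 := hvd l
      have h3 := (hφP l).1
      have h4 : δ / 2 * (1 / 4) ^ l ≤ δ / 2 :=
        mul_le_of_le_one_right (by positivity) (pow_le_one₀ (by norm_num) (by norm_num))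
      linarith
    have hvp : ∀ l, 0 < ‖v l‖ := fun l => lt_of_lt_of_le (by positivity) (hvn l)
    have hvL : ∀ l, OnLv (γ l) (γ (l + 1)) (cx (v l)) := fun l => by
      rw [hv, cx_Rx]
      exact OnLv_cut _ _ _
    obtain ⟨z', N', M', c', hz', hz'1, hMN', hlN', hNM', hzc', hc'⟩ := risb
      (fun l => (‖v l‖⁻¹ : ℝ) • v l) γ (fun l => norm_normalize (hvp l)) hγ
      (fun l => onLv_smul (hvL l) _)
    obtain ⟨Q', hQ'⟩ : ∃ Q' : ℕ → SS kU, Q' = fun m =>
      ∑ l ∈ Ico (N' m) (M' m), c' m l • ((‖v l‖⁻¹ : ℝ) • Q (φ l)) := ⟨_, rfl⟩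
    have hQ'a : Tendsto (fun m => Ta T (Q' m)) atTop (𝓝 0) := by
      have h1 := comb_small (fun l => Ta T ((‖v l‖⁻¹ : ℝ) • Q (φ l))) (2 / δ) (by positivity)
        (fun l => by
          rw [map_smul, norm_smul, norm_inv, norm_norm]
          refine mul_le_mul ?_ (hφP l).2 (norm_nonneg _) (by positivity)
          rw [inv_le_comm₀ (hvp l) (by positivity), inv_div]
          exact hvn l) N' M' c' hlN' hc'
      refine h1.congr fun m => ?_
      rw [hQ', map_sum]
      exact Finset.sum_congr rfl fun n _ => (map_smul _ _ _).symm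
    have hQ'c : Tendsto (fun m => Tc T (Q' m) - z' m) atTop (𝓝 0) := by
      have h1 := comb_small (fun l => Tc T ((‖v l‖⁻¹ : ℝ) • Q (φ l)) - (‖v l‖⁻¹ : ℝ) • v l) 1
        zero_le_one (fun l => by
          rw [map_smul, ← smul_sub, norm_smul, norm_inv, norm_norm, one_mul,
            inv_mul_le_iff₀ (hvp l)]
          refine (hvd l).trans ?_
          exact mul_le_mul_of_nonneg_right (hvn l) (by positivity)) N' M' c' hlN' hc'
      refine h1.congr fun m => ?_
      rw [hQ', map_sum, hzc', ← Finset.sum_sub_distrib]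
      exact Finset.sum_congr rfl fun n _ => by simp only [smul_sub, map_smul]
    obtain ⟨d, hd⟩ : ∃ d, d = Td T := ⟨_, rfl⟩
    rw [← hd] at hD
    obtain ⟨x, hx⟩ : ∃ x : ℕ → GG, x = fun m =>
      τ • mulL (invD (dg d) n0) τ⁻¹ (invD_le hτ hD) (z' m) := ⟨_, rfl⟩
    have hxcx : ∀ m n, cx (x m) n = τ * (invD (dg d) n0 n * cx (z' m) n) := by
      intro m n
      rw [hx, map_smul, Pi.smul_apply, cx_mulL, Pi.mul_apply, smul_eq_mul]
    have hxle : ∀ m, |cx (x m)| ≤ |cx (z' m)| := by
      intro m n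
      rw [Pi.abs_apply, Pi.abs_apply, hxcx, ← mul_assoc, abs_mul]
      refine mul_le_of_le_one_left (abs_nonneg _) ?_
      rw [abs_mul, abs_of_pos hτ]
      calc τ * |invD (dg d) n0 n| ≤ τ * τ⁻¹ :=
            mul_le_mul_of_nonneg_left (invD_le hτ hD n) hτ.le
        _ = 1 := mul_inv_cancel₀ hτ.ne'
    have hxris : Ris 3 x := hz'.of_le hxle
    have hbx := to_U (Tb T) 3 x hxris
    have hdx := near_diag d 3 x hxris
    have hzL : ∀ m, OnLv (γ (N' m)) (γ (M' m)) (cx (z' m)) := fun m => by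
      rw [hzc']
      exact onLv_comb _ γ hγ.monotone (fun l => onLv_smul (hvL l) _) (c' m) _ _
    have hev : ∀ᶠ m in atTop, ∀ n, n < n0 → cx (z' m) n = 0 := by
      filter_upwards [eventually_ge_atTop n0] with m hm n hn
      exact hzL m n (Or.inl (lt_of_lt_of_le hn (hm.trans ((hlN' m).trans (hγ.id_le _)))))
    have hDx : ∀ᶠ m in atTop, mulL (dg d) ‖d‖ (dg_le d) (x m) = τ • z' m := by
      filter_upwards [hev] with m hm
      apply cx_injective
      funext n
      rw [cx_mulL, Pi.mul_apply, hxcx, map_smul, Pi.smul_apply, smul_eq_mul]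
      by_cases hn : n0 ≤ n
      · have h1 : dg d n ≠ 0 := by
          intro h2
          have h3 := hD n hn
          rw [h2, abs_zero] at h3
          linarith
        unfold invD
        rw [if_pos hn]
        field_simp
      · rw [hm n (not_le.1 hn)]
        ring
    obtain ⟨m0, hm0⟩ := eventually_atTop.1 hDx
    -- the disjoint sequence
    refine not_DNS T (fun m => (τ • Q' (m + m0), - x (m + m0))) ?_ (τ / (‖d‖ + 1)) (by positivity)
      ?_ ?_ hT
    · rw [disj_iff]
      intro i m n hmn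
      rcases i with i | i
      · rw [co_inl, co_inl]
        obtain ⟨β'', hβ''⟩ : ∃ β'' : ℕ → ℕ, β'' = fun l => β' (φ l) := ⟨_, rfl⟩
        have hβ''m : StrictMono β'' := by rw [hβ'']; exact hβ'm.comp hφ
        have hQ'L : ∀ m, OnLv (β'' (N' m)) (β'' (M' m)) (cx (τ • Q' m)) := fun m => by
          refine onLv_smul ?_ _
          rw [hQ']
          refine onLv_comb _ β'' hβ''m.monotone (fun l => onLv_smul ?_ _) (c' m) _ _
          rw [hβ'']
          exact onLv_sub hβ'm hφ (hQL' (φ l))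
        exact coord_disj (fun m => τ • Q' m) (fun m => β'' (N' m)) (fun m => β'' (M' m)) hQ'L
          (fun m => hβ''m.monotone (hNM' m).le) (fun m => hβ''m.monotone (hMN' m)) i (m + m0)
          (n + m0) (by omega)
      · rw [co_inr, co_inr]
        have hxL : ∀ m, OnLv (γ (N' m)) (γ (M' m)) (cx (- x m)) := fun m k hk => by
          rw [map_neg, Pi.neg_apply, hxcx, hzL m k hk]
          ring
        exact coord_disj (fun m => - x m) (fun m => γ (N' m)) (fun m => γ (M' m)) hxL
          (fun m => hγ.monotone (hNM' m).le) (fun m => hγ.monotone (hMN' m)) i (m + m0)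
          (n + m0) (by omega)
    · intro m
      rw [Prod.norm_def]
      refine le_max_of_le_right ?_
      show τ / (‖d‖ + 1) ≤ ‖- x (m + m0)‖
      rw [norm_neg, div_le_iff₀ (by positivity)]
      have h1 := norm_mulL_le (dg d) ‖d‖ (dg_le d) (x (m + m0))
      rw [hm0 (m + m0) (Nat.le_add_left _ _), norm_smul, hz'1, mul_one,
        Real.norm_of_nonneg hτ.le] at h1
      have h2 := norm_nonneg (x (m + m0))
      nlinarith
    · have h1 : Tendsto (fun m => Ta T (τ • Q' m) - Tb T (x m)) atTop (𝓝 0) := by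
        have h2 := (hQ'a.const_smul τ).sub hbx
        rw [smul_zero, sub_zero] at h2
        refine h2.congr fun m => ?_
        rw [map_smul]
      have h3 : Tendsto (fun m => Tc T (τ • Q' m) - d (x m)) atTop (𝓝 0) := by
        have h2 := (hQ'c.const_smul τ).sub hdx
        rw [smul_zero, sub_zero] at h2
        refine h2.congr' ?_
        filter_upwards [hDx] with m hm
        rw [hm, map_smul, smul_sub]
        abel
      have h4 := (h1.prodMk_nhds h3).comp (tendsto_add_atTop_nat m0)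
      refine h4.congr fun m => ?_
      rw [T_apply]
      show (Ta T (τ • Q' (m + m0)) - Tb T (x (m + m0)), Tc T (τ • Q' (m + m0)) - d (x (m + m0))) = _
      rw [map_neg, map_neg, ← sub_eq_add_neg, ← sub_eq_add_neg, hd]

/-- the operator is not disjointly strictly singular -/
theorem KK_not_DSS : KK ∉ DSS EE EE := by
  intro h
  refine h ⟨fun k => ((eK k : SS kU), (0 : GG)), ?_, ?_, 1, one_pos, ?_⟩
  · intro k hk
    exact eK_ne k (congrArg Prod.fst hk)
  · rw [disj_iff]
    intro i m n hmn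
    rcases i with i | i
    · rw [co_inl, co_inl, cx_eK, cx_eK]
      by_cases h2 : i = m
      · right
        unfold e
        rw [if_neg]
        rw [h2]
        exact hmn
      · left
        unfold e
        rw [if_neg h2]
    · left
      rw [co_inr, map_zero]
      rfl
  · have hcl : IsClosed {v : EE | 1 * ‖v‖ ≤ ‖KK v‖} :=
      isClosed_le (continuous_const.mul continuous_norm) KK.continuous.norm
    intro v hv
    refine closure_minimal ?_ hcl hv
    intro u hu
    have h1 : u.2 = 0 := by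
      refine Submodule.span_induction (p := fun u _ => u.2 = 0) ?_ rfl ?_ ?_ hu
      · rintro _ ⟨k, rfl⟩
        rfl
      · intro x y _ _ hx hy
        rw [Prod.snd_add, hx, hy, add_zero]
      · intro a x _ hx
        show a • x.2 = 0
        rw [hx, smul_zero]
    show 1 * ‖u‖ ≤ ‖KK u‖
    have h2 : KK u = (0, jj u.1) := rfl
    rw [h2, Prod.norm_def, Prod.norm_def, h1, norm_zero, norm_zero, (jj (κ := kU)).norm_map, one_mul,
      max_comm]

theorem EE_ordCont : OrdCont EE := (OC.prod (SS.oc kU) (SS.oc idK)).ordCont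

end

end Pool.Agent.Helper94.UG
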