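import Pool.Agent.Helper94.UG.Stm1

/-! Vectors with the estimates `Av` form a rapidly increasing sequence. -/

set_option autoImplicit false

namespace Pool.Agent.Helper94.UG

open Finset Filter Topology

noncomputable section

/-- vectors with the estimates `Av` for rapidly increasing `q k` form a rapidly increasing sequence -/
theorem t_RAV (C : ℝ) (y : ℕ → V) (A B q : ℕ → ℕ) (hC : 1 ≤ C) (hs : Succ y A B)
    (ht : Tendsto A atTop atTop) (hq : StrictMono q) (hav : ∀ k, Av C (q k) (y k))
    (hk : ∀ k, 3 * C * ((mm (q k) : ℝ) ^ 2 / nn (q k)) + C * ((mm (q k) : ℝ) / mm (q (k + 1))) ≤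
      (1 / 2) ^ k) : RIS (4 * C) y A B q := by
  exact
    { hC := by linarith
      succ := hs
      tend := ht
      bd := fun l => (hav l).bd
      mono := hq
      low := by
        intro l t hw i hi hil α β
        refine ((hav l).low t hw i hi hil α β).trans ?_
        have h1 := mm_pos' i
        rw [div_le_div_iff_of_pos_right h1]
        linarith
      high := by
        intro l t hw i hi hil α β
        refine ((hav l).high t hw i hi α β).trans (le_trans ?_ (hk l))
        have h1 := mm_pos' (q l)
        have h2 := mm_pos' (q (l + 1))
        have h3 : (mm (q (l + 1)) : ℝ) ≤ mm i := by exact_mod_cast mm_mono hil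
        have h4 : (mm (q l) : ℝ) / mm i ≤ mm (q l) / mm (q (l + 1)) :=
          div_le_div_of_nonneg_left h1.le h2 h3
        have h5 : C * ((mm (q l) : ℝ) / mm i) ≤ C * (mm (q l) / mm (q (l + 1))) :=
          mul_le_mul_of_nonneg_left h4 (by linarith)
        linarith }

end

end Pool.Agent.Helper94.UG
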