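import Pool.Agent.Helper94.UG.ELL
import Pool.Agent.Helper94.UG.Stm1

set_option autoImplicit false

/-!
Rapidly increasing sequences in block subspaces, after the library module `Q73.GM.RISB`.
-/

namespace Pool.Agent.Helper94.UG

open Finset Filter Topology

noncomputable section

namespace RISB

theorem onLv_sum {ι : Type} (s : Finset ι) (f : ι → V) (A B : ℕ) (h : ∀ i ∈ s, OnLv A B (f i)) :
    OnLv A B (∑ i ∈ s, f i) := by
  intro n hn
  rw [Finset.sum_apply]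
  exact Finset.sum_eq_zero fun i hi => h i hi n hn

theorem onLv_abs {A B : ℕ} {x : V} (h : OnLv A B x) : OnLv A B |x| := by
  intro n hn
  rw [Pi.abs_apply, h n hn, abs_zero]

theorem onLv_comb (x : ℕ → GG) (a : ℕ → ℕ) (ha : Monotone a)
    (hs : ∀ n, OnLv (a n) (a (n + 1)) (cx (x n))) (c : ℕ → ℝ) (N M : ℕ) :
    OnLv (a N) (a M) (cx (∑ n ∈ Ico N M, c n • x n)) := by
  rw [map_sum]
  refine onLv_sum _ _ _ _ fun n hn => ?_
  obtain ⟨h1, h2⟩ := Finset.mem_Ico.1 hn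
  intro k hk
  have h3 := ((hs n).mono (ha h1) (ha (Nat.succ_le_of_lt h2))) k hk
  rw [map_smul]
  show c n • cx (x n) k = 0
  rw [h3, smul_zero]

theorem sum_blocks {E : Type} [AddCommMonoid E] (f : ℕ → E) (N : ℕ → ℕ) (hN : Monotone N) (k : ℕ) :
    ∑ i ∈ range k, ∑ n ∈ Ico (N i) (N (i + 1)), f n = ∑ n ∈ Ico (N 0) (N k), f n := by
  induction k with
  | zero => simp
  | succ k ih =>
    rw [Finset.sum_range_succ, ih]
    exact Finset.sum_Ico_consecutive f (hN (Nat.zero_le k)) (hN (Nat.le_succ k))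

theorem one (l1 : S_L1) (x : ℕ → GG) (a : ℕ → ℕ) (hx : ∀ n, ‖x n‖ = 1)
    (ha : StrictMono a) (hs : ∀ n, OnLv (a n) (a (n + 1)) (cx (x n))) (J n0 : ℕ) :
    ∃ (N M : ℕ) (c : ℕ → ℝ), n0 ≤ N ∧ N ≤ M ∧ ‖∑ n ∈ Ico N M, c n • x n‖ = 1 ∧
      ∀ t : Tr, t.Wf → ∀ i, t.wt = i + 1 → i < J → ∀ α β,
        ‖ev t (cut α β |cx (∑ n ∈ Ico N M, c n • x n)|)‖ ≤ 3 / mm i := by
  have hκ0 : 0 < 2 * nn J * mm J := Nat.mul_pos (Nat.mul_pos (by norm_num) (nn_pos J)) (mm_pos J)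
  obtain ⟨N, c, h0, hm, h2, h3⟩ := t_ELL x a hx ha.monotone hs (2 * nn J * mm J) n0 hκ0
  obtain ⟨κ, hκ⟩ : ∃ κ, κ = 2 * nn J * mm J := ⟨_, rfl⟩
  rw [← hκ] at h2 h3 hκ0
  have hκ' : (0 : ℝ) < κ := by exact_mod_cast hκ0
  have e1 : ∑ n ∈ Ico (N 0) (N κ), ((κ : ℝ)⁻¹ * c n) • x n =
      (κ : ℝ)⁻¹ • ∑ n ∈ Ico (N 0) (N κ), c n • x n := by
    rw [Finset.smul_sum]
    refine Finset.sum_congr rfl fun n _ => ?_
    rw [mul_smul]
  refine ⟨N 0, N κ, fun n => (κ : ℝ)⁻¹ * c n, h0, hm (Nat.zero_le _), ?_, ?_⟩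
  · show ‖∑ n ∈ Ico (N 0) (N κ), ((κ : ℝ)⁻¹ * c n) • x n‖ = 1
    rw [e1, norm_smul, h3, norm_inv, Real.norm_of_nonneg hκ'.le]
    field_simp
  · intro t ht i hi hiJ α β
    show ‖ev t (cut α β |cx (∑ n ∈ Ico (N 0) (N κ), ((κ : ℝ)⁻¹ * c n) • x n)|)‖ ≤ 3 / mm i
    have hle : 2 * nn i * mm i ≤ #(range κ) := by
      rw [Finset.card_range, hκ]
      exact Nat.mul_le_mul (Nat.mul_le_mul le_rfl (nn_mono hiJ.le)) (mm_mono hiJ.le)
    have key := l1 (fun l => if l < κ then |cx (∑ n ∈ Ico (N l) (N (l + 1)), c n • x n)| else 0)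
      (fun l => a (N l)) (fun l => a (N (l + 1))) ?_ ?_ (range κ) (by rw [Finset.card_range]; exact hκ0)
      t ht i hi hle α β
    · refine le_trans ?_ key
      rw [Real.norm_of_nonneg (ev_nonneg t _ (cut_nonneg α β (abs_nonneg _)))]
      refine le_trans (ev_mono t (cut_mono α β ?_)) (le_abs_self _)
      rw [e1, map_smul]
      have e2 : ∑ l ∈ range κ, (fun l => if l < κ then
          |cx (∑ n ∈ Ico (N l) (N (l + 1)), c n • x n)| else 0) l =
          ∑ l ∈ range κ, |cx (∑ n ∈ Ico (N l) (N (l + 1)), c n • x n)| := by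
        refine Finset.sum_congr rfl fun l hl => ?_
        exact if_pos (Finset.mem_range.1 hl)
      rw [e2, Finset.card_range, ← sum_blocks _ N hm κ, map_sum]
      intro k
      rw [Pi.abs_apply, Pi.smul_apply, Pi.smul_apply, smul_eq_mul, smul_eq_mul, abs_mul,
        abs_of_nonneg (by positivity), Finset.sum_apply, Finset.sum_apply]
      exact mul_le_mul_of_nonneg_left (abs_sum_le_sum_abs _ _) (by positivity)
    · refine ⟨fun l => ?_, fun l => ha.monotone (hm (Nat.le_succ l)), fun l l' hl =>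
        ha.monotone (hm hl)⟩
      show OnLv (a (N l)) (a (N (l + 1)))
        (if l < κ then |cx (∑ n ∈ Ico (N l) (N (l + 1)), c n • x n)| else 0)
      by_cases h : l < κ
      · rw [if_pos h]
        exact onLv_abs (onLv_comb x a ha.monotone hs c _ _)
      · rw [if_neg h]
        intro n _
        rfl
    · intro l
      show Bd 2 (if l < κ then |cx (∑ n ∈ Ico (N l) (N (l + 1)), c n • x n)| else 0)
      by_cases h : l < κ
      · rw [if_pos h]
        exact (GG.bd _).mono (h2 l h)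
      · rw [if_neg h]
        exact Bd.zero (by norm_num)

/-- the state of the recursion -/
def st (a : ℕ → ℕ) (MM : ℕ → ℕ → ℕ) : ℕ → ℕ × ℕ
  | 0 => (0, 0)
  | l + 1 => ((st a MM l).1 + 1 + 2 ^ l * (a (MM (st a MM l).1 (st a MM l).2) + 1),
      max (l + 1) (MM (st a MM l).1 (st a MM l).2))

end RISB

open RISB in
/-- rapidly increasing sequences in block subspaces -/
theorem t_RISB (els : S_ELS) (l1 : S_L1) (x : ℕ → GG) (a : ℕ → ℕ) (hx : ∀ n, ‖x n‖ = 1)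
    (ha : StrictMono a) (hs : ∀ n, OnLv (a n) (a (n + 1)) (cx (x n))) :
    ∃ (z : ℕ → GG) (N M : ℕ → ℕ) (c : ℕ → ℕ → ℝ), Ris 3 z ∧ (∀ l, ‖z l‖ = 1) ∧
      (∀ l, M l ≤ N (l + 1)) ∧
      ∀ l, l ≤ N l ∧ N l ≤ M l ∧ z l = ∑ n ∈ Ico (N l) (M l), c l n • x n := by
  choose NN MM CC h0 hNM hn hlow using one l1 x a hx ha hs
  obtain ⟨J, hJ⟩ : ∃ J : ℕ → ℕ, J = fun l => (st a MM l).1 := ⟨_, rfl⟩
  obtain ⟨n0, hn0⟩ : ∃ n0 : ℕ → ℕ, n0 = fun l => (st a MM l).2 := ⟨_, rfl⟩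
  have hJs : ∀ l, J (l + 1) = J l + 1 + 2 ^ l * (a (MM (J l) (n0 l)) + 1) := by
    intro l; subst hJ; subst hn0; rfl
  have hn0s : ∀ l, n0 (l + 1) = max (l + 1) (MM (J l) (n0 l)) := by
    intro l; subst hJ; subst hn0; rfl
  have hl : ∀ l, l ≤ n0 l := by
    intro l
    cases l with
    | zero => exact Nat.zero_le _
    | succ l => rw [hn0s]; exact le_max_left _ _
  have hAB : ∀ l, a (NN (J l) (n0 l)) ≤ a (MM (J l) (n0 l)) := fun l => ha.monotone (hNM _ _)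
  have hMN : ∀ l, MM (J l) (n0 l) ≤ NN (J (l + 1)) (n0 (l + 1)) := by
    intro l
    refine le_trans ?_ (h0 _ _)
    rw [hn0s]
    exact le_max_right _ _
  have hBA : ∀ l, a (MM (J l) (n0 l)) ≤ a (NN (J (l + 1)) (n0 (l + 1))) := fun l =>
    ha.monotone (hMN l)
  have hA : Monotone fun l => a (NN (J l) (n0 l)) :=
    monotone_nat_of_le_succ fun l => (hAB l).trans (hBA l)
  refine ⟨fun l => ∑ n ∈ Ico (NN (J l) (n0 l)) (MM (J l) (n0 l)), CC (J l) (n0 l) n • x n,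
    fun l => NN (J l) (n0 l), fun l => MM (J l) (n0 l), fun l => CC (J l) (n0 l),
    ⟨fun l => a (NN (J l) (n0 l)), fun l => a (MM (J l) (n0 l)), J, ?_⟩, fun l => hn _ _,
    hMN, fun l => ⟨(hl l).trans (h0 _ _), hNM _ _, rfl⟩⟩
  have hon : ∀ l, OnLv (a (NN (J l) (n0 l))) (a (MM (J l) (n0 l)))
      |cx (∑ n ∈ Ico (NN (J l) (n0 l)) (MM (J l) (n0 l)), CC (J l) (n0 l) n • x n)| :=
    fun l => onLv_abs (onLv_comb x a ha.monotone hs _ _ _)
  have hJm : StrictMono J := strictMono_nat_of_lt_succ fun l => by rw [hJs]; omega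
  refine
    { hC := by norm_num
      succ := ⟨hon, hAB, fun l l' hll => (hBA l).trans (hA hll)⟩
      tend := ?_
      bd := fun l => (GG.bd _).mono (by rw [hn]; norm_num)
      mono := hJm
      low := fun l t ht i hi hil α β => hlow _ _ t ht i hi hil α β
      high := ?_ }
  · refine tendsto_atTop_mono (fun l => ?_) tendsto_id
    exact ((hl l).trans (h0 _ _)).trans (ha.id_le _)
  · intro l t ht i hi hil α β
    have h1 := (els _ _ _ (hon l) t ht α β).2 i hi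
    have h2 : ∑ k ∈ Ico (a (NN (J l) (n0 l))) (a (MM (J l) (n0 l))),
        ‖|cx (∑ n ∈ Ico (NN (J l) (n0 l)) (MM (J l) (n0 l)), CC (J l) (n0 l) n • x n)| k‖ ≤
        (a (MM (J l) (n0 l)) : ℝ) := by
      calc _ ≤ ∑ k ∈ Ico (a (NN (J l) (n0 l))) (a (MM (J l) (n0 l))), (1 : ℝ) := by
            refine Finset.sum_le_sum fun k _ => ?_
            rw [Pi.abs_apply, Real.norm_eq_abs, abs_abs]
            exact (norm_cx_le _ _).trans (hn _ _).le
        _ = ((a (MM (J l) (n0 l)) - a (NN (J l) (n0 l)) : ℕ) : ℝ) := by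
            rw [Finset.sum_const, Nat.card_Ico, nsmul_eq_mul, mul_one]
        _ ≤ _ := by exact_mod_cast Nat.sub_le _ _
    have h3 : 2 ^ l * (a (MM (J l) (n0 l)) + 1) ≤ mm i := by
      have h4 : 2 ^ l * (a (MM (J l) (n0 l)) + 1) ≤ J (l + 1) := by rw [hJs]; omega
      exact (h4.trans hil).trans (lt_mm i).le
    have h5 : (2 : ℝ) ^ l * ((a (MM (J l) (n0 l)) : ℝ) + 1) ≤ mm i := by exact_mod_cast h3
    have hm := mm_pos' i
    refine h1.trans ?_
    calc (mm i : ℝ)⁻¹ * ∑ k ∈ Ico (a (NN (J l) (n0 l))) (a (MM (J l) (n0 l))),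
        ‖|cx (∑ n ∈ Ico (NN (J l) (n0 l)) (MM (J l) (n0 l)), CC (J l) (n0 l) n • x n)| k‖
        ≤ (mm i : ℝ)⁻¹ * (a (MM (J l) (n0 l)) : ℝ) := by gcongr
      _ ≤ (1 / 2) ^ l := by
        rw [inv_mul_le_iff₀ hm, div_pow, one_pow]
        rw [mul_one_div, le_div_iff₀ (by positivity)]
        have : (0 : ℝ) < 2 ^ l := by positivity
        nlinarith

end

end Pool.Agent.Helper94.UG
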