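import Pool.Agent.Helper94.UG.Base

set_option autoImplicit false

/-!
The Banach lattices `SS κ` of all functions whose composition with the block map `κ` is bounded with
respect to the admissible trees. `GG = SS idK` is the unconditional Gowers space.
-/

namespace Pool.Agent.Helper94.UG

open Finset Filter Topology

noncomputable section

/-- a block map: the block `k` is the interval `[s k, s (k + 1))` -/
structure Kp where
  fn : ℕ → ℕ
  s : ℕ → ℕ
  mono : StrictMono s
  iff : ∀ n k, fn n = k ↔ s k ≤ n ∧ n < s (k + 1)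

/-- the trivial block map -/
def idK : Kp where
  fn := id
  s := id
  mono := strictMono_id
  iff n k := by
    simp only [id]
    omega

/-- composition with the block map -/
def pull (κ : Kp) : V →ₗ[ℝ] V where
  toFun x := fun n => x (κ.fn n)
  map_add' _ _ := rfl
  map_smul' _ _ := rfl

theorem pull_apply (κ : Kp) (x : V) (n : ℕ) : pull κ x n = x (κ.fn n) := rfl

theorem pull_id (x : V) : pull idK x = x := rfl

theorem abs_pull (κ : Kp) (x : V) : |pull κ x| = pull κ |x| := rfl

theorem Kp.fn_s (κ : Kp) (k : ℕ) : κ.fn (κ.s k) = k :=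
  (κ.iff _ _).2 ⟨le_rfl, κ.mono (Nat.lt_succ_self k)⟩

theorem Bd.of_le {x y : V} {C : ℝ} (h : Bd C y) (hxy : |x| ≤ y) : Bd C |x| := by
  intro t ht a b
  have h0 : 0 ≤ |x| := abs_nonneg x
  rw [Real.norm_of_nonneg (ev_nonneg t _ (cut_nonneg a b h0))]
  exact (ev_mono t (cut_mono a b hxy)).trans ((le_abs_self _).trans (h t ht a b))

theorem Bd.of_abs {x : V} {C : ℝ} (h : Bd C |x|) : Bd C x := by
  intro t ht a b
  refine (abs_ev_le t _).trans ?_
  rw [abs_cut]
  exact (le_abs_self _).trans (h t ht a b)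

theorem Bd.coord {x : V} {C : ℝ} (h : Bd C x) (n : ℕ) : |x n| ≤ C := by
  have := h (.base n) trivial n (n + 1)
  rwa [ev_base, cut_apply, if_pos ⟨le_rfl, Nat.lt_succ_self n⟩] at this

/-- the underlying vector space -/
def Wg (κ : Kp) : Submodule ℝ V where
  carrier := {x | ∃ C, Bd C |pull κ x|}
  zero_mem' := ⟨0, by rw [map_zero, abs_zero]; exact Bd.zero le_rfl⟩
  add_mem' := by
    rintro x y ⟨C, hC⟩ ⟨D, hD⟩
    refine ⟨C + D, (hC.add hD).of_le ?_⟩
    rw [map_add]
    exact abs_add_le _ _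
  smul_mem' := by
    rintro c x ⟨C, hC⟩
    refine ⟨‖|c|‖ * C, (hC.smul |c|).of_le ?_⟩
    rw [map_smul]
    intro n
    rw [Pi.abs_apply, Pi.smul_apply, Pi.smul_apply, Pi.abs_apply, smul_eq_mul, smul_eq_mul, abs_mul]

theorem mem_Wg {κ : Kp} {x : V} : x ∈ Wg κ ↔ ∃ C, Bd C |pull κ x| := Iff.rfl

theorem Wg.of_le {κ : Kp} {x y : V} (hy : y ∈ Wg κ) (h : |x| ≤ |y|) : x ∈ Wg κ := by
  obtain ⟨C, hC⟩ := hy
  exact ⟨C, hC.of_le fun n => h (κ.fn n)⟩

theorem Wg.abs {κ : Kp} {x : V} (hx : x ∈ Wg κ) : |x| ∈ Wg κ := Wg.of_le hx (by rw [abs_abs])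

theorem Wg.sup {κ : Kp} {x y : V} (hx : x ∈ Wg κ) (hy : y ∈ Wg κ) : x ⊔ y ∈ Wg κ := by
  refine Wg.of_le ((Wg κ).add_mem (Wg.abs hx) (Wg.abs hy)) ?_
  intro n
  rw [Pi.abs_apply, Pi.sup_apply, Pi.abs_apply, Pi.add_apply, Pi.abs_apply, Pi.abs_apply,
    abs_of_nonneg (add_nonneg (abs_nonneg (x n)) (abs_nonneg (y n)))]
  rcases le_total (x n) (y n) with h | h
  · rw [sup_eq_right.2 h]
    linarith [abs_nonneg (x n)]
  · rw [sup_eq_left.2 h]
    linarith [abs_nonneg (y n)]

theorem Wg.inf {κ : Kp} {x y : V} (hx : x ∈ Wg κ) (hy : y ∈ Wg κ) : x ⊓ y ∈ Wg κ := by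
  refine Wg.of_le ((Wg κ).add_mem (Wg.abs hx) (Wg.abs hy)) ?_
  intro n
  rw [Pi.abs_apply, Pi.inf_apply, Pi.abs_apply, Pi.add_apply, Pi.abs_apply, Pi.abs_apply,
    abs_of_nonneg (add_nonneg (abs_nonneg (x n)) (abs_nonneg (y n)))]
  rcases le_total (x n) (y n) with h | h
  · rw [inf_eq_left.2 h]
    linarith [abs_nonneg (y n)]
  · rw [inf_eq_right.2 h]
    linarith [abs_nonneg (x n)]

/-- the Banach lattice given by a block map -/
def SS (κ : Kp) : Type := ↥(Wg κ)

instance (κ : Kp) : AddCommGroup (SS κ) := inferInstanceAs (AddCommGroup ↥(Wg κ))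
instance (κ : Kp) : Module ℝ (SS κ) := inferInstanceAs (Module ℝ ↥(Wg κ))
instance (κ : Kp) : Lattice (SS κ) :=
  Subtype.lattice (P := fun x => x ∈ Wg κ) (fun _ _ hx hy => Wg.sup hx hy)
    (fun _ _ hx hy => Wg.inf hx hy)

/-- the coordinates -/
def cx {κ : Kp} : SS κ →ₗ[ℝ] V := (Wg κ).subtype

/-- the element with given coordinates -/
def ofV {κ : Kp} (x : V) (h : x ∈ Wg κ) : SS κ := (⟨x, h⟩ : ↥(Wg κ))

theorem cx_ofV {κ : Kp} (x : V) (h : x ∈ Wg κ) : cx (ofV x h : SS κ) = x := rfl

theorem cx_injective {κ : Kp} : Function.Injective (cx : SS κ → V) := Subtype.val_injective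

theorem cx_mem {κ : Kp} (x : SS κ) : cx x ∈ Wg κ := Subtype.property (p := fun z => z ∈ Wg κ) x

theorem cx_sup {κ : Kp} (x y : SS κ) : cx (x ⊔ y) = cx x ⊔ cx y := rfl

theorem cx_inf {κ : Kp} (x y : SS κ) : cx (x ⊓ y) = cx x ⊓ cx y := rfl

theorem cx_abs {κ : Kp} (x : SS κ) : cx |x| = |cx x| := rfl

theorem cx_le {κ : Kp} {x y : SS κ} : x ≤ y ↔ cx x ≤ cx y := Iff.rfl

/-- the norm of a function -/
def nm (κ : Kp) (x : V) : ℝ := sInf {C | Bd C |pull κ x|}

theorem nm_bd {κ : Kp} {x : V} (h : x ∈ Wg κ) : Bd (nm κ x) |pull κ x| := by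
  intro t ht a b
  refine le_csInf h fun C hC => hC t ht a b

theorem nm_le {κ : Kp} {x : V} {C : ℝ} (h : Bd C |pull κ x|) : nm κ x ≤ C :=
  csInf_le ⟨0, fun _ hD => Bd.nonneg hD⟩ h

/-- the norm -/
def gn (κ : Kp) : AddGroupNorm (SS κ) where
  toFun x := nm κ (cx x)
  map_zero' := by
    refine le_antisymm (nm_le ?_) (nm_bd (cx_mem _)).nonneg
    rw [map_zero, map_zero, abs_zero]
    exact Bd.zero le_rfl
  add_le' x y := by
    refine nm_le (((nm_bd (cx_mem x)).add (nm_bd (cx_mem y))).of_le ?_)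
    rw [map_add, map_add]
    exact abs_add_le _ _
  neg' x := by
    show nm κ (cx (-x)) = nm κ (cx x)
    unfold nm
    rw [map_neg, map_neg, abs_neg]
  eq_zero_of_map_eq_zero' x h := by
    apply cx_injective
    rw [map_zero]
    funext k
    have h1 := (nm_bd (cx_mem x)).coord (κ.s k)
    have h2 : nm κ (cx x) = 0 := h
    rw [h2, Pi.abs_apply, abs_abs, pull_apply, κ.fn_s] at h1
    have h3 := abs_nonneg (cx x k)
    exact abs_eq_zero.1 (le_antisymm h1 h3)

instance (κ : Kp) : NormedAddCommGroup (SS κ) := (gn κ).toNormedAddCommGroup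

theorem norm_def {κ : Kp} (x : SS κ) : ‖x‖ = nm κ (cx x) := rfl

theorem SS.bd {κ : Kp} (x : SS κ) : Bd ‖x‖ |pull κ (cx x)| := nm_bd (cx_mem x)

theorem SS.norm_le {κ : Kp} {x : SS κ} {C : ℝ} (h : Bd C |pull κ (cx x)|) : ‖x‖ ≤ C := nm_le h

theorem SS.norm_mono {κ : Kp} {x y : SS κ} (h : |cx x| ≤ |cx y|) : ‖x‖ ≤ ‖y‖ :=
  SS.norm_le (y.bd.of_le fun n => h (κ.fn n))

instance (κ : Kp) : NormedSpace ℝ (SS κ) where
  norm_smul_le c x := by
    have h : ‖|c|‖ = ‖c‖ := by rw [Real.norm_eq_abs, Real.norm_eq_abs, abs_abs]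
    rw [← h]
    refine SS.norm_le ((x.bd.smul |c|).of_le ?_)
    rw [map_smul, map_smul]
    intro n
    rw [Pi.abs_apply, Pi.smul_apply, Pi.smul_apply, Pi.abs_apply, smul_eq_mul, smul_eq_mul, abs_mul]

instance (κ : Kp) : HasSolidNorm (SS κ) where
  solid x y h := SS.norm_mono h

instance (κ : Kp) : IsOrderedAddMonoid (SS κ) where
  add_le_add_left x y h z := by
    intro n
    exact add_le_add_left (h n) (cx z n)

instance (κ : Kp) : IsOrderedModule ℝ (SS κ) where
  smul_le_smul_of_nonneg_left c hc x y h := by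
    intro n
    exact mul_le_mul_of_nonneg_left (h n) hc
  smul_le_smul_of_nonneg_right x hx c d h := by
    intro n
    exact mul_le_mul_of_nonneg_right h (hx n)

theorem norm_cx_le {κ : Kp} (x : SS κ) (n : ℕ) : |cx x n| ≤ ‖x‖ := by
  have h1 := x.bd.coord (κ.s n)
  rwa [Pi.abs_apply, abs_abs, pull_apply, κ.fn_s] at h1

theorem continuous_cut (a b : ℕ) : Continuous fun x : V => cut a b x := by
  refine continuous_pi fun n => ?_
  simp only [cut_apply]
  by_cases h : a ≤ n ∧ n < b
  · simp only [if_pos h]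
    exact continuous_apply n
  · simp only [if_neg h]
    exact continuous_const

theorem continuous_Rs (S : Finset ℕ) : Continuous fun x : V => Rs S x := by
  refine continuous_pi fun n => ?_
  simp only [Rs_apply]
  by_cases h : n ∈ S
  · simp only [if_pos h]
    exact continuous_apply n
  · simp only [if_neg h]
    exact continuous_const

theorem continuous_ev (t : Tr) : Continuous fun x : V => ev t x := by
  induction t with
  | base k => exact continuous_apply k
  | node j d a b t ih =>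
    simp only [ev_node]
    exact continuous_const.mul (continuous_finsetSum _ fun i _ => (ih i).comp (continuous_cut _ _))
  | rs S t ih =>
    simp only [ev_rs]
    exact ih.comp (continuous_Rs S)

/-- the set of functions bounded by `C` is closed under pointwise convergence -/
theorem Bd.lim {u : ℕ → V} {x : V} {C : ℝ} (h : ∀ᶠ j in atTop, Bd C (u j))
    (hx : ∀ n, Tendsto (fun j => u j n) atTop (𝓝 (x n))) : Bd C x := by
  intro t ht a b
  have h1 : Tendsto u atTop (𝓝 x) := tendsto_pi_nhds.2 hx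
  have h2 : Continuous fun x : V => ‖ev t (UG.cut a b x)‖ :=
    ((continuous_ev t).comp (continuous_cut a b)).norm
  refine le_of_tendsto ((h2.tendsto x).comp h1) ?_
  filter_upwards [h] with j hj
  exact hj t ht a b

instance (κ : Kp) : CompleteSpace (SS κ) := by
  refine Metric.complete_of_cauchySeq_tendsto fun u hu => ?_
  have h1 : ∀ n, CauchySeq fun j => cx (u j) n := by
    intro n
    rw [Metric.cauchySeq_iff] at hu ⊢
    intro ε hε
    obtain ⟨N, hN⟩ := hu ε hε
    refine ⟨N, fun i hi j hj => lt_of_le_of_lt ?_ (hN i hi j hj)⟩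
    rw [Real.dist_eq, dist_eq_norm]
    have := norm_cx_le (u i - u j) n
    rwa [map_sub, Pi.sub_apply] at this
  choose x hx using fun n => cauchySeq_tendsto_of_complete (h1 n)
  have key : ∀ (i : ℕ) (ε : ℝ), (∀ᶠ j in atTop, ‖u i - u j‖ ≤ ε) →
      Bd ε |pull κ (cx (u i) - x)| := by
    intro i ε h
    refine Bd.lim (u := fun j => |pull κ (cx (u i) - cx (u j))|) ?_ ?_
    · filter_upwards [h] with j hj
      have h2 := (u i - u j).bd.mono hj
      rwa [map_sub] at h2
    · intro n
      simp only [Pi.abs_apply, pull_apply, Pi.sub_apply]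
      exact ((hx (κ.fn n)).const_sub _).abs
  have hmem : x ∈ Wg κ := by
    obtain ⟨N, hN⟩ := Metric.cauchySeq_iff'.1 hu 1 one_pos
    have h2 := key N 1 (by
      filter_upwards [eventually_ge_atTop N] with j hj
      have := (hN j hj).le
      rwa [dist_comm, dist_eq_norm] at this)
    have h3 : cx (u N) - (cx (u N) - x) ∈ Wg κ := (Wg κ).sub_mem (cx_mem _) ⟨1, h2⟩
    rwa [sub_sub_cancel] at h3
  refine ⟨ofV x hmem, ?_⟩
  rw [Metric.tendsto_atTop]
  intro ε hε
  obtain ⟨N, hN⟩ := Metric.cauchySeq_iff.1 hu (ε / 2) (by positivity)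
  refine ⟨N, fun i hi => lt_of_le_of_lt ?_ (half_lt_self hε)⟩
  rw [dist_eq_norm]
  refine SS.norm_le ?_
  rw [map_sub, cx_ofV]
  refine key i _ ?_
  filter_upwards [eventually_ge_atTop N] with j hj
  have := (hN i hi j hj).le
  rwa [dist_eq_norm] at this

/-! ### multipliers -/

theorem abs_mul_le {κ : Kp} {D x : V} {M : ℝ} (h : ∀ n, |D n| ≤ M) :
    |pull κ (D * x)| ≤ M • |pull κ x| := by
  intro n
  rw [Pi.abs_apply, pull_apply, Pi.mul_apply, abs_mul, Pi.smul_apply, Pi.abs_apply, pull_apply,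
    smul_eq_mul]
  exact mul_le_mul_of_nonneg_right (h _) (abs_nonneg _)

/-- multiplication with a bounded function -/
def mulL {κ : Kp} (D : V) (M : ℝ) (h : ∀ n, |D n| ≤ M) : SS κ →L[ℝ] SS κ :=
  LinearMap.mkContinuous
    { toFun := fun x => ofV (D * cx x) ⟨_, ((x.bd.smul M).of_le (abs_mul_le h))⟩
      map_add' := fun x y => cx_injective (by
        rw [map_add cx (ofV _ _) (ofV _ _), cx_ofV, cx_ofV, cx_ofV, map_add cx x y, mul_add])
      map_smul' := fun c x => cx_injective (by
        rw [RingHom.id_apply, map_smul cx c (ofV _ _), cx_ofV, cx_ofV, map_smul cx c x,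
          mul_smul_comm]) } M
    (fun x => by
      have hM : 0 ≤ M := (abs_nonneg _).trans (h 0)
      refine SS.norm_le ?_
      have h1 := (x.bd.smul M).of_le (abs_mul_le (κ := κ) (x := cx x) h)
      rwa [Real.norm_of_nonneg hM] at h1)

theorem cx_mulL {κ : Kp} (D : V) (M : ℝ) (h : ∀ n, |D n| ≤ M) (x : SS κ) :
    cx (mulL D M h x) = D * cx x := rfl

theorem norm_mulL_le {κ : Kp} (D : V) (M : ℝ) (h : ∀ n, |D n| ≤ M) (x : SS κ) :
    ‖mulL D M h x‖ ≤ M * ‖x‖ := by
  have hM : 0 ≤ M := (abs_nonneg _).trans (h 0)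
  refine SS.norm_le ?_
  have h1 := (x.bd.smul M).of_le (abs_mul_le (κ := κ) (x := cx x) h)
  rwa [Real.norm_of_nonneg hM] at h1

/-- the indicator of an interval -/
def indI (a b : ℕ) : V := fun n => if a ≤ n ∧ n < b then 1 else 0

theorem indI_le (a b n : ℕ) : |indI a b n| ≤ 1 := by
  unfold indI
  split_ifs <;> simp

/-- the indicator of a finite set -/
def indS (S : Finset ℕ) : V := fun n => if n ∈ S then 1 else 0

theorem indS_le (S : Finset ℕ) (n : ℕ) : |indS S n| ≤ 1 := by
  unfold indS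
  split_ifs <;> simp

/-- restriction to an interval -/
def Rx {κ : Kp} (a b : ℕ) : SS κ →L[ℝ] SS κ := mulL (indI a b) 1 (indI_le a b)

theorem cx_Rx {κ : Kp} (a b : ℕ) (x : SS κ) : cx (Rx a b x) = cut a b (cx x) := by
  unfold Rx
  rw [cx_mulL]
  funext n
  rw [Pi.mul_apply, cut_apply]
  unfold indI
  split_ifs <;> simp

theorem norm_Rx_le {κ : Kp} (a b : ℕ) (x : SS κ) : ‖Rx a b x‖ ≤ ‖x‖ := by
  have := norm_mulL_le (indI a b) 1 (indI_le a b) x
  rwa [one_mul] at this

/-- restriction to a finite set -/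
def Rr {κ : Kp} (S : Finset ℕ) : SS κ →L[ℝ] SS κ := mulL (indS S) 1 (indS_le S)

theorem cx_Rr {κ : Kp} (S : Finset ℕ) (x : SS κ) : cx (Rr S x) = Rs S (cx x) := by
  unfold Rr
  rw [cx_mulL]
  funext n
  rw [Pi.mul_apply, Rs_apply]
  unfold indS
  split_ifs <;> simp

theorem norm_Rr_le {κ : Kp} (S : Finset ℕ) (x : SS κ) : ‖Rr S x‖ ≤ ‖x‖ := by
  have := norm_mulL_le (indS S) 1 (indS_le S) x
  rwa [one_mul] at this

/-! ### the coordinates as functionals -/

/-- the coordinates as continuous functionals -/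
def coordL {κ : Kp} (n : ℕ) : SS κ →L[ℝ] ℝ :=
  LinearMap.mkContinuous ((LinearMap.proj (R := ℝ) (φ := fun _ : ℕ => ℝ) n).comp cx) 1
    (fun x => by rw [one_mul]; exact norm_cx_le x n)

theorem coordL_apply {κ : Kp} (n : ℕ) (x : SS κ) : coordL n x = cx x n := rfl

/-- the unconditional Gowers space -/
abbrev GG : Type := SS idK

theorem GG.bd (x : GG) : Bd ‖x‖ |cx x| := SS.bd x

theorem GG.norm_le {x : GG} {C : ℝ} (h : Bd C |cx x|) : ‖x‖ ≤ C := SS.norm_le h

/-- a functional which nearly attains the norm -/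
theorem exists_functional {x : GG} {ε : ℝ} (h : ε < ‖x‖) :
    ∃ f : Tr × ℕ × ℕ, f.1.Wf ∧ ε < ev f.1 (cut f.2.1 f.2.2 |cx x|) := by
  by_contra hcon
  push Not at hcon
  have : ‖x‖ ≤ ε := GG.norm_le fun t ht a b => by
    rw [Real.norm_of_nonneg (ev_nonneg t _ (cut_nonneg a b (abs_nonneg _)))]
    exact hcon (t, a, b) ht
  linarith

/-- the embedding into the Gowers space -/
def jj {κ : Kp} : SS κ →ₗᵢ[ℝ] GG where
  toFun x := ofV (pull κ (cx x)) (cx_mem x)
  map_add' x y := cx_injective (by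
    rw [map_add cx (ofV _ _) (ofV _ _), cx_ofV, cx_ofV, cx_ofV, map_add cx x y, map_add])
  map_smul' c x := cx_injective (by
    rw [RingHom.id_apply, map_smul cx c (ofV _ _), cx_ofV, cx_ofV, map_smul cx c x, map_smul])
  norm_map' x := rfl

theorem cx_jj {κ : Kp} (x : SS κ) : cx (jj x) = pull κ (cx x) := rfl

theorem e_bd (n : ℕ) : Bd 1 (e n) := by
  intro t
  induction t with
  | base k =>
    intro _ a b
    rw [ev_base, cut_apply]
    unfold e
    split_ifs <;> simp
  | node j d a' b' t ih =>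
    intro ht a b
    rw [ev_node]
    obtain ⟨hd, hwf, hab, hsuc, -⟩ := ht
    have h4 : (0 : ℝ) < mm j := by
      unfold mm
      positivity
    by_cases hex : ∃ i : Fin d, a' i ≤ n ∧ n < b' i
    · obtain ⟨i, hi⟩ := hex
      rw [Finset.sum_eq_single i]
      · rw [norm_mul, cut_cut]
        have h1 := ih i (hwf i) (max (a' i) a) (min (b' i) b)
        have h2 : ‖(mm j : ℝ)⁻¹‖ ≤ 1 := by
          rw [norm_inv, Real.norm_of_nonneg h4.le]
          exact inv_le_one_of_one_le₀ (by linarith [one_le_mm j])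
        calc ‖(mm j : ℝ)⁻¹‖ * ‖ev (t i) (UG.cut (max (a' i) a) (min (b' i) b) (e n))‖ ≤ 1 * 1 :=
              mul_le_mul h2 h1 (norm_nonneg _) zero_le_one
          _ = 1 := one_mul 1
      · intro i' _ hne
        have h1 : UG.cut (a' i') (b' i') (UG.cut a b (e n)) = 0 := by
          funext k
          rw [cut_apply, cut_apply]
          unfold e
          by_cases hk : k = n
          · subst hk
            rw [if_neg]
            · rfl
            · intro h3
              rcases lt_or_gt_of_ne hne with h5 | h5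
              · have := hsuc _ _ h5
                omega
              · have := hsuc _ _ h5
                omega
          · simp [hk]
        rw [h1, map_zero]
      · intro h
        exact absurd (mem_univ _) h
    · rw [Finset.sum_eq_zero]
      · simp
      · intro i _
        have h1 : UG.cut (a' i) (b' i) (UG.cut a b (e n)) = 0 := by
          funext k
          rw [cut_apply, cut_apply]
          unfold e
          by_cases hk : k = n
          · subst hk
            rw [if_neg]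
            · rfl
            · intro h3
              exact hex ⟨i, h3⟩
          · simp [hk]
        rw [h1, map_zero]
  | rs S t ih =>
    intro ht a b
    rw [ev_rs, Rs_cut]
    by_cases hn : n ∈ S
    · have : Rs S (e n) = e n := by
        funext k
        rw [Rs_apply]
        unfold e
        by_cases hk : k = n
        · subst hk; simp [hn]
        · simp [hk]
      rw [this]
      exact ih ht a b
    · have : Rs S (e n) = 0 := by
        funext k
        rw [Rs_apply]
        unfold e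
        by_cases hk : k = n
        · subst hk; simp [hn]
        · simp [hk]
      rw [this, map_zero, map_zero, norm_zero]
      exact zero_le_one

theorem abs_e (n : ℕ) : |e n| = e n := by
  funext k
  rw [Pi.abs_apply]
  unfold e
  split_ifs <;> simp

/-- the unit vectors -/
def eG (n : ℕ) : GG := ofV (e n) ⟨1, by rw [pull_id, abs_e]; exact e_bd n⟩

theorem cx_eG (n : ℕ) : cx (eG n) = e n := rfl

theorem norm_eG (n : ℕ) : ‖eG n‖ = 1 := by
  refine le_antisymm (GG.norm_le (by rw [cx_eG, abs_e]; exact e_bd n)) ?_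
  have := norm_cx_le (eG n) n
  rw [cx_eG] at this
  unfold e at this
  simpa using this

/-! ### rapidly increasing sequences in the Gowers space -/

/-- a sequence which is rapidly increasing for some supports and weights -/
def Ris (C : ℝ) (z : ℕ → GG) : Prop := ∃ A B J : ℕ → ℕ, RIS C (fun l => |cx (z l)|) A B J

theorem RIS.of_le {C : ℝ} {u v : ℕ → V} {A B J : ℕ → ℕ} (h : RIS C u A B J)
    (hv : ∀ l, |v l| ≤ u l) : RIS C (fun l => |v l|) A B J := by
  have key : ∀ (l : ℕ) (t : Tr) (α β : ℕ), ‖ev t (cut α β |v l|)‖ ≤ ‖ev t (cut α β (u l))‖ := by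
    intro l t α β
    rw [Real.norm_of_nonneg (ev_nonneg t _ (cut_nonneg α β (abs_nonneg _)))]
    exact (ev_mono t (cut_mono α β (hv l))).trans (le_abs_self _)
  exact
    { hC := h.hC
      succ := ⟨fun l n hn => by
        have h1 := hv l n
        rw [h.succ.1 l n hn] at h1
        exact le_antisymm h1 (abs_nonneg (v l n)), h.succ.2.1, h.succ.2.2⟩
      tend := h.tend
      bd := fun l t ht α β => (key l t α β).trans (h.bd l t ht α β)
      mono := h.mono
      low := fun l t ht i hi hil α β => (key l t α β).trans (h.low l t ht i hi hil α β)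
      high := fun l t ht i hi hil α β => (key l t α β).trans (h.high l t ht i hi hil α β) }

theorem Ris.of_le {C : ℝ} {z y : ℕ → GG} (h : Ris C z) (hy : ∀ l, |cx (y l)| ≤ |cx (z l)|) :
    Ris C y := by
  obtain ⟨A, B, J, h⟩ := h
  exact ⟨A, B, J, h.of_le hy⟩

theorem Ris.norm_le {C : ℝ} {z : ℕ → GG} (h : Ris C z) (l : ℕ) : ‖z l‖ ≤ C := by
  obtain ⟨A, B, J, h⟩ := h
  exact GG.norm_le (h.bd l)

theorem Ris.sub {C : ℝ} {z : ℕ → GG} (h : Ris C z) {φ : ℕ → ℕ} (hφ : StrictMono φ) :
    Ris C (fun l => z (φ l)) := by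
  obtain ⟨A, B, J, h⟩ := h
  exact ⟨_, _, _, h.sub hφ⟩

theorem Ris.Rr {C : ℝ} {z : ℕ → GG} (h : Ris C z) (S : ℕ → Finset ℕ) :
    Ris C (fun l => UG.Rr (S l) (z l)) := by
  refine h.of_le fun l => ?_
  rw [cx_Rr, abs_Rs]
  exact Rs_le _ (abs_nonneg _)

theorem Ris.phase {C : ℝ} {z : ℕ → GG} (h : Ris C z) {θ : ℕ → ℝ} (hθ : ∀ l, |θ l| ≤ 1) :
    Ris C (fun l => θ l • z l) := by
  refine h.of_le fun l n => ?_
  rw [map_smul, Pi.abs_apply, Pi.smul_apply, smul_eq_mul, abs_mul, Pi.abs_apply]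
  exact mul_le_of_le_one_left (abs_nonneg _) (hθ l)

end

end Pool.Agent.Helper94.UG
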