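import Pool.Agent.Helper94.UG.LOW

set_option autoImplicit false

/-!
The truncations of a vector converge to it, after the library module `Q73.GM.TAIL`.
-/

namespace Pool.Agent.Helper94.UG

open Finset Filter Topology

noncomputable section

namespace TAIL

theorem cx_tail (x : GG) (N : ℕ) : cx (x - Rx 0 N x) = cx x - cut 0 N (cx x) := by
  rw [map_sub, cx_Rx]

theorem cx_tail_apply (x : GG) (N n : ℕ) : cx (x - Rx 0 N x) n = if n < N then 0 else cx x n := by
  rw [cx_tail, Pi.sub_apply, cut_apply]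
  split_ifs with h1 h2 h2
  · exact sub_self _
  · omega
  · omega
  · exact sub_zero _

/-- the norms of the tails decrease -/
theorem antitone_tail (x : GG) {N M : ℕ} (h : N ≤ M) : ‖x - Rx 0 M x‖ ≤ ‖x - Rx 0 N x‖ := by
  refine SS.norm_mono fun n => ?_
  rw [Pi.abs_apply, Pi.abs_apply, cx_tail_apply, cx_tail_apply]
  split_ifs with h1 h2 h2
  · exact le_rfl
  · rw [abs_zero]; exact abs_nonneg _
  · omega
  · exact le_rfl

/-- a tail which is not small contains a window which is not small -/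
theorem exists_window (x : GG) {δ : ℝ} (hδ : 0 ≤ δ) (N : ℕ) (h : δ < ‖x - Rx 0 N x‖) :
    ∃ M, N < M ∧ δ < ‖Rx N M x‖ := by
  obtain ⟨⟨t, a, b⟩, ht, h1⟩ := exists_functional h
  dsimp only at ht h1
  have e1 : cut a b |cx (x - Rx 0 N x)| = cut (max a N) b |cx x| := by
    funext n
    rw [cut_apply, cut_apply, Pi.abs_apply, Pi.abs_apply, cx_tail_apply]
    by_cases h1 : a ≤ n ∧ n < b
    · rw [if_pos h1]
      by_cases h2 : n < N
      · rw [if_pos h2, abs_zero, if_neg]
        intro h3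
        have := (le_max_right a N).trans h3.1
        omega
      · rw [if_neg h2, if_pos ⟨max_le h1.1 (not_lt.1 h2), h1.2⟩]
    · rw [if_neg h1, if_neg]
      intro h3
      exact h1 ⟨(le_max_left a N).trans h3.1, h3.2⟩
  rw [e1] at h1
  have hb : N < b := by
    by_contra hcon
    have h2 : cut (max a N) b |cx x| = 0 := by
      funext n
      rw [cut_apply, if_neg]
      · rfl
      · intro h3
        have := (le_max_right a N).trans h3.1
        omega
    rw [h2, map_zero] at h1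
    linarith
  refine ⟨b, hb, ?_⟩
  have h2 := (Rx N b x).bd t ht (max a N) b
  rw [cx_Rx, abs_pull, pull_id, abs_cut, cut_cut, max_eq_left (le_max_right a N), min_self] at h2
  exact lt_of_lt_of_le h1 ((le_abs_self _).trans h2)

end TAIL

/-- the truncations converge -/
theorem t_TAIL (x : GG) : Tendsto (fun N => Rx 0 N x) atTop (𝓝 x) := by
  rw [Metric.tendsto_atTop]
  by_contra hcon
  push Not at hcon
  obtain ⟨ε, hε, h⟩ := hcon
  have hδ : 0 < ε / 2 := by positivity
  -- all the tails are large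
  have h1 : ∀ N, ε / 2 < ‖x - Rx 0 N x‖ := by
    intro N
    obtain ⟨M, hM, hd⟩ := h N
    have h2 := TAIL.antitone_tail x hM
    rw [dist_eq_norm, norm_sub_rev] at hd
    linarith
  choose f hf hf2 using fun N => TAIL.exists_window x hδ.le N (h1 N)
  -- the windows
  let n : ℕ → ℕ := fun l => f^[l] 0
  have hn : ∀ l, n (l + 1) = f (n l) := fun l => Function.iterate_succ_apply' f l 0
  have hmono : StrictMono n := strictMono_nat_of_lt_succ fun l => by
    rw [hn]
    exact hf _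
  have h3 : ∀ l, ε / 2 < ‖Rx (n l) (n (l + 1)) x‖ := fun l => by
    rw [hn]
    exact hf2 _
  -- the lower estimate
  obtain ⟨k, hk⟩ := exists_nat_gt (‖x‖ / (ε / 2))
  have h4 := t_LOW (2 * k) (by omega) n (fun l => n (l + 1))
    (fun l => (hmono (Nat.lt_succ_self l)).le)
    (fun l l' hl => hmono.monotone hl) (range (nn (2 * k))) (by rw [card_range]) x
  have h5 : (nn (2 * k) : ℝ) * (ε / 2) ≤ ∑ l ∈ range (nn (2 * k)), ‖Rx (n l) (n (l + 1)) x‖ := by
    have h6 : ∑ l ∈ range (nn (2 * k)), (ε / 2) ≤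
        ∑ l ∈ range (nn (2 * k)), ‖Rx (n l) (n (l + 1)) x‖ := sum_le_sum fun l _ => (h3 l).le
    rwa [sum_const, card_range, nsmul_eq_mul] at h6
  have h6 : (mm (2 * k) : ℝ) ^ 4 * (ε / 2) ≤ mm (2 * k) * ‖x‖ :=
    (mul_le_mul_of_nonneg_right (mm_le_nn (2 * k)) hδ.le).trans (h5.trans h4)
  have hm : (0 : ℝ) < mm (2 * k) := mm_pos' _
  have h7 : (mm (2 * k) : ℝ) ^ 3 * (ε / 2) ≤ ‖x‖ := by
    refine le_of_mul_le_mul_left ?_ hm
    calc (mm (2 * k) : ℝ) * ((mm (2 * k) : ℝ) ^ 3 * (ε / 2)) = (mm (2 * k) : ℝ) ^ 4 * (ε / 2) := by ring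
      _ ≤ mm (2 * k) * ‖x‖ := h6
  have h8 : (k : ℝ) ≤ (mm (2 * k) : ℝ) ^ 3 := by
    have h9 := lt_mm' (2 * k)
    push_cast at h9
    have h10 : (1 : ℝ) ≤ mm (2 * k) := by linarith [one_le_mm (2 * k)]
    have h11 : (mm (2 * k) : ℝ) ≤ (mm (2 * k) : ℝ) ^ 3 := le_self_pow₀ h10 (by norm_num)
    have hk0 : (0 : ℝ) ≤ k := Nat.cast_nonneg k
    linarith
  have h9 : ‖x‖ < k * (ε / 2) := by rwa [div_lt_iff₀ hδ] at hk
  have h10 : (k : ℝ) * (ε / 2) ≤ (mm (2 * k) : ℝ) ^ 3 * (ε / 2) :=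
    mul_le_mul_of_nonneg_right h8 hδ.le
  linarith

/-- the tails of a vector are small -/
theorem tail_small (x : GG) {ε : ℝ} (hε : 0 < ε) : ∀ᶠ N in atTop, ‖x - Rx 0 N x‖ ≤ ε := by
  have h5 := (Metric.tendsto_nhds.1 (t_TAIL x)) ε hε
  filter_upwards [h5] with l h6
  rw [dist_comm, dist_eq_norm] at h6
  exact h6.le

end

end Pool.Agent.Helper94.UG
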