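import Pool.Agent.Helper94.UG.Contr

set_option autoImplicit false

/-!
Operators on the unconditional Gowers space with zero diagonal tend to zero on rapidly increasing
sequences.
-/

namespace Pool.Agent.Helper94.UG

open Finset Filter Topology

noncomputable section

/-- restrictions to finite sets are finite linear combinations of unit vectors -/
theorem Rr_eq_sum (A : Finset ℕ) (y : GG) : Rr A y = ∑ m ∈ A, cx y m • eG m := by
  apply cx_injective
  rw [cx_Rr, map_sum]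
  funext n
  rw [Rs_apply, Finset.sum_apply]
  have h : ∀ m ∈ A, cx (cx y m • eG m) n = if n = m then cx y m else 0 := by
    intro m _
    rw [map_smul, cx_eG, Pi.smul_apply, smul_eq_mul]
    unfold e
    split_ifs <;> simp
  rw [Finset.sum_congr rfl h, Finset.sum_ite_eq]

/-- the number of subsets which contain `m` and do not contain `n` -/
theorem count (W : Finset ℕ) (m n : ℕ) (hm : m ∈ W) (hn : n ∈ W) (hmn : m ≠ n) :
    ∑ A ∈ W.powerset, (if n ∉ A ∧ m ∈ A then (1 : ℝ) else 0) = 2 ^ #W / 4 := by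
  classical
  have h := Finset.prod_add (fun i => if i = n then (0 : ℝ) else 1)
    (fun i => if i = m then (0 : ℝ) else 1) W
  have h1 : ∏ i ∈ W, ((if i = n then (0 : ℝ) else 1) + (if i = m then (0 : ℝ) else 1)) =
      2 ^ #W / 4 := by
    have h2 : ∀ i ∈ W, ((if i = n then (0 : ℝ) else 1) + (if i = m then (0 : ℝ) else 1)) =
        2 * ((if i = n then (1 / 2 : ℝ) else 1) * (if i = m then (1 / 2 : ℝ) else 1)) := by
      intro i _
      by_cases h3 : i = n
      · subst h3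
        rw [if_pos rfl, if_pos rfl, if_neg (Ne.symm hmn), if_neg (Ne.symm hmn)]
        norm_num
      · rw [if_neg h3, if_neg h3]
        by_cases h4 : i = m
        · rw [if_pos h4, if_pos h4]
          norm_num
        · rw [if_neg h4, if_neg h4]
          norm_num
    rw [Finset.prod_congr rfl h2, Finset.prod_mul_distrib, Finset.prod_const,
      Finset.prod_mul_distrib, Finset.prod_ite_eq' W n (fun _ => (1 / 2 : ℝ)),
      Finset.prod_ite_eq' W m (fun _ => (1 / 2 : ℝ)), if_pos hn, if_pos hm]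
    ring
  rw [← h1, h]
  refine Finset.sum_congr rfl fun A hA => ?_
  rw [Finset.mem_powerset] at hA
  by_cases hnA : n ∈ A
  · have h2 : (∏ i ∈ A, if i = n then (0 : ℝ) else 1) = 0 := Finset.prod_eq_zero hnA (if_pos rfl)
    rw [if_neg (fun h3 => h3.1 hnA), h2, zero_mul]
  · have h2 : (∏ i ∈ A, if i = n then (0 : ℝ) else 1) = 1 := by
      refine Finset.prod_eq_one fun i hi => ?_
      rw [if_neg]
      rintro rfl
      exact hnA hi
    rw [h2, one_mul]
    by_cases hmA : m ∈ A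
    · rw [if_pos ⟨hnA, hmA⟩, Finset.prod_eq_one]
      intro i hi
      rw [if_neg]
      rintro rfl
      exact (Finset.mem_sdiff.1 hi).2 hmA
    · have h3 : (∏ i ∈ W \ A, if i = m then (0 : ℝ) else 1) = 0 :=
        Finset.prod_eq_zero (Finset.mem_sdiff.2 ⟨hm, hmA⟩) (if_pos rfl)
      rw [if_neg (fun h3 => hmA h3.2), h3]

/-- averages over all subsets -/
theorem averaging_eq (T : GG →L[ℝ] GG) (hT : ∀ n, cx (T (eG n)) n = 0) (M : ℕ) (y : GG)
    (hy : OnLv 0 M (cx y)) :
    ∑ A ∈ (Ico 0 M).powerset, Rr (Ico 0 M \ A) (T (Rr A y)) =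
      ((2 : ℝ) ^ #(Ico 0 M) / 4) • Rx 0 M (T y) := by
  classical
  obtain ⟨W, hW⟩ : ∃ W, W = Ico 0 M := ⟨_, rfl⟩
  rw [← hW]
  apply cx_injective
  rw [map_sum, map_smul, cx_Rx]
  funext n
  rw [Finset.sum_apply, Pi.smul_apply, cut_apply, smul_eq_mul]
  have hy' : y = Rr W y := by
    apply cx_injective
    rw [cx_Rr]
    funext k
    rw [Rs_apply]
    split_ifs with hk
    · rfl
    · apply hy
      rw [hW, mem_Ico] at hk
      omega
  have hexp : ∀ A : Finset ℕ, cx (T (Rr A y)) n = ∑ m ∈ A, cx y m * cx (T (eG m)) n := by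
    intro A
    rw [Rr_eq_sum, map_sum, map_sum, Finset.sum_apply]
    refine Finset.sum_congr rfl fun m _ => ?_
    rw [map_smul, map_smul, Pi.smul_apply, smul_eq_mul]
  by_cases hn : n ∈ W
  · have hn' : 0 ≤ n ∧ n < M := by rwa [hW, mem_Ico] at hn
    rw [if_pos hn']
    have h1 : ∀ A ∈ W.powerset, cx (Rr (W \ A) (T (Rr A y))) n =
        ∑ m ∈ W, (cx y m * cx (T (eG m)) n) * (if n ∉ A ∧ m ∈ A then (1 : ℝ) else 0) := by
      intro A hA
      rw [Finset.mem_powerset] at hA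
      rw [cx_Rr, Rs_apply]
      by_cases hnA : n ∈ A
      · rw [if_neg (fun h => (Finset.mem_sdiff.1 h).2 hnA)]
        symm
        apply Finset.sum_eq_zero
        intro m _
        rw [if_neg (fun h3 => h3.1 hnA), mul_zero]
      · rw [if_pos (Finset.mem_sdiff.2 ⟨hn, hnA⟩), hexp]
        have h2 : ∀ m ∈ W, (cx y m * cx (T (eG m)) n) * (if n ∉ A ∧ m ∈ A then (1 : ℝ) else 0) =
            if m ∈ A then cx y m * cx (T (eG m)) n else 0 := by
          intro m _
          by_cases hmA : m ∈ A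
          · rw [if_pos ⟨hnA, hmA⟩, if_pos hmA, mul_one]
          · rw [if_neg (fun h3 => hmA h3.2), if_neg hmA, mul_zero]
        rw [Finset.sum_congr rfl h2, ← Finset.sum_filter]
        congr 1
        ext m
        simp only [Finset.mem_filter]
        exact ⟨fun h => ⟨hA h, h⟩, fun h => h.2⟩
    rw [Finset.sum_congr rfl h1, Finset.sum_comm]
    have h3 : cx (T y) n = ∑ m ∈ W, cx y m * cx (T (eG m)) n := by
      conv_lhs => rw [hy']
      exact hexp W
    rw [h3, Finset.mul_sum]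
    refine Finset.sum_congr rfl fun m hm => ?_
    rw [← Finset.mul_sum]
    by_cases hmn : m = n
    · subst hmn
      rw [hT]
      ring
    · rw [count W m n hm hn hmn]
      ring
  · rw [if_neg (fun h => hn (by rw [hW, mem_Ico]; exact h)), mul_zero]
    apply Finset.sum_eq_zero
    intro A _
    rw [cx_Rr, Rs_apply, if_neg (fun h => hn (Finset.mem_sdiff.1 h).1)]

theorem averaging (T : GG →L[ℝ] GG) (hT : ∀ n, cx (T (eG n)) n = 0) (M : ℕ) (y : GG)
    (hy : OnLv 0 M (cx y)) :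
    ∃ A : Finset ℕ, (1 / 4) * ‖Rx 0 M (T y)‖ ≤ ‖Rr (Ico 0 M \ A) (T (Rr A y))‖ := by
  classical
  have h1 := averaging_eq T hT M y hy
  have h2 := congrArg norm h1
  rw [norm_smul, Real.norm_of_nonneg (by positivity)] at h2
  have h3 := norm_sum_le (Ico 0 M).powerset fun A => Rr (Ico 0 M \ A) (T (Rr A y))
  rw [h2] at h3
  have h4 : ∑ A ∈ (Ico 0 M).powerset, (1 / 4) * ‖Rx 0 M (T y)‖ ≤
      ∑ A ∈ (Ico 0 M).powerset, ‖Rr (Ico 0 M \ A) (T (Rr A y))‖ := by
    refine le_trans (le_of_eq ?_) h3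
    rw [Finset.sum_const, Finset.card_powerset, nsmul_eq_mul]
    push_cast
    ring
  obtain ⟨A, -, hA⟩ := Finset.exists_le_of_sum_le ⟨∅, Finset.empty_mem_powerset _⟩ h4
  exact ⟨A, hA⟩

/-- a signed functional which lives on the support -/
theorem signed_functional (v : GG) (S : Finset ℕ) (hv : ∀ n, n ∉ S → cx v n = 0) {η : ℝ}
    (h : η < ‖v‖) : ∃ (t : Tr) (S' : Finset ℕ) (θ : ℝ), t.Wf ∧ S' ⊆ S ∧ |θ| ≤ 1 ∧
      η / 2 < θ * ev t (Rs S' (cx v)) := by
  classical
  obtain ⟨⟨t, a, b⟩, ht, h1⟩ := exists_functional h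
  dsimp only at ht h1
  obtain ⟨P, hP⟩ : ∃ P, P = S.filter (fun n => (a ≤ n ∧ n < b) ∧ 0 ≤ cx v n) := ⟨_, rfl⟩
  obtain ⟨Q, hQ⟩ : ∃ Q, Q = S.filter (fun n => (a ≤ n ∧ n < b) ∧ cx v n < 0) := ⟨_, rfl⟩
  have h2 : cut a b |cx v| = Rs P (cx v) - Rs Q (cx v) := by
    funext n
    rw [cut_apply, Pi.abs_apply, Pi.sub_apply, Rs_apply, Rs_apply]
    by_cases hn : n ∈ S
    · by_cases h3 : a ≤ n ∧ n < b
      · rw [if_pos h3]
        by_cases h4 : 0 ≤ cx v n
        · rw [if_pos (by rw [hP]; exact Finset.mem_filter.2 ⟨hn, h3, h4⟩),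
            if_neg (by rw [hQ]; intro h5; have := (Finset.mem_filter.1 h5).2.2; linarith),
            abs_of_nonneg h4, sub_zero]
        · rw [if_neg (by rw [hP]; intro h5; exact h4 (Finset.mem_filter.1 h5).2.2),
            if_pos (by rw [hQ]; exact Finset.mem_filter.2 ⟨hn, h3, not_le.1 h4⟩),
            abs_of_neg (not_le.1 h4), zero_sub]
      · have hnP : n ∉ P := by rw [hP]; intro h5; exact h3 (Finset.mem_filter.1 h5).2.1
        have hnQ : n ∉ Q := by rw [hQ]; intro h5; exact h3 (Finset.mem_filter.1 h5).2.1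
        rw [if_neg h3, if_neg hnP, if_neg hnQ, sub_zero]
    · have hnP : n ∉ P := by rw [hP]; intro h5; exact hn (Finset.mem_filter.1 h5).1
      have hnQ : n ∉ Q := by rw [hQ]; intro h5; exact hn (Finset.mem_filter.1 h5).1
      rw [if_neg hnP, if_neg hnQ, hv n hn]
      simp
  rw [h2, map_sub] at h1
  by_cases h3 : η / 2 < ev t (Rs P (cx v))
  · exact ⟨t, P, 1, ht, by rw [hP]; exact Finset.filter_subset _ _, by simp, by rwa [one_mul]⟩
  · refine ⟨t, Q, -1, ht, by rw [hQ]; exact Finset.filter_subset _ _, by simp, ?_⟩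
    linarith

/-- **Operators with zero diagonal are small on rapidly increasing sequences.** -/
theorem zero_diag (T : GG →L[ℝ] GG) (hT : ∀ n, cx (T (eG n)) n = 0) (C : ℝ) (z : ℕ → GG)
    (hz : Ris C z) : Tendsto (fun l => T (z l)) atTop (𝓝 0) := by
  classical
  by_contra hcon
  rw [Metric.tendsto_atTop] at hcon
  push Not at hcon
  obtain ⟨δ, hδ, hfr⟩ := hcon
  have hfr' : ∃ᶠ l in atTop, δ ≤ ‖T (z l)‖ := by
    rw [frequently_atTop]
    intro N
    obtain ⟨n, hn, hd⟩ := hfr N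
    exact ⟨n, hn, by rwa [dist_zero_right] at hd⟩
  obtain ⟨ψ, hψ, hψδ⟩ := extraction_of_frequently_atTop hfr'
  have hz' := hz.sub hψ
  -- the choice of the sets, signs and trees
  have key : ∀ l, ∃ (A : Finset ℕ) (θ : ℝ) (f : Tr), |θ| ≤ 1 ∧ f.Wf ∧
      (∀ (S : Finset ℕ) (a b : ℕ), ev f (cut a b (Rs S |cx (θ • Rr A (z (ψ l)))|)) = 0) ∧
      δ / 12 ≤ ev f (cx (T (θ • Rr A (z (ψ l))))) := by
    intro l
    obtain ⟨A', B', J', hR⟩ := hz'
    obtain ⟨M, hM1, hM2⟩ := ((tail_small (T (z (ψ l))) (ε := δ / 4) (by positivity)).and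
      (eventually_ge_atTop (B' l))).exists
    have hsup : OnLv 0 M (cx (z (ψ l))) := by
      intro n hn
      have h1 : |cx (z (ψ l)) n| = 0 := hR.succ.1 l n (by omega)
      exact abs_eq_zero.1 h1
    obtain ⟨A, hA⟩ := averaging T hT M (z (ψ l)) hsup
    have h1 : 3 * δ / 4 ≤ ‖Rx 0 M (T (z (ψ l)))‖ := by
      have h2 := norm_sub_norm_le (T (z (ψ l))) (Rx 0 M (T (z (ψ l))))
      have h3 := hψδ l
      linarith
    have h2 : δ / 6 < ‖Rr (Ico 0 M \ A) (T (Rr A (z (ψ l))))‖ := by linarith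
    obtain ⟨t, S', θ, ht, hS', hθ, h3⟩ := signed_functional _ (Ico 0 M \ A) (fun n hn => by
      rw [cx_Rr, Rs_apply, if_neg hn]) h2
    refine ⟨A, θ, .rs S' t, hθ, ht, ?_, ?_⟩
    · intro S a b
      rw [ev_rs]
      have h4 : Rs S' (cut a b (Rs S |cx (θ • Rr A (z (ψ l)))|)) = 0 := by
        funext n
        rw [Rs_apply]
        split_ifs with h5
        · rw [cut_apply, Rs_apply, Pi.abs_apply, map_smul, Pi.smul_apply, cx_Rr, Rs_apply,
            if_neg (Finset.mem_sdiff.1 (hS' h5)).2, smul_zero, abs_zero]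
          simp
        · rfl
      rw [h4, map_zero]
    · rw [map_smul, map_smul, map_smul, smul_eq_mul, ev_rs]
      have h4 : Rs S' (cx (Rr (Ico 0 M \ A) (T (Rr A (z (ψ l)))))) =
          Rs S' (cx (T (Rr A (z (ψ l))))) := by
        rw [cx_Rr, Rs_Rs, Finset.inter_eq_left.2 hS']
      rw [h4] at h3
      linarith
  choose A θ f hθ hf hzero hlarge using key
  have hy : Ris C (fun l => θ l • Rr (A l) (z (ψ l))) := (hz'.Rr A).phase hθ
  obtain ⟨ρ, hρ⟩ : ∃ ρ, ρ = min 1 (δ / 48) := ⟨_, rfl⟩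
  have hρ0 : 0 < ρ := by rw [hρ]; exact lt_min one_pos (by positivity)
  have hρ1 : ρ ≤ 1 := by rw [hρ]; exact min_le_left _ _
  have hρ2 : ρ ≤ δ / 48 := by rw [hρ]; exact min_le_right _ _
  obtain ⟨w, φ, A', B', J', hris, hwin, -⟩ := t_SEL hELS hAVG ρ T C
    (fun _ l => θ l • Rr (A l) (z (ψ l))) (fun _ _ => True) hρ0 (fun _ => hy)
    (fun _ => Frequently.of_forall fun _ => trivial)
  have hpow : ∀ s : ℕ, ρ * (1 / 4) ^ s ≤ ρ := fun s =>
    mul_le_of_le_one_right hρ0.le (pow_le_one₀ (by norm_num) (by norm_num))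
  refine contra (T := T) (C := C) (δ := δ / 24)
    (y := fun s => θ (φ s) • Rr (A (φ s)) (z (ψ (φ s)))) (A := A') (B := B') (J := J') (w := w)
    (f := fun s => f (φ s)) ?_ (by positivity)
  refine ⟨hris, ?_, fun s => hf _, fun s S => hzero _ S _ _, fun s => ?_⟩
  · refine ⟨hwin.mono, hwin.loA, hwin.hiB, fun s => (hwin.lo s).trans ?_,
      fun s' s h => (hwin.hi s' s h).trans ?_⟩
    · exact mul_le_mul_of_nonneg_right hρ1 (by positivity)
    · exact mul_le_mul_of_nonneg_right hρ1 (by positivity)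
  · obtain ⟨y, hyd⟩ : ∃ y : GG, y = θ (φ s) • Rr (A (φ s)) (z (ψ (φ s))) := ⟨_, rfl⟩
    have h1 := hlarge (φ s)
    have h2 : ‖Rx 0 (w s) (T (θ (φ s) • Rr (A (φ s)) (z (ψ (φ s)))))‖ ≤ ρ :=
      (hwin.lo s).trans (hpow s)
    have h3 : ‖T (θ (φ s) • Rr (A (φ s)) (z (ψ (φ s)))) -
        Rx 0 (w (s + 1)) (T (θ (φ s) • Rr (A (φ s)) (z (ψ (φ s)))))‖ ≤ ρ :=
      (hwin.hi s (s + 1) (Nat.lt_succ_self s)).trans (hpow (s + 1))
    show δ / 24 ≤ ev (f (φ s)) (cut (w s) (w (s + 1)) (cx (T (θ (φ s) • Rr (A (φ s)) (z (ψ (φ s)))))))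
    rw [← hyd] at h1 h2 h3 ⊢
    have h4 : cx (T y) = cut (w s) (w (s + 1)) (cx (T y)) + cx (Rx 0 (w s) (T y)) +
        cx (T y - Rx 0 (w (s + 1)) (T y)) := by
      rw [map_sub, cx_Rx, cx_Rx]
      have hw := hwin.mono (Nat.lt_succ_self s)
      funext n
      rw [Pi.add_apply, Pi.add_apply, Pi.sub_apply, cut_apply, cut_apply, cut_apply]
      by_cases h5 : n < w s
      · rw [if_neg (by omega), if_pos ⟨Nat.zero_le _, h5⟩,
          if_pos ⟨Nat.zero_le _, h5.trans hw⟩]
        ring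
      · by_cases h6 : n < w (s + 1)
        · rw [if_pos ⟨not_lt.1 h5, h6⟩, if_neg (by omega), if_pos ⟨Nat.zero_le _, h6⟩]
          ring
        · rw [if_neg (by omega), if_neg (by omega), if_neg (by omega)]
          ring
    have h5 : ∀ u : GG, ev (f (φ s)) (cx u) ≤ ‖u‖ := by
      intro u
      have h6 : Tendsto (fun N => ev (f (φ s)) (cut 0 N (cx u))) atTop
          (𝓝 (ev (f (φ s)) (cx u))) := by
        refine ((continuous_ev (f (φ s))).tendsto _).comp (tendsto_pi_nhds.2 fun n => ?_)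
        refine tendsto_const_nhds.congr' ?_
        filter_upwards [eventually_gt_atTop n] with N hN
        rw [cut_apply, if_pos ⟨Nat.zero_le _, hN⟩]
      exact le_of_tendsto h6 (Eventually.of_forall fun N =>
        (le_abs_self _).trans (abs_ev_le_norm u _ (hf _) 0 N))
    rw [h4, map_add, map_add] at h1
    have h6 := h5 (Rx 0 (w s) (T y))
    have h7 := h5 (T y - Rx 0 (w (s + 1)) (T y))
    linarith

end

end Pool.Agent.Helper94.UG
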